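import Pool.Agent.Lib.MP_216314_pr.Z.PatA

/-!
# Gluing of a block of arcs and a periodic pattern

`gP b L sg τ`: pattern of period `L = b + c`: the sites `0, ..., b - 1` of every period are joined according to `sg`, the other `c` sites of
every period according to the pattern `τ` of period `c`.
-/

set_option autoImplicit false

noncomputable section

namespace SCH

open CY

/-- position of the site `y` of the small pattern -/
def emb (b c : ℕ) (y : ℤ) : ℤ := y + b * (y / c + 1)

/-- the inverse -/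
def une (b L : ℕ) (x : ℤ) : ℤ := x - b * (x / L + 1)

theorem dm {L : ℕ} {x q r : ℤ} (h : x = r + q * L) (h0 : 0 ≤ r) (h1 : r < L) : x / L = q ∧ x % L = r := by
  have hL : (0 : ℤ) < L := lt_of_le_of_lt h0 h1
  have h2 := (Int.ediv_emod_unique (a := x) (b := (L : ℤ)) (q := q) (r := r) hL).2 ⟨by rw [h]; ring, h0, h1⟩
  exact h2

theorem emb_dm {b c L : ℕ} (hc : 0 < c) (hL : L = b + c) (y : ℤ) : emb b c y / L = y / c ∧ emb b c y % L = b + y % c := by
  have h0 := Int.emod_nonneg y (b := (c : ℤ)) (by omega)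
  have h1 := Int.emod_lt_of_pos y (b := (c : ℤ)) (by omega)
  have h2 := Int.emod_add_mul_ediv y c
  refine dm ?_ (by omega) (by rw [hL]; push_cast; omega)
  unfold emb
  rw [hL]
  push_cast
  linear_combination -h2

theorem une_emb {b c L : ℕ} (hc : 0 < c) (hL : L = b + c) (y : ℤ) : une b L (emb b c y) = y := by
  unfold une
  rw [(emb_dm hc hL y).1]
  unfold emb
  ring

theorem une_div {b c L : ℕ} (hL : L = b + c) {x : ℤ} (hx : (b : ℤ) ≤ x % L) (hc : 0 < c) : une b L x / c = x / L := by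
  have h1 := Int.emod_lt_of_pos x (b := (L : ℤ)) (by omega)
  have h2 := Int.emod_add_mul_ediv x L
  refine (dm (r := x % L - b) ?_ (by omega) (by omega)).1
  unfold une
  have h3 : (L : ℤ) = b + c := by rw [hL]; push_cast; ring
  rw [h3] at h2 ⊢
  linear_combination -h2

theorem emb_une {b c L : ℕ} (hL : L = b + c) {x : ℤ} (hx : (b : ℤ) ≤ x % L) (hc : 0 < c) : emb b c (une b L x) = x := by
  have h := une_div hL hx hc
  unfold emb
  rw [h]
  unfold une
  ring

theorem emb_lt {b c : ℕ} (hc : 0 < c) {x y : ℤ} (h : x < y) : emb b c x < emb b c y := by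
  have h1 : x / (c : ℤ) ≤ y / c := Int.ediv_le_ediv (by omega) (by omega)
  unfold emb
  nlinarith

theorem emb_lt_iff {b c : ℕ} (hc : 0 < c) {x y : ℤ} : emb b c x < emb b c y ↔ x < y := by
  constructor
  · intro h
    by_contra h1
    rcases eq_or_lt_of_le (not_lt.1 h1) with h2 | h2
    · rw [h2] at h
      exact lt_irrefl _ h
    · have := emb_lt (b := b) hc h2
      omega
  · exact emb_lt hc

theorem emb_add {b c L : ℕ} (hc : 0 < c) (hL : L = b + c) (y : ℤ) : emb b c (y + c) = emb b c y + L := by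
  have h : (y + c) / (c : ℤ) = y / c + 1 := by
    have h1 : (y + (c : ℤ)) = y + 1 * c := by ring
    rw [h1, Int.add_mul_ediv_right _ _ (by omega)]
  unfold emb
  rw [h, hL]
  push_cast
  ring

/-- noncrossing involution of `{0, ..., b - 1}` -/
def BNC (b : ℕ) (sg : ℕ → ℕ) : Prop :=
  (∀ r, r < b → sg r < b ∧ sg r ≠ r ∧ sg (sg r) = r) ∧
  (∀ r t, r < t → t < sg r → sg r < b → r < sg t ∧ sg t < sg r)

/-- the glued involution -/
def gF (b c L : ℕ) (sg : ℕ → ℕ) (f : ℤ → ℤ) (x : ℤ) : ℤ :=
  if x % L < b then sg (x % L).toNat + x / L * L else emb b c (f (une b L x))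

section

variable {b c L : ℕ} {sg : ℕ → ℕ}

theorem gF_block {f : ℤ → ℤ} {r : ℕ} (m : ℤ) (hr : r < b) (hL : L = b + c) : gF b c L sg f (r + m * L) = sg r + m * L := by
  have h := dm (L := L) (x := (r : ℤ) + m * L) (q := m) (r := r) rfl (by omega) (by omega)
  unfold gF
  rw [h.1, h.2, if_pos (by omega), Int.toNat_natCast]

theorem gF_emb {f : ℤ → ℤ} (hc : 0 < c) (hL : L = b + c) (y : ℤ) : gF b c L sg f (emb b c y) = emb b c (f y) := by
  have h := emb_dm hc hL y
  have h0 := Int.emod_nonneg y (b := (c : ℤ)) (by omega)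
  unfold gF
  rw [h.2, if_neg (by omega), une_emb hc hL]

/-- the two kinds of sites -/
theorem gcases (hc : 0 < c) (hL : L = b + c) (x : ℤ) : (∃ (r : ℕ) (m : ℤ), r < b ∧ x = r + m * L) ∨ ∃ y, x = emb b c y := by
  have h0 := Int.emod_nonneg x (b := (L : ℤ)) (by omega)
  have h2 := Int.emod_add_mul_ediv x L
  by_cases h : x % L < b
  · refine Or.inl ⟨(x % L).toNat, x / L, by omega, ?_⟩
    rw [Int.toNat_of_nonneg h0]
    linarith [mul_comm (L : ℤ) (x / L)]
  · exact Or.inr ⟨une b L x, (emb_une hL (by omega) hc).symm⟩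

/-- a site of the small pattern is not in a block -/
theorem emb_out (hc : 0 < c) (hL : L = b + c) (y m : ℤ) : emb b c y < m * L ∨ m * L + b ≤ emb b c y := by
  have h := emb_dm hc hL y
  have h0 := Int.emod_nonneg y (b := (c : ℤ)) (by omega)
  have h1 := Int.emod_lt_of_pos y (b := (c : ℤ)) (by omega)
  have h2 := Int.emod_add_mul_ediv (emb b c y) L
  rw [h.2, h.1] at h2
  rcases lt_or_ge (y / (c : ℤ)) m with h3 | h3
  · left
    have h4 : (L : ℤ) * (y / c) ≤ L * (m - 1) := by
      apply mul_le_mul_of_nonneg_left _ (by omega)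
      omega
    have h5 : (L : ℤ) = b + c := by rw [hL]; push_cast; ring
    have h6 : (L : ℤ) * (m - 1) = m * L - L := by ring
    omega
  · right
    have h4 : (L : ℤ) * m ≤ L * (y / c) := by
      apply mul_le_mul_of_nonneg_left h3 (by omega)
    have h6 : (L : ℤ) * m = m * L := by ring
    omega

end

/-- **the glued pattern** -/
def gP (b L : ℕ) {c : ℕ} (hL : L = b + c) (sg : ℕ → ℕ) (h : BNC b sg) (τ : Pat c) : Pat L where
  f := gF b c L sg τ.f
  pos := by
    have := τ.pos
    omega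
  inv x := by
    rcases gcases τ.pos hL x with ⟨r, m, hr, rfl⟩ | ⟨y, rfl⟩
    · rw [gF_block m hr hL, gF_block m (h.1 r hr).1 hL, (h.1 r hr).2.2]
    · rw [gF_emb τ.pos hL, gF_emb τ.pos hL, τ.inv]
  per x := by
    rcases gcases τ.pos hL x with ⟨r, m, hr, rfl⟩ | ⟨y, rfl⟩
    · have e : (r : ℤ) + m * L + L = r + (m + 1) * L := by ring
      rw [e, gF_block m hr hL, gF_block (m + 1) hr hL]
      ring
    · rw [← emb_add τ.pos hL, gF_emb τ.pos hL, gF_emb τ.pos hL, τ.per, emb_add τ.pos hL]
  ne x := by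
    rcases gcases τ.pos hL x with ⟨r, m, hr, rfl⟩ | ⟨y, rfl⟩
    · rw [gF_block m hr hL]
      intro h1
      have := (h.1 r hr).2.1
      omega
    · rw [gF_emb τ.pos hL]
      intro h1
      have h2 := une_emb τ.pos hL y (b := b)
      have h3 := une_emb τ.pos hL (τ.f y) (b := b)
      rw [h1, h2] at h3
      exact τ.ne y h3.symm
  nc x y h1 h2 := by
    rcases gcases τ.pos hL x with ⟨r, m, hr, rfl⟩ | ⟨u, rfl⟩
    · rw [gF_block m hr hL] at h2 ⊢
      have h3 := (h.1 r hr).1
      obtain ⟨t, ht⟩ : ∃ t : ℕ, y = t + m * L := ⟨(y - m * L).toNat, by omega⟩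
      subst ht
      rw [gF_block m (by omega) hL]
      have h4 := h.2 r t (by omega) (by omega) h3
      omega
    · rw [gF_emb τ.pos hL] at h2 ⊢
      rcases gcases τ.pos hL y with ⟨t, m, ht, rfl⟩ | ⟨v, rfl⟩
      · rw [gF_block m ht hL]
        have h3 := (h.1 t ht).1
        have h4 := emb_out τ.pos hL u m
        have h5 := emb_out τ.pos hL (τ.f u) m
        omega
      · rw [gF_emb τ.pos hL]
        rw [emb_lt_iff τ.pos] at h1 h2
        have h3 := τ.nc u v h1 h2
        exact ⟨emb_lt τ.pos h3.1, emb_lt τ.pos h3.2⟩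

end SCH
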