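import Pool.Agent.Lib.MP_216314_pr.Sc.ScRel
import Pool.Agent.Lib.MP_216314_pr.Sc.Glu

/-!
# The first glued pattern is a glued pattern
-/

set_option autoImplicit false

noncomputable section

namespace SCH

open Finset CY

/-- the block of the left strip: arcs `(0, 2 a + 1)`, `(1, 2)`, ..., `(2 a - 1, 2 a)` -/
def sgb (a : ℕ) (r : ℕ) : ℕ := if r = 0 then 2 * a + 1 else if r = 2 * a + 1 then 0 else if r % 2 = 1 then r + 1 else r - 1

theorem sgb_zero (a : ℕ) : sgb a 0 = 2 * a + 1 := if_pos rfl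

theorem sgb_last (a : ℕ) : sgb a (2 * a + 1) = 0 := by
  unfold sgb
  rw [if_neg (by omega), if_pos rfl]

theorem sgb_odd {a r : ℕ} (h : r % 2 = 1) (h' : r ≠ 2 * a + 1) : sgb a r = r + 1 := by
  unfold sgb
  rw [if_neg (by omega), if_neg h', if_pos h]

theorem sgb_even {a r : ℕ} (h : r % 2 = 0) (h' : r ≠ 0) : sgb a r = r - 1 := by
  unfold sgb
  rw [if_neg h', if_neg (by omega), if_neg (by omega)]

theorem sgb_cases (a r : ℕ) : (r = 0 ∧ sgb a r = 2 * a + 1) ∨ (r = 2 * a + 1 ∧ sgb a r = 0) ∨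
    (r % 2 = 1 ∧ r ≠ 2 * a + 1 ∧ sgb a r = r + 1) ∨ (r % 2 = 0 ∧ r ≠ 0 ∧ sgb a r = r - 1) := by
  by_cases h : r = 0
  · rw [h]
    exact Or.inl ⟨rfl, sgb_zero a⟩
  by_cases h' : r = 2 * a + 1
  · rw [h']
    exact Or.inr (Or.inl ⟨rfl, sgb_last a⟩)
  by_cases h2 : r % 2 = 1
  · exact Or.inr (Or.inr (Or.inl ⟨h2, h', sgb_odd h2 h'⟩))
  · exact Or.inr (Or.inr (Or.inr ⟨by omega, h, sgb_even (by omega) h⟩))

theorem sgb_nc (a : ℕ) : BNC (2 * a + 2) (sgb a) := by
  constructor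
  · intro r hr
    have h1 := sgb_cases a r
    have h2 := sgb_cases a (sgb a r)
    omega
  · intro r t h1 h2 h3
    have h4 := sgb_cases a r
    have h5 := sgb_cases a t
    omega

theorem up_block {L : ℕ} (hL : 1 ≤ L) {r : ℕ} (m : ℤ) (hr : r < L) : up L 1 (r + m * L) =
    (if r = 0 then 0 else r + 2 : ℕ) + m * ((L + 2 : ℕ) : ℤ) := by
  unfold up
  by_cases h : r = 0
  · rw [if_pos h, h]
    have e : (((0 : ℕ) : ℤ) + m * L - 1) / (L : ℤ) = m - 1 :=
      (dm (L := L) (q := m - 1) (r := (L : ℤ) - 1) (by push_cast; ring) (by omega) (by omega)).1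
    rw [e]
    push_cast
    ring
  · rw [if_neg h]
    have e : ((r : ℤ) + m * L - 1) / (L : ℤ) = m :=
      (dm (L := L) (q := m) (r := (r : ℤ) - 1) (by ring) (by omega) (by omega)).1
    rw [e]
    push_cast
    ring

theorem emb_up {a c L : ℕ} (hc : 0 < c) (hL : L = 2 * a + 2 + c) (y : ℤ) :
    up L 1 (emb (2 * a + 2) c y) = emb (2 * (a + 1) + 2) c y := by
  have h0 := Int.emod_nonneg y (b := (c : ℤ)) (by omega)
  have h := emb_dm hc hL y
  have h1 := Int.emod_add_mul_ediv (emb (2 * a + 2) c y) L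
  have h2 := Int.emod_lt_of_pos y (b := (c : ℤ)) (by omega)
  rw [h.1, h.2] at h1
  unfold up
  have e : (emb (2 * a + 2) c y - 1) / (L : ℤ) = y / c :=
    (dm (L := L) (q := y / c) (r := ((2 * a + 2 : ℕ) : ℤ) + y % c - 1) (by linarith [mul_comm (L : ℤ) (y / c)])
      (by push_cast; omega) (by rw [hL]; push_cast; omega)).1
  rw [e]
  unfold emb
  push_cast
  ring

theorem ext_up {L : ℕ} {α β : Pat (L + 2)} (hL : 0 < L) (i : ℤ) (h0 : α.f i = i + 1) (h1 : β.f i = i + 1)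
    (h : ∀ k, α.f (up L i k) = β.f (up L i k)) : α = β := by
  have key : ∀ γ : Pat (L + 2), γ.f i = i + 1 → ∀ x : ℤ, ((L + 2 : ℤ) ∣ x - i → γ.f x = x + 1) ∧
      ((L + 2 : ℤ) ∣ x - i - 1 → γ.f x = x - 1) := by
    intro γ hγ x
    constructor
    · rintro ⟨k, hk⟩
      have e : x = i + k * ((L + 2 : ℕ) : ℤ) := by push_cast; linarith [mul_comm ((L : ℤ) + 2) k]
      rw [e, γ.per_mul, hγ]
      ring
    · rintro ⟨k, hk⟩
      have e : x = i + 1 + k * ((L + 2 : ℕ) : ℤ) := by push_cast; linarith [mul_comm ((L : ℤ) + 2) k]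
      have e2 : γ.f (i + 1) = i := by rw [← hγ, γ.inv]
      rw [e, γ.per_mul, e2]
      ring
  apply Pat.ext
  funext x
  by_cases c1 : (L + 2 : ℤ) ∣ x - i
  · rw [(key α h0 x).1 c1, (key β h1 x).1 c1]
  by_cases c2 : (L + 2 : ℤ) ∣ x - i - 1
  · rw [(key α h0 x).2 c2, (key β h1 x).2 c2]
  · rw [← up_dn hL i x c1 c2]
    exact h _

/-- one more pair -/
theorem gP_ins {a c L : ℕ} (hL : L = 2 * a + 2 + c) (hL' : L + 2 = 2 * (a + 1) + 2 + c) (τ : Pat c) :
    Pat.ins 1 (gP (2 * a + 2) L hL (sgb a) (sgb_nc a) τ) = gP (2 * (a + 1) + 2) (L + 2) hL' (sgb (a + 1)) (sgb_nc (a + 1)) τ := by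
  have hc := τ.pos
  refine ext_up (i := 1) (by omega) (Pat.ins_left _ _) ?_ ?_
  · show gF _ _ _ _ _ 1 = _
    have h := gF_block (f := τ.f) (sg := sgb (a + 1)) (r := 1) 0 (by omega : 1 < 2 * (a + 1) + 2) hL'
    have e : ((1 : ℕ) : ℤ) + 0 * ((L + 2 : ℕ) : ℤ) = 1 := by push_cast; ring
    rw [e] at h
    rw [h]
    rw [sgb_odd (by norm_num) (by omega)]
    push_cast
    ring
  · intro k
    rw [Pat.ins_up]
    show up L 1 (gF _ _ _ _ _ k) = gF _ _ _ _ _ _
    rcases gcases hc hL k with ⟨r, m, hr, rfl⟩ | ⟨y, rfl⟩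
    · have h3 := ((sgb_nc a).1 r hr).1
      rw [gF_block m hr hL, up_block (by omega) m (by omega), up_block (by omega) m (by omega),
        gF_block m (by split_ifs <;> omega) hL']
      have h4 := sgb_cases a r
      have h5 := sgb_cases (a + 1) (if r = 0 then 0 else r + 2)
      have e : (if sgb a r = 0 then 0 else sgb a r + 2) = sgb (a + 1) (if r = 0 then 0 else r + 2) := by
        by_cases c1 : r = 0
        · rw [if_pos c1, c1, sgb_zero, sgb_zero, if_neg (by omega)]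
          ring
        · rw [if_neg c1]
          rw [if_neg c1] at h5
          by_cases c2 : sgb a r = 0
          · rw [if_pos c2]
            omega
          · rw [if_neg c2]
            omega
      rw [e]
    · rw [gF_emb hc hL, emb_up hc hL, emb_up hc hL, gF_emb hc hL']

/-- the seam arc -/
theorem gP_zero {c : ℕ} (τ : Pat c) (hL : c + 2 = 2 * 0 + 2 + c) :
    Pat.ins 0 τ = gP (2 * 0 + 2) (c + 2) hL (sgb 0) (sgb_nc 0) τ := by
  have hc := τ.pos
  refine ext_up (i := 0) hc (Pat.ins_left _ _) ?_ ?_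
  · have h := gF_block (f := τ.f) (sg := sgb 0) (r := 0) 0 (by omega : 0 < 2 * 0 + 2) hL
    have e : ((0 : ℕ) : ℤ) + 0 * ((c + 2 : ℕ) : ℤ) = 0 := by push_cast; ring
    rw [e, sgb_zero] at h
    refine h.trans ?_
    push_cast
    ring
  · intro k
    rw [Pat.ins_up]
    show up c 0 (τ.f k) = gF _ _ _ _ _ _
    have e : ∀ y : ℤ, up c 0 y = emb (2 * 0 + 2) c y := by
      intro y
      unfold up emb
      rw [sub_zero]
      push_cast
      ring
    rw [e, e, gF_emb hc hL]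

theorem beta_eq (a : ℕ) {n : ℕ} (π : Pat (2 * n)) (hL : 2 * n + 2 + 2 * a = 2 * a + 2 + 2 * n) :
    beta a π = gP (2 * a + 2) (2 * n + 2 + 2 * a) hL (sgb a) (sgb_nc a) π := by
  induction a with
  | zero => exact gP_zero π hL
  | succ a ih =>
    have h0 : 2 * n + 2 + 2 * a = 2 * a + 2 + 2 * n := by ring
    have h := ih h0
    show Pat.ins 1 (insN a (Pat.ins 0 π)) = _
    have h' : insN a (Pat.ins 0 π) = gP (2 * a + 2) (2 * n + 2 + 2 * a) h0 (sgb a) (sgb_nc a) π := h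
    rw [h']
    exact gP_ins h0 hL π

end SCH
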