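import Pool.Agent.Lib.MP_216314_pr.Sc.PSRot
import Pool.Agent.Lib.MP_216314_pr.Ca.CaFac

/-!
# Blocks of spin vectors of periodic patterns: arcs which do not cross the seam
-/

set_option autoImplicit false

noncomputable section

namespace SCH

open Finset QS CY CD

/-- product over an involution -/
theorem prod_invol {S : Finset ℕ} {σ : ℕ → ℕ} (h1 : ∀ x ∈ S, σ x ∈ S) (h2 : ∀ x ∈ S, σ (σ x) = x) (h3 : ∀ x ∈ S, σ x ≠ x)
    (f : ℕ → ℂ) : ∏ x ∈ S, f x = ∏ x ∈ S.filter (fun x => x < σ x), (f x * f (σ x)) := by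
  rw [prod_mul_distrib, ← prod_filter_mul_prod_filter_not S (fun x => x < σ x)]
  congr 1
  symm
  refine prod_bij (fun x _ => σ x) ?_ ?_ ?_ (fun _ _ => rfl)
  · intro x hx
    rw [mem_filter] at hx ⊢
    refine ⟨h1 x hx.1, ?_⟩
    rw [h2 x hx.1]
    omega
  · intro x hx y hy hxy
    rw [mem_filter] at hx hy
    have := congrArg σ hxy
    rwa [h2 x hx.1, h2 y hy.1] at this
  · intro y hy
    rw [mem_filter] at hy
    refine ⟨σ y, ?_, h2 y hy.1⟩
    rw [mem_filter, h2 y hy.1]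
    have := h3 y hy.1
    exact ⟨h1 y hy.1, by omega⟩

/-- a block of arcs which do not cross the seam -/
theorem gl_block {t : ℤ} {L : ℕ} {α : Pat L} {S : Finset ℕ} {σ : ℕ → ℕ} (hS : ∀ x ∈ S, x < L) (h1 : ∀ x ∈ S, σ x ∈ S)
    (h2 : ∀ x ∈ S, σ (σ x) = x) (h3 : ∀ x ∈ S, σ x ≠ x) (hα : ∀ x ∈ S, α.f (x : ℤ) = σ x) (D : Finset ℕ) :
    ∏ x ∈ S, gl t α D x = ∏ x ∈ S, gx σ D x := by
  have hr := r_ne
  rw [prod_invol h1 h2 h3, prod_invol h1 h2 h3]
  refine prod_congr rfl fun x hx => ?_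
  rw [mem_filter] at hx
  obtain ⟨hx, hlt⟩ := hx
  have a1 := hα x hx
  have a2 := hα _ (h1 x hx)
  rw [h2 x hx] at a2
  have p1 : pr L (α.f (x : ℤ)) = σ x := by rw [a1]; exact pr_self (hS _ (h1 x hx))
  have p2 : pr L (α.f ((σ x : ℕ) : ℤ)) = x := by rw [a2]; exact pr_self (hS x hx)
  have d1 : (x : ℤ) / L = 0 := Int.ediv_eq_zero_of_lt (by omega) (by have := hS x hx; omega)
  have d2 : ((σ x : ℕ) : ℤ) / L = 0 := Int.ediv_eq_zero_of_lt (by omega) (by have := hS _ (h1 x hx); omega)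
  have e1 : ex L t x ((σ x : ℕ) : ℤ) = 1 := by
    unfold ex
    rw [d1, d2, Int.sign_eq_one_of_pos (by omega)]
    ring
  have e2 : ex L t ((σ x : ℕ) : ℤ) x = -1 := by rw [ex_anti, e1]
  by_cases hc : (σ x ∈ D ↔ x ∉ D)
  · have hc' : (x ∈ D ↔ σ x ∉ D) := by tauto
    rw [gl_pos (by rw [p1]; exact hc), gl_pos (by rw [p2]; exact hc'), a1, a2, e1, e2]
    have g2 : gx σ D (σ x) = 1 := gx_one (by rw [h2 x hx]; exact hc') (by rw [h2 x hx]; omega)
    rw [g2, mul_one]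
    by_cases hD : x ∈ D
    · rw [ep_in hD, ep_out (hc'.1 hD), gx_dn (hc'.1 hD) hD hlt, ← r_sq]
      rw [← zpow_add₀ hr, ← zpow_natCast, ← zpow_neg]
      norm_num
    · rw [ep_out hD, ep_in (hc.2 hD), gx_up (hc.2 hD) hD hlt, ← r_sq]
      rw [← zpow_add₀ hr, ← zpow_natCast]
      norm_num
  · rw [gl_neg (by rw [p1]; exact hc), gx_zero hc, zero_mul, zero_mul]

end SCH
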