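import Pool.Agent.Lib.MP_216314_pr.Sc.GluB
import Pool.Agent.Lib.MP_216314_pr.Sc.PSBlk

/-!
# Spin vector and regions of a glued pattern
-/

set_option autoImplicit false

noncomputable section

namespace SCH

open Finset QS CY CD

theorem sign_emb {b c : ℕ} (hc : 0 < c) (x y : ℤ) : Int.sign (emb b c y - emb b c x) = Int.sign (y - x) := by
  rcases lt_trichotomy x y with h | h | h
  · have h1 := emb_lt (b := b) hc h
    rw [Int.sign_eq_one_of_pos (by omega), Int.sign_eq_one_of_pos (by omega)]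
  · rw [h, sub_self, sub_self]
  · have h1 := emb_lt (b := b) hc h
    rw [Int.sign_eq_neg_one_of_neg (by omega), Int.sign_eq_neg_one_of_neg (by omega)]

theorem ex_emb {b c L : ℕ} (hc : 0 < c) (hL : L = b + c) (t x y : ℤ) : ex L t (emb b c x) (emb b c y) = ex c t x y := by
  unfold ex
  rw [sign_emb hc, (emb_dm hc hL x).1, (emb_dm hc hL y).1]

theorem pr_emb {b c L : ℕ} (hc : 0 < c) (hL : L = b + c) (y : ℤ) : pr L (emb b c y) = b + pr c y := by
  have h0 := Int.emod_nonneg y (b := (c : ℤ)) (by omega)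
  unfold pr
  rw [(emb_dm hc hL y).2]
  omega

theorem emb_nat {b c : ℕ} {j : ℕ} (hj : j < c) : emb b c (j : ℤ) = ((b + j : ℕ) : ℤ) := by
  unfold emb
  rw [Int.ediv_eq_zero_of_lt (by omega) (by omega)]
  push_cast
  ring

/-- spin vector of a glued pattern -/
theorem PS_gP {t : ℤ} {b c L : ℕ} (hL : L = b + c) {sg : ℕ → ℕ} (h : BNC b sg) (τ : Pat c) {D E : Finset ℕ}
    (hE : ∀ j, j < c → (j ∈ E ↔ b + j ∈ D)) :
    PS t (gP b L hL sg h τ) D = (∏ x ∈ range b, gx sg D x) * PS t τ E := by
  have hc := τ.pos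
  unfold PS
  have e : range L = range (b + c) := by rw [hL]
  rw [e, prod_range_add]
  congr 1
  · refine gl_block (σ := sg) (fun x hx => ?_) (fun x hx => ?_) (fun x hx => ?_) (fun x hx => ?_) (fun x hx => ?_) D
    · rw [mem_range] at hx
      omega
    · rw [mem_range] at hx ⊢
      exact (h.1 x hx).1
    · rw [mem_range] at hx
      exact (h.1 x hx).2.2
    · rw [mem_range] at hx
      exact (h.1 x hx).2.1
    · rw [mem_range] at hx
      have h1 := gF_block (f := τ.f) (sg := sg) 0 hx hL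
      have e1 : (x : ℤ) + 0 * L = x := by ring
      have e2 : ((sg x : ℕ) : ℤ) + 0 * L = sg x := by ring
      rw [e1, e2] at h1
      exact h1
  · refine prod_congr rfl fun j hj => ?_
    rw [mem_range] at hj
    have h1 : (gP b L hL sg h τ).f ((b + j : ℕ) : ℤ) = emb b c (τ.f j) := by
      rw [← emb_nat hj]
      exact gF_emb hc hL _
    have h2 : ep D (b + j) = ep E j := by
      unfold ep
      simp only [hE j hj]
    have h3 : ex L t ((b + j : ℕ) : ℤ) (emb b c (τ.f j)) = ex c t j (τ.f j) := by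
      rw [← emb_nat hj, ex_emb hc hL]
    have h4 : pr L ((gP b L hL sg h τ).f ((b + j : ℕ) : ℤ)) ∈ D ↔ pr c (τ.f j) ∈ E := by
      rw [h1, pr_emb hc hL]
      exact (hE _ (pr_lt hc _)).symm
    by_cases h5 : pr c (τ.f j) ∈ E ↔ j ∉ E
    · rw [gl_pos h5, gl_pos (α := gP b L hL sg h τ) (by rw [h4, h5, hE j hj]), h2, h1, h3]
    · rw [gl_neg h5, gl_neg (α := gP b L hL sg h τ) (by rw [h4, ← hE j hj]; exact h5)]

/-- the gap of the small pattern -/
def cgap (b c L : ℕ) (g : ℤ) : ℤ := if g % L = 0 then g / L * c else g / L * c + (g % L - b)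

/-- the gap is outside of the blocks -/
def outg (b L : ℕ) (g : ℤ) : Prop := g % L = 0 ∨ (b : ℤ) ≤ g % L

theorem cgap_iff {b c L : ℕ} (hc : 0 < c) (hL : L = b + c) {g : ℤ} (hg : outg b L g) (u : ℤ) :
    emb b c u < g ↔ u < cgap b c L g := by
  have h0 := Int.emod_nonneg u (b := (c : ℤ)) (by omega)
  have h1 := Int.emod_lt_of_pos u (b := (c : ℤ)) (by omega)
  have h2 := Int.emod_add_mul_ediv u c
  have h3 := emb_dm hc hL u
  have h4 := Int.emod_add_mul_ediv (emb b c u) L
  rw [h3.1, h3.2] at h4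
  have k0 := Int.emod_nonneg g (b := (L : ℤ)) (by omega)
  have k1 := Int.emod_lt_of_pos g (b := (L : ℤ)) (by omega)
  have k2 := Int.emod_add_mul_ediv g L
  have hL' : (L : ℤ) = b + c := by rw [hL]; push_cast; ring
  obtain ⟨q, hq⟩ : ∃ q, u / (c : ℤ) = q := ⟨_, rfl⟩
  obtain ⟨m, hm⟩ : ∃ m, g / (L : ℤ) = m := ⟨_, rfl⟩
  rw [hq] at h2 h4
  rw [hm] at k2
  unfold cgap
  rw [hm]
  rcases lt_trichotomy q m with h | h | h
  · -- both sides hold
    have e1 : (L : ℤ) * q ≤ L * (m - 1) := mul_le_mul_of_nonneg_left (by omega) (by omega)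
    have e2 : (c : ℤ) * q ≤ c * (m - 1) := mul_le_mul_of_nonneg_left (by omega) (by omega)
    have e3 : (L : ℤ) * (m - 1) = L * m - L := by ring
    have e4 : (c : ℤ) * (m - 1) = m * c - c := by ring
    rcases hg with hg | hg
    · rw [if_pos hg]
      constructor <;> intro _ <;> omega
    · constructor
      · intro _
        split_ifs <;> omega
      · intro _
        omega
  · subst h
    have e4 : (c : ℤ) * q = q * c := by ring
    rcases hg with hg | hg
    · rw [if_pos hg]
      constructor <;> intro _ <;> omega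
    · by_cases h5 : g % (L : ℤ) = 0
      · rw [if_pos h5]
        constructor <;> intro _ <;> omega
      · rw [if_neg h5]
        constructor <;> intro _ <;> omega
  · have e1 : (L : ℤ) * (m + 1) ≤ L * q := mul_le_mul_of_nonneg_left (by omega) (by omega)
    have e2 : (c : ℤ) * (m + 1) ≤ c * q := mul_le_mul_of_nonneg_left (by omega) (by omega)
    have e3 : (L : ℤ) * (m + 1) = L * m + L := by ring
    have e4 : (c : ℤ) * (m + 1) = m * c + c := by ring
    rcases hg with hg | hg
    · rw [if_pos hg]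
      constructor <;> intro _ <;> omega
    · constructor
      · intro _
        omega
      · intro h5
        split_ifs at h5 <;> omega

theorem block_out {b L : ℕ} {g : ℤ} (hg : outg b L g) (hb : b ≤ L) (m : ℤ) {r t : ℕ} (ht : t < b) :
    ¬ ((r : ℤ) + m * L < g ∧ g ≤ t + m * L) := by
  rintro ⟨h1, h2⟩
  obtain ⟨w, hw⟩ : ∃ w : ℕ, g = w + m * L := ⟨(g - m * L).toNat, by omega⟩
  have h3 := dm (L := L) (x := g) (q := m) (r := w) hw (by omega) (by omega)
  rcases hg with h | h
  · omega
  · omega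

/-- regions of the glued pattern -/
theorem reg_gP {b c L : ℕ} (hL : L = b + c) {sg : ℕ → ℕ} (h : BNC b sg) (τ : Pat c) {g g' : ℤ} (hg : outg b L g) (hg' : outg b L g') :
    Reg (gP b L hL sg h τ) g g' ↔ Reg τ (cgap b c L g) (cgap b c L g') := by
  have hc := τ.pos
  have key : ∀ γ : ℤ, outg b L γ → ∀ u : ℤ, (emb b c u < γ ∧ γ ≤ (gP b L hL sg h τ).f (emb b c u)) ↔
      (u < cgap b c L γ ∧ cgap b c L γ ≤ τ.f u) := by
    intro γ hγ u
    have h1 : (gP b L hL sg h τ).f (emb b c u) = emb b c (τ.f u) := gF_emb hc hL u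
    rw [h1, cgap_iff hc hL hγ u]
    have h2 := cgap_iff hc hL hγ (τ.f u)
    constructor
    · rintro ⟨h3, h4⟩
      exact ⟨h3, by by_contra h5; exact absurd (h2.2 (by omega)) (by omega)⟩
    · rintro ⟨h3, h4⟩
      exact ⟨h3, by by_contra h5; exact absurd (h2.1 (by omega)) (by omega)⟩
  constructor
  · intro H u
    rw [← key g hg u, ← key g' hg' u]
    exact H _
  · intro H x
    rcases gcases hc hL x with ⟨r, m, hr, rfl⟩ | ⟨u, rfl⟩
    · have h1 : (gP b L hL sg h τ).f (r + m * L) = sg r + m * L := gF_block m hr hL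
      have h2 := (h.1 r hr).1
      rw [h1]
      exact ⟨fun h3 => absurd h3 (block_out hg (by omega) m h2), fun h3 => absurd h3 (block_out hg' (by omega) m h2)⟩
    · rw [key g hg u, key g' hg' u]
      exact H u

end SCH
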