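import Pool.Agent.Lib.MP_216314_pr.Sc.PSBlk
import Pool.Agent.Lib.MP_216314_pr.Ca.CaC
import Pool.Agent.Lib.MP_216314_pr.K.KReg
import Pool.Agent.Lib.MP_216314_pr.Z.Conv

/-!
# State vectors of the glued states; the pairing with the boundary vector

`vecS M α`: vector on the sites `1, ..., 2 M + 1` of a pattern of period `2 M + 2`, the spin of the site `0` is down.
`ip_vecS`: the pairing with the boundary vector is `1` if the gaps `0` and `2 M + 2` are in one region, `s ^ 4` otherwise.
-/

set_option autoImplicit false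

noncomputable section

namespace SCH

open Finset QS CY CD

/-- state vector of a glued state -/
def vecS (M : ℕ) (α : Pat (2 * M + 2)) : Vc := fun D => s * PS 1 α (insert 0 D)

theorem ee_vecS {M i : ℕ} (h1 : 1 ≤ i) (h2 : i ≤ 2 * M) (α : Pat (2 * M + 2)) :
    ee i (vecS M α) = vecS M (Pat.e i α) := by
  have h3 := ee_PS (t := 1) (Or.inl rfl) (show i + 1 < 2 * M + 2 by omega) α
  funext D
  have h4 := congrFun h3 (insert 0 D)
  have m1 : i ∈ insert 0 D ↔ i ∈ D := by
    rw [mem_insert]
    exact ⟨fun h => h.resolve_left (by omega), Or.inr⟩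
  have m2 : i + 1 ∈ insert 0 D ↔ i + 1 ∈ D := by
    rw [mem_insert]
    exact ⟨fun h => h.resolve_left (by omega), Or.inr⟩
  unfold vecS
  rw [← h4]
  unfold ee
  rw [swD_insert (by omega) (by omega)]
  simp only [m1, m2]
  split_ifs <;> ring

/-- pattern after a word -/
def actP {L : ℕ} : List ℕ → Pat L → Pat L
  | [], α => α
  | i :: l, α => actP l (Pat.e i α)

theorem actP_append {L : ℕ} (l l' : List ℕ) (α : Pat L) : actP (l ++ l') α = actP l' (actP l α) := by
  induction l generalizing α with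
  | nil => rfl
  | cons i l ih => exact ih _

theorem opW_vecS {M : ℕ} (l : List ℕ) (hl : ∀ i ∈ l, 1 ≤ i ∧ i ≤ 2 * M) (α : Pat (2 * M + 2)) :
    opW l (vecS M α) = vecS M (actP l α) := by
  induction l generalizing α with
  | nil => rfl
  | cons i l ih =>
    have h := hl i List.mem_cons_self
    show opW l (ee i (vecS M α)) = vecS M (actP l (Pat.e i α))
    rw [ee_vecS h.1 h.2]
    exact ih (fun j hj => hl j (List.mem_cons_of_mem i hj)) _

theorem odd_small {M : ℕ} (α : Pat (2 * M + 2)) (m : ℕ) : m ≤ M → ∀ k < m,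
    (actP (oddL m) α).f (2 * (k : ℤ) + 1) = 2 * (k : ℤ) + 1 + 1 := by
  induction m with
  | zero =>
    intro _ k hk
    omega
  | succ m ih =>
    intro hm k hk
    rw [oddL_succ', actP_append]
    show (Pat.e ((2 * m + 1 : ℕ) : ℤ) (actP (oddL m) α)).f (2 * (k : ℤ) + 1) = _
    rcases Nat.lt_or_ge k m with h | h
    · refine Conv_keep _ _ _ (ih (by omega) k h) ?_ ?_ ?_
      · exact Conv_ndvd (by push_cast; omega) (by push_cast; omega) (by push_cast; omega)
      · exact Conv_ndvd (by push_cast; omega) (by push_cast; omega) (by push_cast; omega)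
      · exact Conv_ndvd (by push_cast; omega) (by push_cast; omega) (by push_cast; omega)
    · have e : k = m := by omega
      rw [e]
      have h1 := Pat.e_left (actP (oddL m) α) ((2 * m + 1 : ℕ) : ℤ)
      push_cast at h1
      push_cast
      exact h1

/-- the gaps of a region have the same parity -/
theorem regev {L : ℕ} {α : Pat L} {g g' : ℤ} (h : Reg α g g') (hg : g % 2 = 0) : g' % 2 = 0 := by
  have key : ∀ a b : ℤ, Reg α a b → a ≤ b → (b - a) % 2 = 0 := by
    intro a b h hab
    have h1 : Even (Set.Ico a b).ncard := by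
      refine even_card α (Set.finite_Ico a b) ?_
      intro y hy
      simp only [Set.mem_Ico] at hy ⊢
      constructor
      · by_contra h3
        have h4 := (h (α.f y)).1 ⟨by omega, by rw [α.inv]; omega⟩
        rw [α.inv] at h4
        omega
      · by_contra h3
        have h4 := (h y).2 ⟨by omega, by omega⟩
        omega
    rw [← Finset.coe_Ico, Set.ncard_coe_finset, Int.card_Ico] at h1
    obtain ⟨k, hk⟩ := h1
    omega
  rcases le_total g g' with h1 | h1
  · have := key g g' h h1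
    omega
  · have := key g' g (reg_symm α h) h1
    omega

/-- an odd letter does not change the regions of the even gaps -/
theorem reg_odd {M i : ℕ} {α : Pat (2 * M + 2)} (hi : i % 2 = 1) (h2 : i ≤ 2 * M) :
    Reg (Pat.e (i : ℤ) α) 0 ((2 * M + 2 : ℕ) : ℤ) ↔ Reg α 0 ((2 * M + 2 : ℕ) : ℤ) := by
  have c0 : NCut (2 * M + 2) i 0 := Conv_ndvd (by omega) (by push_cast; omega) (by push_cast; omega)
  have c1 : NCut (2 * M + 2) i ((2 * M + 2 : ℕ) : ℤ) :=
    Conv_ndvd (by push_cast; omega) (by push_cast; omega) (by push_cast; omega)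
  constructor
  · intro h
    rw [reg_e_iff c0 c1] at h
    have key : ∀ u v : ℤ, Relation.EqvGen (Mr α i) u v → (u % 2 = 0 ↔ v % 2 = 0) ∧ (u % 2 = 0 → Reg α u v) := by
      intro u v h
      induction h with
      | rel u v h =>
        rcases h with h | ⟨h3, h4⟩
        · exact ⟨⟨regev h, regev (reg_symm α h)⟩, fun _ => h⟩
        · obtain ⟨k, hk⟩ := h4
          have hu : u % 2 = 1 := by
            have e : u = i + 2 * (((M : ℤ) + 1) * k) := by
              have : u = i + ((2 * M + 2 : ℕ) : ℤ) * k := by linarith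
              rw [this]
              push_cast
              ring
            omega
          constructor
          · constructor <;> intro h5 <;> omega
          · intro h5
            omega
      | refl u => exact ⟨Iff.rfl, fun _ => reg_refl α u⟩
      | symm u v _ ih => exact ⟨ih.1.symm, fun h3 => reg_symm α (ih.2 (ih.1.2 h3))⟩
      | trans u v w _ _ ih1 ih2 =>
        exact ⟨ih1.1.trans ih2.1, fun h3 => reg_trans (ih1.2 h3) (ih2.2 (ih1.1.1 h3))⟩
    exact (key _ _ h).2 (by norm_num)
  · exact fun h => reg_e_mono c0 c1 h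

theorem reg_oddL {M : ℕ} (α : Pat (2 * M + 2)) (m : ℕ) (hm : m ≤ M) :
    Reg (actP (oddL m) α) 0 ((2 * M + 2 : ℕ) : ℤ) ↔ Reg α 0 ((2 * M + 2 : ℕ) : ℤ) := by
  induction m with
  | zero => exact Iff.rfl
  | succ m ih =>
    rw [oddL_succ', actP_append, ← ih (by omega)]
    exact reg_odd (by omega) (by omega)

theorem prod_range_split (M : ℕ) (f : ℕ → ℂ) : ∏ x ∈ range (2 * M + 2), f x =
    (∏ x ∈ Icc 1 (2 * M), f x) * (f 0 * f (2 * M + 1)) := by
  rw [prod_range_succ, prod_range_succ' f (2 * M)]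
  have h : ∏ x ∈ Icc 1 (2 * M), f x = ∏ k ∈ range (2 * M), f (k + 1) := by
    rw [← prod_image (g := fun k => k + 1) (s := range (2 * M)) (f := f) (fun x _ y _ h => by
      have h' : x + 1 = y + 1 := h
      omega)]
    refine prod_congr ?_ fun _ _ => rfl
    ext x
    rw [mem_Icc, mem_image]
    constructor
    · intro h
      exact ⟨x - 1, mem_range.2 (by omega), by omega⟩
    · rintro ⟨k, hk, rfl⟩
      rw [mem_range] at hk
      omega
  rw [h]
  ring

open Classical in
/-- **the pairing with the boundary vector** -/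
theorem ip_vecS {M : ℕ} (α : Pat (2 * M + 2)) :
    ip M (v0 M) (vecS M α) = if Reg α 0 ((2 * M + 2 : ℕ) : ℤ) then 1 else s ^ 4 := by
  obtain ⟨D, hD, hne⟩ := v0_ne M
  have h1 := proj0 M (vecS M α) hD
  have hs := s_ne
  have hr := r_ne
  have hsub : ∀ x ∈ D, 1 ≤ x ∧ x ≤ 2 * M + 1 := fun x hx => mem_Icc.1 ((mem_powersetCard.1 hD).1 hx)
  have hop : opW (oddL M) (vecS M α) = vecS M (actP (oddL M) α) := by
    refine opW_vecS (oddL M) (fun i hi => ?_) α
    unfold oddL at hi
    rw [List.mem_map] at hi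
    obtain ⟨k, hk, rfl⟩ := hi
    rw [List.mem_range] at hk
    omega
  have hreg := reg_oddL α M le_rfl
  have hsm := odd_small α M le_rfl
  obtain ⟨β, hβ⟩ : ∃ β, actP (oddL M) α = β := ⟨_, rfl⟩
  rw [hβ] at hreg hsm hop
  have m0 : (0 : ℕ) ∈ insert 0 D := mem_insert_self _ _
  have mx : ∀ x : ℕ, x ≠ 0 → (x ∈ insert 0 D ↔ x ∈ D) := by
    intro x hx
    rw [mem_insert]
    exact ⟨fun h => h.resolve_left hx, Or.inr⟩
  -- the small arcs
  have blk : ∏ x ∈ Icc 1 (2 * M), gl 1 β (insert 0 D) x = ∏ x ∈ Icc 1 (2 * M), gx sg0 D x := by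
    have hsg : ∀ x ∈ Icc 1 (2 * M), sg0 x ∈ Icc 1 (2 * M) ∧ sg0 (sg0 x) = x ∧ sg0 x ≠ x ∧ β.f (x : ℤ) = sg0 x := by
      intro x hx
      rw [mem_Icc] at hx
      rcases Nat.even_or_odd' x with ⟨k, hk | hk⟩
      · have e : sg0 x = x - 1 := by unfold sg0; rw [if_neg (by omega)]
        have e' : sg0 (x - 1) = x := by unfold sg0; rw [if_pos (by omega)]; omega
        rw [e, e', mem_Icc]
        refine ⟨by omega, rfl, by omega, ?_⟩
        have h2 := hsm (k - 1) (by omega)
        have h3 := congrArg β.f h2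
        rw [β.inv] at h3
        have e1 : 2 * ((k - 1 : ℕ) : ℤ) + 1 + 1 = (x : ℤ) := by omega
        rw [e1] at h3
        rw [← h3]
        omega
      · have e : sg0 x = x + 1 := by unfold sg0; rw [if_pos (by omega)]
        have e' : sg0 (x + 1) = x := by unfold sg0; rw [if_neg (by omega)]; omega
        rw [e, e', mem_Icc]
        refine ⟨by omega, rfl, by omega, ?_⟩
        have h2 := hsm k (by omega)
        have e1 : 2 * (k : ℤ) + 1 = (x : ℤ) := by omega
        rw [e1] at h2
        rw [h2]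
        push_cast
        rfl
    rw [gl_block (σ := sg0) (fun x hx => by rw [mem_Icc] at hx; omega) (fun x hx => (hsg x hx).1) (fun x hx => (hsg x hx).2.1)
      (fun x hx => (hsg x hx).2.2.1) (fun x hx => (hsg x hx).2.2.2)]
    refine prod_congr rfl fun x hx => ?_
    have h2 := (hsg x hx).1
    rw [mem_Icc] at hx h2
    exact gx_congr (mx x (by omega)) (mx _ (by omega)) Iff.rfl
  -- the partner of the end
  have hz : β.f 0 = ((2 * M + 1 : ℕ) : ℤ) ∨ β.f 0 = -1 := by
    have hlt := abs_lt.1 (β.lt_per 0)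
    rw [sub_zero] at hlt
    have hno : ∀ k < M, ∀ m : ℤ, β.f 0 ≠ 2 * (k : ℤ) + 1 + m * (2 * M + 2 : ℕ) ∧
        β.f 0 ≠ 2 * (k : ℤ) + 1 + 1 + m * (2 * M + 2 : ℕ) := by
      intro k hk m
      have h2 := hsm k hk
      constructor
      · intro h3
        have h4 := congrArg β.f h3
        rw [β.inv, β.per_mul, h2] at h4
        have : ((2 * M + 2 : ℕ) : ℤ) ∣ 2 * (k : ℤ) + 1 + 1 := ⟨-m, by linarith⟩
        have h5 := Int.eq_zero_of_abs_lt_dvd this (by rw [abs_lt]; push_cast; omega)
        omega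
      · intro h3
        have h6 : β.f (2 * (k : ℤ) + 1 + 1) = 2 * k + 1 := by rw [← h2, β.inv]
        have h4 := congrArg β.f h3
        rw [β.inv, β.per_mul, h6] at h4
        have : ((2 * M + 2 : ℕ) : ℤ) ∣ 2 * (k : ℤ) + 1 := ⟨-m, by linarith⟩
        have h5 := Int.eq_zero_of_abs_lt_dvd this (by rw [abs_lt]; push_cast; omega)
        omega
    have hne0 := β.ne 0
    obtain ⟨z, hz⟩ : ∃ z, β.f 0 = z := ⟨_, rfl⟩
    rw [hz] at hlt hno hne0 ⊢
    push_cast at hlt ⊢
    by_contra hcon
    push Not at hcon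
    rcases lt_or_gt_of_ne hne0 with h | h
    · obtain ⟨y, hy⟩ : ∃ y : ℕ, (y : ℤ) = z + (2 * M + 2) := ⟨(z + (2 * M + 2)).toNat, by omega⟩
      rcases Nat.even_or_odd' y with ⟨k, hk | hk⟩
      · refine (hno (k - 1) (by omega) (-1)).2 ?_
        push_cast
        omega
      · refine (hno k (by omega) (-1)).1 ?_
        push_cast
        omega
    · obtain ⟨y, hy⟩ : ∃ y : ℕ, (y : ℤ) = z := ⟨z.toNat, by omega⟩
      rcases Nat.even_or_odd' y with ⟨k, hk | hk⟩
      · refine (hno (k - 1) (by omega) 0).2 ?_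
        push_cast
        omega
      · refine (hno k (by omega) 0).1 ?_
        push_cast
        omega
  have hval : vecS M β D = (if Reg α 0 ((2 * M + 2 : ℕ) : ℤ) then 1 else s ^ 4) * v0 M D := by
    rw [v0_prod M hD]
    unfold vecS PS
    rw [prod_range_split, blk]
    have hP : (0 : ℤ) < ((2 * M + 2 : ℕ) : ℤ) := by push_cast; omega
    rcases hz with hz | hz
    · -- direct
      have hr0 : Reg β 0 ((2 * M + 2 : ℕ) : ℤ) := by
        have h2 := reg_outside β 0 (by rw [hz]; push_cast; omega)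
        rw [hz] at h2
        have e : ((2 * M + 1 : ℕ) : ℤ) + 1 = ((2 * M + 2 : ℕ) : ℤ) := by push_cast; ring
        rwa [e] at h2
      rw [if_pos (hreg.1 hr0)]
      have hz' : β.f ((2 * M + 1 : ℕ) : ℤ) = 0 := by rw [← hz, β.inv]
      have q1 : pr (2 * M + 2) (β.f ((0 : ℕ) : ℤ)) = 2 * M + 1 := by
        rw [Nat.cast_zero, hz]
        exact pr_self (by omega)
      have q2 : pr (2 * M + 2) (β.f ((2 * M + 1 : ℕ) : ℤ)) = 0 := by
        rw [hz']
        exact pr_self (L := 2 * M + 2) (x := 0) (by omega)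
      have x1 : ex (2 * M + 2) 1 0 ((2 * M + 1 : ℕ) : ℤ) = 1 := by
        unfold ex
        rw [Int.ediv_eq_zero_of_lt (by omega) (by push_cast; omega : ((2 * M + 1 : ℕ) : ℤ) < _), Int.zero_ediv,
          Int.sign_eq_one_of_pos (by push_cast; omega)]
        ring
      by_cases h6 : 2 * M + 1 ∈ D
      · rw [if_pos h6, gl_neg (x := 0) (by
          rw [q1]
          intro h7
          exact (h7.1 ((mx _ (by omega)).2 h6)) m0)]
        ring
      · rw [if_neg h6, gl_pos (x := 0) (by
          rw [q1]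
          exact ⟨fun h7 => absurd ((mx _ (by omega)).1 h7) h6, fun h7 => absurd m0 h7⟩), gl_pos (x := 2 * M + 1) (by
          rw [q2]
          exact ⟨fun _ h7 => h6 ((mx _ (by omega)).1 h7), fun _ => m0⟩), ep_in m0, ep_out (fun h7 => h6 ((mx _ (by omega)).1 h7)),
          Nat.cast_zero, hz, hz', ex_anti _ _ 0 ((2 * M + 1 : ℕ) : ℤ), x1]
        have e : r ^ (-1 * 1 : ℤ) * r ^ (1 * -1 : ℤ) = s⁻¹ := by
          rw [← zpow_add₀ hr, ← zpow_neg_one s, ← r_two]
          norm_num
        rw [e]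
        field_simp
    · have hz' : β.f (-1) = 0 := by rw [← hz, β.inv]
      have hr0 : ¬ Reg β 0 ((2 * M + 2 : ℕ) : ℤ) := by
        intro h2
        have h3 := reg_small (a := -1) (by rw [hz']; norm_num) (by
          have e : (-1 : ℤ) + 1 = 0 := by norm_num
          rw [e]
          exact h2)
        omega
      rw [if_neg (fun h7 => hr0 (hreg.2 h7))]
      have hz2 : β.f ((2 * M + 1 : ℕ) : ℤ) = ((2 * M + 2 : ℕ) : ℤ) := by
        have h2 := β.per (-1)
        rw [hz'] at h2
        have e : (-1 : ℤ) + ((2 * M + 2 : ℕ) : ℤ) = ((2 * M + 1 : ℕ) : ℤ) := by push_cast; ring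
        rw [e] at h2
        rw [h2]
        ring
      have q1 : pr (2 * M + 2) (β.f ((0 : ℕ) : ℤ)) = 2 * M + 1 := by
        rw [Nat.cast_zero, hz]
        exact pr_of (k := -1) (by omega) (by push_cast; ring)
      have q2 : pr (2 * M + 2) (β.f ((2 * M + 1 : ℕ) : ℤ)) = 0 := by
        rw [hz2]
        exact pr_of (k := 1) (by omega) (by push_cast; ring)
      have x1 : ex (2 * M + 2) 1 0 (-1) = -3 := by
        unfold ex
        have e : (-1 : ℤ) / ((2 * M + 2 : ℕ) : ℤ) = -1 := div_of (x := 2 * M + 1) (by omega) (by push_cast; ring)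
        rw [e, Int.zero_ediv]
        norm_num
      have x2 : ex (2 * M + 2) 1 ((2 * M + 1 : ℕ) : ℤ) ((2 * M + 2 : ℕ) : ℤ) = 3 := by
        have h2 := ex_shift (L := 2 * M + 2) (by omega) 1 (-1) 0 1
        have e1 : (-1 : ℤ) + 1 * ((2 * M + 2 : ℕ) : ℤ) = ((2 * M + 1 : ℕ) : ℤ) := by push_cast; ring
        have e2 : (0 : ℤ) + 1 * ((2 * M + 2 : ℕ) : ℤ) = ((2 * M + 2 : ℕ) : ℤ) := by ring
        rw [e1, e2] at h2
        rw [h2, ex_anti, x1]
        norm_num
      by_cases h6 : 2 * M + 1 ∈ D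
      · rw [if_pos h6, gl_neg (x := 0) (by
          rw [q1]
          intro h7
          exact (h7.1 ((mx _ (by omega)).2 h6)) m0)]
        ring
      · rw [if_neg h6, gl_pos (x := 0) (by
          rw [q1]
          exact ⟨fun h7 => absurd ((mx _ (by omega)).1 h7) h6, fun h7 => absurd m0 h7⟩), gl_pos (x := 2 * M + 1) (by
          rw [q2]
          exact ⟨fun _ h7 => h6 ((mx _ (by omega)).1 h7), fun _ => m0⟩), ep_in m0, ep_out (fun h7 => h6 ((mx _ (by omega)).1 h7)),
          Nat.cast_zero, hz, hz2, x1, x2]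
        have e : r ^ (-1 * -3 : ℤ) * r ^ (1 * 3 : ℤ) = s ^ (3 : ℤ) := by
          rw [← zpow_add₀ hr, ← r_two]
          norm_num
        rw [e]
        have e3 : s ^ (3 : ℤ) = s ^ 3 := by norm_cast
        rw [e3]
        ring
  rw [hop, hval] at h1
  exact (mul_right_cancel₀ hne h1).symm

end SCH
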