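import Pool.Agent.Lib.MP_216314_pr.Sc.PSRot
import Pool.Agent.Lib.MP_216314_pr.Z.PatI
import Pool.Agent.Lib.MP_216314_pr.X.SpinD

/-!
# Insertion of a small arc in the spin vectors of periodic patterns
-/

set_option autoImplicit false

noncomputable section

namespace SCH

open Finset QS CY

theorem cup_small {L i k : ℕ} (hi : i ≤ L) (hk : k < L) : CY.up L (i : ℤ) (k : ℤ) = (PX.up i k : ℕ) := by
  unfold CY.up PX.up
  rcases Nat.lt_or_ge k i with h | h
  · have h1 : ((k : ℤ) - i) / (L : ℤ) = -1 := by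
      have e : (k : ℤ) = ((k + L - i : ℕ) : ℤ) + (-1) * L + i := by omega
      have h2 : ((k : ℤ) - i) = ((k + L - i : ℕ) : ℤ) + (-1) * L := by linarith
      exact div_of (by omega) h2
    rw [h1, if_pos h]
    ring
  · have h1 : ((k : ℤ) - i) / (L : ℤ) = 0 := by
      have h2 : ((k : ℤ) - i) = ((k - i : ℕ) : ℤ) + 0 * L := by omega
      exact div_of (by omega) h2
    rw [h1, if_neg (by omega)]
    push_cast
    ring

theorem cup_mul {L : ℕ} (hL : 0 < L) (i x k : ℤ) : CY.up L i (x + k * L) = CY.up L i x + k * (L + 2 : ℕ) := by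
  have hL' : (L : ℤ) ≠ 0 := by omega
  unfold CY.up
  have e : x + k * L - i = x - i + k * L := by ring
  rw [e, Int.add_mul_ediv_right _ _ hL']
  push_cast
  ring

theorem cup_eq {L i : ℕ} (hL : 0 < L) (hi : i ≤ L) (z : ℤ) :
    CY.up L (i : ℤ) z = (PX.up i (pr L z) : ℕ) + z / L * (L + 2 : ℕ) := by
  have h1 := pr_eq hL z
  conv_lhs => rw [h1]
  rw [cup_mul hL, cup_small hi (pr_lt hL z)]

theorem pup_lt {L i k : ℕ} (hk : k < L) : PX.up i k < L + 2 := by
  unfold PX.up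
  split_ifs <;> omega

theorem pup_ne {i k : ℕ} : PX.up i k ≠ i ∧ PX.up i k ≠ i + 1 := by
  unfold PX.up
  split_ifs <;> omega

theorem pr_cup {L i : ℕ} (hL : 0 < L) (hi : i ≤ L) (z : ℤ) : pr (L + 2) (CY.up L (i : ℤ) z) = PX.up i (pr L z) :=
  pr_of (pup_lt (pr_lt hL z)) (cup_eq hL hi z)

theorem div_cup {L i : ℕ} (hL : 0 < L) (hi : i ≤ L) (z : ℤ) : CY.up L (i : ℤ) z / ((L + 2 : ℕ) : ℤ) = z / L :=
  div_of (pup_lt (pr_lt hL z)) (cup_eq hL hi z)

theorem ex_cup {L i : ℕ} (hL : 0 < L) (hi : i ≤ L) (t x y : ℤ) :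
    ex (L + 2) t (CY.up L (i : ℤ) x) (CY.up L (i : ℤ) y) = ex L t x y := by
  unfold ex
  rw [div_cup hL hi, div_cup hL hi]
  congr 1
  have m := up_strictMono hL (i : ℤ)
  rcases lt_trichotomy x y with h | h | h
  · rw [Int.sign_eq_one_of_pos (by linarith [m h]), Int.sign_eq_one_of_pos (by linarith)]
  · rw [h, sub_self, sub_self]
  · rw [Int.sign_eq_neg_one_of_neg (by linarith [m h]), Int.sign_eq_neg_one_of_neg (by linarith)]

theorem prod_up {L i : ℕ} (hi : i ≤ L) (F : ℕ → ℂ) :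
    ∏ x ∈ range (L + 2), F x = F i * F (i + 1) * ∏ k ∈ range L, F (PX.up i k) := by
  have h1 : range (L + 2) = insert i (insert (i + 1) ((range L).map ⟨PX.up i, PX.up_inj i⟩)) := by
    ext x
    simp only [mem_range, mem_insert, mem_map, Function.Embedding.coeFn_mk]
    constructor
    · intro hx
      by_cases c1 : x = i
      · exact Or.inl c1
      · by_cases c2 : x = i + 1
        · exact Or.inr (Or.inl c2)
        · right
          right
          rcases Nat.lt_or_ge x i with h | h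
          · exact ⟨x, by omega, by unfold PX.up; rw [if_pos h]⟩
          · exact ⟨x - 2, by omega, by unfold PX.up; rw [if_neg (by omega)]; omega⟩
    · rintro (h | h | ⟨k, hk, rfl⟩)
      · omega
      · omega
      · exact pup_lt hk
  rw [h1, prod_insert, prod_insert, prod_map]
  · simp only [Function.Embedding.coeFn_mk]
    ring
  · simp only [mem_map, Function.Embedding.coeFn_mk, not_exists, not_and]
    intro k _
    exact pup_ne.2
  · simp only [mem_insert, mem_map, Function.Embedding.coeFn_mk, not_or, not_exists, not_and]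
    refine ⟨by omega, fun k _ => pup_ne.1⟩

theorem gl_up {t : ℤ} {L i : ℕ} (hi : i ≤ L) (α : Pat L) (D : Finset ℕ) {k : ℕ} (hk : k < L) :
    gl t (Pat.ins (i : ℤ) α) D (PX.up i k) = gl t α (PX.rm i D) k := by
  have hL := α.pos
  have h1 : (Pat.ins (i : ℤ) α).f ((PX.up i k : ℕ) : ℤ) = CY.up L (i : ℤ) (α.f k) := by
    rw [← cup_small hi hk, Pat.ins_up]
  unfold gl ep
  rw [h1, pr_cup hL hi]
  have h2 : ex (L + 2) t ((PX.up i k : ℕ) : ℤ) (CY.up L (i : ℤ) (α.f k)) = ex L t (k : ℤ) (α.f k) := by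
    rw [← cup_small hi hk, ex_cup hL hi]
  rw [h2]
  simp only [PX.mem_rm]

/-- **insertion of a small arc** -/
theorem PS_ins {t : ℤ} {L i : ℕ} (hi : i ≤ L) (α : Pat L) (D : Finset ℕ) :
    PS t (Pat.ins (i : ℤ) α) D =
      (if i ∈ D then (if i + 1 ∈ D then 0 else s⁻¹) else (if i + 1 ∈ D then s else 0)) * PS t α (PX.rm i D) := by
  have hr := r_ne
  have hL := α.pos
  unfold PS
  rw [prod_up hi, prod_congr rfl fun k hk => gl_up hi α D (mem_range.1 hk)]
  congr 1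
  have hi1 : i < L + 2 := by omega
  have hi2 : i + 1 < L + 2 := by omega
  have f1 : (Pat.ins (i : ℤ) α).f (i : ℤ) = ((i + 1 : ℕ) : ℤ) := by
    rw [Pat.ins_left]
    push_cast
    rfl
  have f2 : (Pat.ins (i : ℤ) α).f ((i + 1 : ℕ) : ℤ) = (i : ℤ) := by
    push_cast
    exact Pat.ins_right α (i : ℤ)
  have d1 : ((i + 1 : ℕ) : ℤ) / ((L + 2 : ℕ) : ℤ) = 0 := div_of (k := 0) hi2 (by ring)
  have d2 : ((i : ℕ) : ℤ) / ((L + 2 : ℕ) : ℤ) = 0 := div_of (k := 0) hi1 (by ring)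
  have e1 : ex (L + 2) t (i : ℤ) ((i + 1 : ℕ) : ℤ) = 1 := by
    unfold ex
    rw [d1, d2, Int.sign_eq_one_of_pos (by push_cast; linarith)]
    ring
  have e2 : ex (L + 2) t ((i + 1 : ℕ) : ℤ) (i : ℤ) = -1 := by
    rw [ex_anti, e1]
  have g1 : gl t (Pat.ins (i : ℤ) α) D i = if (i + 1 ∈ D ↔ i ∉ D) then r ^ (ep D i * 1) else 0 := by
    unfold gl
    rw [f1, pr_of (k := 0) hi2 (by ring), e1]
  have g2 : gl t (Pat.ins (i : ℤ) α) D (i + 1) = if (i ∈ D ↔ i + 1 ∉ D) then r ^ (ep D (i + 1) * (-1)) else 0 := by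
    unfold gl
    rw [f2, pr_of (k := 0) hi1 (by ring), e2]
  rw [g1, g2]
  have k1 : r ^ ((-1 : ℤ) * 1) * r ^ ((1 : ℤ) * (-1)) = s⁻¹ := by
    rw [← zpow_add₀ hr, ← r_sq]
    norm_num
  have k2 : r ^ ((1 : ℤ) * 1) * r ^ ((-1 : ℤ) * (-1)) = s := by
    rw [← zpow_add₀ hr, ← r_sq]
    norm_num
  by_cases c1 : i ∈ D
  · by_cases c2 : i + 1 ∈ D
    · rw [if_neg (by tauto), if_pos c1, if_pos c2, zero_mul]
    · rw [if_pos (by tauto), if_pos (by tauto), if_pos c1, if_neg c2, ep_in c1, ep_out c2, k1]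
  · by_cases c2 : i + 1 ∈ D
    · rw [if_pos (by tauto), if_pos (by tauto), if_neg c1, if_pos c2, ep_out c1, ep_in c2, k2]
    · rw [if_neg (by tauto), if_neg c1, if_neg c2, zero_mul]

end SCH
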