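import Pool.Agent.Lib.MP_216314_pr.Sc.PSpinB

/-!
# Rotation of the spin vectors of periodic patterns
-/

set_option autoImplicit false

noncomputable section

namespace SCH

open Finset QS CY

/-- opposite spins at the ends of every arc -/
def Cd {L : ℕ} (α : Pat L) (D : Finset ℕ) : Prop := ∀ x : ℕ, x < L → (pr L (α.f x) ∈ D ↔ x ∉ D)

theorem PS_pos {t : ℤ} {L : ℕ} {α : Pat L} {D : Finset ℕ} (h : Cd α D) :
    PS t α D = r ^ (∑ x ∈ range L, ep D x * ex L t x (α.f x)) := by
  have hr := r_ne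
  unfold PS
  have h1 : ∀ S : Finset ℕ, (∀ x ∈ S, x < L) → ∏ x ∈ S, gl t α D x = r ^ (∑ x ∈ S, ep D x * ex L t x (α.f x)) := by
    intro S
    induction S using Finset.induction_on with
    | empty => intro _; simp
    | insert x S hx ih =>
      intro hS
      rw [prod_insert hx, sum_insert hx, ih (fun y hy => hS y (mem_insert_of_mem hy)), zpow_add₀ hr,
        gl_pos (h x (hS x (mem_insert_self x S)))]
  exact h1 _ fun x hx => mem_range.1 hx

theorem PS_neg {t : ℤ} {L : ℕ} {α : Pat L} {D : Finset ℕ} (h : ¬ Cd α D) : PS t α D = 0 := by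
  unfold Cd at h
  push Not at h
  obtain ⟨x, hx, h1⟩ := h
  refine prod_eq_zero (mem_range.2 hx) (gl_neg ?_)
  intro h2
  rcases h1 with h3 | h3 <;> tauto

theorem pr_self {L x : ℕ} (hx : x < L) : pr L (x : ℤ) = x := pr_of (k := 0) hx (by ring)

theorem pr_add {L : ℕ} (x k : ℤ) : pr L (x + k * L) = pr L x := by
  unfold pr
  rw [Int.add_mul_emod_self_right]

/-- the partner in the fundamental domain -/
theorem pr_pr {L : ℕ} (α : Pat L) {x : ℕ} (hx : x < L) : pr L (α.f (pr L (α.f x))) = x := by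
  have h1 := pr_eq α.pos (α.f x)
  have h2 : ((pr L (α.f x) : ℕ) : ℤ) = α.f x + (-(α.f x / L)) * L := by linarith
  rw [h2, α.per_mul, α.inv, pr_add, pr_self hx]

theorem pr_ne {L : ℕ} (α : Pat L) {x : ℕ} (hx : x < L) : pr L (α.f x) ≠ x := by
  intro h
  refine α.not_dvd_self x ?_
  rw [dvd_pr hx, h]

/-- `pr (x + 1)` depends only on `pr x` -/
theorem pr_succ {L : ℕ} (hL : 0 < L) (x : ℤ) : pr L (x + 1) = pr L ((pr L x : ℕ) + 1 : ℤ) := by
  have h1 := pr_eq hL x
  have h2 : x + 1 = ((pr L x : ℕ) : ℤ) + 1 + x / L * L := by linarith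
  rw [h2, pr_add]

/-- the increment of the number of the period -/
theorem div_succ {L : ℕ} (hL : 0 < L) (x : ℤ) : (x + 1) / (L : ℤ) - x / L = if pr L x = L - 1 then 1 else 0 := by
  have h1 := pr_eq hL x
  have h2 := pr_lt hL x
  split_ifs with h
  · have h3 : x + 1 = ((0 : ℕ) : ℤ) + (x / L + 1) * L := by
      rw [h] at h1
      have h4 : ((L - 1 : ℕ) : ℤ) = (L : ℤ) - 1 := by omega
      rw [h4] at h1
      push_cast
      linarith
    rw [div_of hL h3]
    ring
  · have h3 : x + 1 = ((pr L x + 1 : ℕ) : ℤ) + (x / L) * L := by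
      push_cast
      linarith
    rw [div_of (by omega) h3]
    ring

theorem ex_succ {L : ℕ} (hL : 0 < L) (t x y : ℤ) : ex L t (x + 1) (y + 1) =
    ex L t x y + 2 * t * ((if pr L y = L - 1 then 1 else 0) - (if pr L x = L - 1 then 1 else 0)) := by
  have h1 := div_succ hL x
  have h2 := div_succ hL y
  unfold ex
  rw [← h1, ← h2]
  have e : y + 1 - (x + 1) = y - x := by ring
  rw [e]
  ring

/-- **rotation** -/
theorem PS_rotInv {t : ℤ} {L : ℕ} (α : Pat L) {D E : Finset ℕ} (h : ∀ y : ℕ, y < L → (y ∈ E ↔ pr L ((y : ℤ) + 1) ∈ D)) :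
    PS t (Pat.rotInv α) D = r ^ (-4 * t * ep D 0) * PS t α E := by
  have hr := r_ne
  have hL := α.pos
  have h2 := α.two_le
  -- the map on the sites
  have hm : ∀ y : ℕ, y < L → ∃ m : ℤ, ((pr L ((y : ℤ) + 1) : ℕ) : ℤ) = (y : ℤ) + 1 + m * L := by
    intro y _
    refine ⟨-(((y : ℤ) + 1) / L), ?_⟩
    have := pr_eq hL ((y : ℤ) + 1)
    linarith
  have hf : ∀ y : ℕ, y < L → ∃ m : ℤ, ((pr L ((y : ℤ) + 1) : ℕ) : ℤ) = (y : ℤ) + 1 + m * L ∧
      (Pat.rotInv α).f (pr L ((y : ℤ) + 1) : ℕ) = α.f y + 1 + m * L := by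
    intro y hy
    obtain ⟨m, h3⟩ := hm y hy
    refine ⟨m, h3, ?_⟩
    show α.f (((pr L ((y : ℤ) + 1) : ℕ) : ℤ) - 1) + 1 = _
    have h4 : ((pr L ((y : ℤ) + 1) : ℕ) : ℤ) - 1 = y + m * L := by rw [h3]; ring
    rw [h4, α.per_mul]
    ring
  have hE : ∀ z : ℤ, pr L z ∈ E ↔ pr L (z + 1) ∈ D := by
    intro z
    rw [h _ (pr_lt hL z), ← pr_succ hL z]
  have hep : ∀ y : ℕ, y < L → ep D (pr L ((y : ℤ) + 1)) = ep E y := by
    intro y hy
    unfold ep
    simp only [h y hy]
  have hbij : ∀ F : ℕ → ℤ, ∑ x ∈ range L, F x = ∑ y ∈ range L, F (pr L ((y : ℤ) + 1)) := by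
    intro F
    symm
    refine sum_bij (fun y _ => pr L ((y : ℤ) + 1)) (fun y _ => mem_range.2 (pr_lt hL _)) ?_ ?_ (fun _ _ => rfl)
    · intro y hy y' hy' hyy
      rw [mem_range] at hy hy'
      obtain ⟨m, h3⟩ := hm y hy
      obtain ⟨m', h3'⟩ := hm y' hy'
      have h5 : (y : ℤ) = y' + (m' - m) * L := by
        have h6 : ((pr L ((y : ℤ) + 1) : ℕ) : ℤ) = (pr L ((y' : ℤ) + 1) : ℕ) := by rw [hyy]
        linarith
      have h7 := pr_of hy' h5
      rw [pr_self hy] at h7
      exact h7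
    · intro x hx
      rw [mem_range] at hx
      refine ⟨pr L ((x : ℤ) - 1), mem_range.2 (pr_lt hL _), ?_⟩
      rw [← pr_succ hL]
      have e : (x : ℤ) - 1 + 1 = x := by ring
      rw [e, pr_self hx]
  have hC : Cd (Pat.rotInv α) D ↔ Cd α E := by
    constructor
    · intro h3 y hy
      obtain ⟨m, _, h5⟩ := hf y hy
      have h6 := h3 _ (pr_lt hL ((y : ℤ) + 1))
      rw [h5, pr_add, ← hE, ← h y hy] at h6
      exact h6
    · intro h3 x hx
      have e : (x : ℤ) - 1 + 1 = x := by ring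
      have hx' : pr L (((pr L ((x : ℤ) - 1) : ℕ) : ℤ) + 1) = x := by
        rw [← pr_succ hL, e, pr_self hx]
      obtain ⟨m, _, h5⟩ := hf _ (pr_lt hL ((x : ℤ) - 1))
      have h6 := h3 _ (pr_lt hL ((x : ℤ) - 1))
      rw [hx'] at h5
      have h7 := h _ (pr_lt hL ((x : ℤ) - 1))
      rw [hx'] at h7
      rw [h5, pr_add, ← hE, ← h7]
      exact h6
  by_cases hc : Cd α E
  · rw [PS_pos hc, PS_pos (hC.2 hc), ← zpow_add₀ hr]
    congr 1
    rw [hbij]
    -- the partner of the last site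
    obtain ⟨b, hb⟩ : ∃ b, pr L (α.f ((L - 1 : ℕ) : ℤ)) = b := ⟨_, rfl⟩
    have hbL : b < L := by rw [← hb]; exact pr_lt hL _
    have hbp : pr L (α.f (b : ℤ)) = L - 1 := by
      rw [← hb]
      exact pr_pr α (by omega)
    have hbn : b ≠ L - 1 := by
      rw [← hb]
      exact pr_ne α (by omega)
    have e1 : ∀ y ∈ range L, ep D (pr L ((y : ℤ) + 1)) * ex L t (pr L ((y : ℤ) + 1) : ℕ) ((Pat.rotInv α).f (pr L ((y : ℤ) + 1) : ℕ)) =
        ep E y * ex L t y (α.f y) + 2 * t * ((if y = b then ep E b else 0) - (if y = L - 1 then ep E (L - 1) else 0)) := by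
      intro y hy
      rw [mem_range] at hy
      obtain ⟨m, h3, h5⟩ := hf y hy
      rw [hep y hy, h5, h3, ex_shift hL, ex_succ hL, pr_self hy]
      have h8 : pr L (α.f (y : ℤ)) = L - 1 ↔ y = b := by
        constructor
        · intro h9
          have h10 := pr_pr α hy
          rw [h9, hb] at h10
          exact h10.symm
        · intro h9
          rw [h9]
          exact hbp
      simp only [h8]
      by_cases c1 : y = b
      · rw [if_pos c1, if_pos c1, if_neg (by omega), if_neg (by omega), c1]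
        ring
      · rw [if_neg c1, if_neg c1]
        by_cases c2 : y = L - 1
        · rw [if_pos c2, if_pos c2, c2]
          ring
        · rw [if_neg c2, if_neg c2]
          ring
    rw [sum_congr rfl e1, sum_add_distrib, ← mul_sum, sum_sub_distrib, sum_ite_eq' (range L) b, sum_ite_eq' (range L) (L - 1),
      if_pos (mem_range.2 hbL), if_pos (mem_range.2 (by omega : L - 1 < L))]
    have h11 : ep E b = - ep E (L - 1) := by
      have h12 := hc (L - 1) (by omega)
      rw [hb] at h12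
      unfold ep
      by_cases c : L - 1 ∈ E
      · rw [if_pos c, if_neg (fun h => h12.1 h c)]
        ring
      · rw [if_neg c, if_pos (h12.2 c)]
    have h13 : ep D 0 = ep E (L - 1) := by
      rw [← hep (L - 1) (by omega)]
      congr 1
      symm
      refine pr_of (k := 1) hL ?_
      have h14 : ((L - 1 : ℕ) : ℤ) = (L : ℤ) - 1 := by omega
      rw [h14]
      push_cast
      ring
    rw [h11, h13]
    ring
  · rw [PS_neg hc, PS_neg (fun h3 => hc (hC.1 h3)), mul_zero]

end SCH
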