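import Pool.Agent.Lib.MP_216314_pr.Z.RelA
import Pool.Agent.Lib.MP_216314_pr.Z.PatR
import Pool.Agent.Lib.MP_216314_pr.S.SBas

/-!
# Spin vectors of periodic patterns with a twist

`PS t α`: spin vector of the pattern `α` of period `L`, sites `0, ..., L - 1`. An arc from `x` to `y > x`, `0 ≤ x < L`, has the weight
`(s * s ^ (2 t k)) ^ (± 1)`, `k = ⌊y / L⌋` the number of crossings of the seam, sign `+` if the spin at `x` is up. Winding loops have the
weight `s ^ (2 t) + s ^ (- 2 t)`, which is `1` for `t = 1` and `t = -1`. In the definition each of the two ends of an arc has one half of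
the weight (`r ^ 2 = s`).
`ee_PS`: the letters which do not cross the seam.
-/

set_option autoImplicit false

noncomputable section

namespace SCH

open Finset QS CY

/-- square root of `s` -/
def r : ℂ := s ^ (((2 : ℕ) : ℂ)⁻¹)

theorem r_sq : r ^ 2 = s := Complex.cpow_nat_inv_pow s two_ne_zero

theorem r_ne : r ≠ 0 := by
  intro h
  have h1 := r_sq
  rw [h] at h1
  exact s_ne (by rw [← h1]; norm_num)

theorem r_two (k : ℤ) : r ^ (2 * k) = s ^ k := by
  rw [zpow_mul]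
  congr 1
  exact_mod_cast r_sq

/-- exponent of an arc -/
def ex (L : ℕ) (t x y : ℤ) : ℤ := Int.sign (y - x) + 2 * t * (y / L - x / L)

theorem ex_anti (L : ℕ) (t x y : ℤ) : ex L t y x = - ex L t x y := by
  unfold ex
  have h : x - y = -(y - x) := by ring
  rw [h, Int.sign_neg]
  ring

theorem ex_shift {L : ℕ} (hL : 0 < L) (t x y k : ℤ) : ex L t (x + k * L) (y + k * L) = ex L t x y := by
  unfold ex
  have hL' : (L : ℤ) ≠ 0 := by exact_mod_cast hL.ne'
  rw [Int.add_mul_ediv_right _ _ hL', Int.add_mul_ediv_right _ _ hL']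
  have h : y + k * L - (x + k * L) = y - x := by ring
  rw [h]
  ring

/-- sign of a spin -/
def ep (D : Finset ℕ) (x : ℕ) : ℤ := if x ∈ D then -1 else 1

/-- the site of the fundamental domain -/
def pr (L : ℕ) (x : ℤ) : ℕ := (x % (L : ℤ)).toNat

theorem pr_lt {L : ℕ} (hL : 0 < L) (x : ℤ) : pr L x < L := by
  have h1 := Int.emod_nonneg x (b := (L : ℤ)) (by omega)
  have h2 := Int.emod_lt_of_pos x (b := (L : ℤ)) (by omega)
  unfold pr
  omega

theorem pr_eq {L : ℕ} (hL : 0 < L) (x : ℤ) : x = pr L x + x / L * L := by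
  have h1 := Int.emod_nonneg x (b := (L : ℤ)) (by omega)
  have h2 := Int.emod_add_mul_ediv x L
  unfold pr
  rw [Int.toNat_of_nonneg h1]
  linarith [mul_comm (L : ℤ) (x / L)]

theorem pr_of {L : ℕ} {x : ℕ} {y k : ℤ} (hx : x < L) (h : y = x + k * L) : pr L y = x := by
  unfold pr
  rw [h, Int.add_mul_emod_self_right, Int.emod_eq_of_lt (by omega) (by omega)]
  exact Int.toNat_natCast x

theorem div_of {L : ℕ} {x : ℕ} {y k : ℤ} (hx : x < L) (h : y = x + k * L) : y / L = k := by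
  have hL' : (L : ℤ) ≠ 0 := by omega
  rw [h, Int.add_mul_ediv_right _ _ hL', Int.ediv_eq_zero_of_lt (by omega) (by omega), zero_add]

open Classical in
/-- local factor -/
def gl (t : ℤ) {L : ℕ} (α : Pat L) (D : Finset ℕ) (x : ℕ) : ℂ :=
  if (pr L (α.f x) ∈ D ↔ x ∉ D) then r ^ (ep D x * ex L t x (α.f x)) else 0

/-- spin vector of a periodic pattern -/
def PS (t : ℤ) {L : ℕ} (α : Pat L) : Vc := fun D => ∏ x ∈ range L, gl t α D x

theorem gl_congr {t : ℤ} {L : ℕ} {α β : Pat L} {D E : Finset ℕ} {x : ℕ} (h : α.f x = β.f x) (h1 : x ∈ D ↔ x ∈ E)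
    (h2 : pr L (β.f x) ∈ D ↔ pr L (β.f x) ∈ E) : gl t α D x = gl t β E x := by
  unfold gl ep
  simp only [h, h1, h2]

theorem gl_pos {t : ℤ} {L : ℕ} {α : Pat L} {D : Finset ℕ} {x : ℕ} (h : pr L (α.f x) ∈ D ↔ x ∉ D) :
    gl t α D x = r ^ (ep D x * ex L t x (α.f x)) := if_pos h

theorem gl_neg {t : ℤ} {L : ℕ} {α : Pat L} {D : Finset ℕ} {x : ℕ} (h : ¬ (pr L (α.f x) ∈ D ↔ x ∉ D)) :
    gl t α D x = 0 := if_neg h

theorem ep_in {D : Finset ℕ} {x : ℕ} (h : x ∈ D) : ep D x = -1 := if_pos h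

theorem ep_out {D : Finset ℕ} {x : ℕ} (h : x ∉ D) : ep D x = 1 := if_neg h

theorem split2 {L i : ℕ} (hi : i + 1 < L) (f : ℕ → ℂ) :
    ∏ x ∈ range L, f x = (∏ x ∈ ((range L).erase i).erase (i + 1), f x) * (f i * f (i + 1)) := by
  rw [← prod_erase_mul (range L) f (a := i) (mem_range.2 (by omega)),
    ← prod_erase_mul ((range L).erase i) f (a := i + 1) (mem_erase.2 ⟨by omega, mem_range.2 hi⟩)]
  ring

theorem split4 {L i a b : ℕ} (hi : i + 1 < L) (ha : a < L) (hb : b < L) (h1 : a ≠ i) (h2 : a ≠ i + 1) (h3 : b ≠ i) (h4 : b ≠ i + 1)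
    (h5 : a ≠ b) (f : ℕ → ℂ) :
    ∏ x ∈ range L, f x = (∏ x ∈ ((((range L).erase i).erase (i + 1)).erase a).erase b, f x) *
      (f i * f (i + 1) * (f a * f b)) := by
  rw [split2 hi, ← prod_erase_mul (((range L).erase i).erase (i + 1)) f (a := a)
      (mem_erase.2 ⟨h2, mem_erase.2 ⟨h1, mem_range.2 ha⟩⟩),
    ← prod_erase_mul ((((range L).erase i).erase (i + 1)).erase a) f (a := b)
      (mem_erase.2 ⟨h5.symm, mem_erase.2 ⟨h4, mem_erase.2 ⟨h3, mem_range.2 hb⟩⟩⟩)]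
  ring

theorem dvd_iff {L i x : ℕ} (hi : i < L) (hx : x < L) : ((L : ℤ) ∣ (x : ℤ) - i) ↔ x = i := by
  constructor
  · intro h
    have h1 := Int.eq_zero_of_abs_lt_dvd h (by rw [abs_lt]; omega)
    omega
  · rintro rfl
    rw [sub_self]
    exact dvd_zero _

theorem dvd_pr {L i : ℕ} (hi : i < L) (x : ℤ) : ((L : ℤ) ∣ x - i) ↔ pr L x = i := by
  have hL : 0 < L := by omega
  have h1 := pr_eq hL x
  have h2 := pr_lt hL x
  rw [← dvd_iff hi h2]
  have e : x - i = ((pr L x : ℕ) : ℤ) - i + x / L * L := by linarith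
  rw [e]
  constructor
  · intro h
    exact (Int.dvd_add_left (dvd_mul_left _ _)).1 h
  · intro h
    exact (Int.dvd_add_left (dvd_mul_left _ _)).2 h

/-- the sites which are not moved -/
theorem rest_eq {L i : ℕ} (hi : i + 1 < L) (α : Pat L) {x : ℕ} (hx : x < L) (h1 : x ≠ i) (h2 : x ≠ i + 1)
    (h3 : pr L (α.f x) ≠ i) (h4 : pr L (α.f x) ≠ i + 1) : (Pat.e i α).f x = α.f x := by
  refine Pat.e_of_not α i x ?_ ?_ ?_ ?_
  · rw [dvd_iff (by omega) hx]
    exact h1
  · have e : (x : ℤ) - i - 1 = (x : ℤ) - ((i + 1 : ℕ) : ℤ) := by push_cast; ring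
    rw [e, dvd_iff hi hx]
    exact h2
  · rw [dvd_pr (by omega)]
    exact h3
  · have e : α.f x - i - 1 = α.f x - ((i + 1 : ℕ) : ℤ) := by push_cast; ring
    rw [e, dvd_pr hi]
    exact h4

end SCH
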