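import Pool.Agent.Lib.MP_216314_pr.Sc.PSpin

/-!
# The letters on spin vectors of periodic patterns
-/

set_option autoImplicit false

noncomputable section

namespace SCH

open Finset QS CY

theorem loop_one : r ^ (6 : ℤ) + r ^ (-2 : ℤ) = r ^ (2 : ℤ) := by
  have h1 : r ^ (6 : ℤ) = s ^ (3 : ℤ) := by
    rw [← r_two]
    norm_num
  have h2 : r ^ (-2 : ℤ) = s ^ (-1 : ℤ) := by
    rw [← r_two]
    norm_num
  have h3 : r ^ (2 : ℤ) = s ^ (1 : ℤ) := by
    rw [← r_two]
    norm_num
  rw [h1, h2, h3, zpow_neg_one, zpow_one]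
  have hs := s_ne
  have h4 := s_four
  have e3 : s ^ (3 : ℤ) = s ^ 3 := by norm_cast
  rw [e3]
  field_simp
  linear_combination h4

theorem sgn_nc {L i : ℕ} (α : Pat L) {A B : ℤ} (hA : α.f i = A) (hB : α.f (i + 1) = B) (h1 : A ≠ i + 1) :
    Int.sign (B - A) = Int.sign (B - (i + 1)) - Int.sign (A - i) - 1 := by
  have iA : α.f A = i := by rw [← hA, α.inv]
  have iB : α.f B = i + 1 := by rw [← hB, α.inv]
  have n1 := α.ne i
  have n2 := α.ne (i + 1)
  rw [hA] at n1
  rw [hB] at n2
  have n3 : B ≠ i := by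
    intro h
    rw [h] at iB
    rw [iB] at hA
    exact h1 hA.symm
  rcases lt_or_gt_of_ne n1 with h | h
  · rcases lt_or_gt_of_ne n2 with h' | h'
    · have h2 := α.nc B i (by omega) (by rw [iB]; omega)
      rw [hA] at h2
      rw [Int.sign_eq_neg_one_of_neg (by omega : B - A < 0), Int.sign_eq_neg_one_of_neg (by omega : B - (i + 1) < 0),
        Int.sign_eq_neg_one_of_neg (by omega : A - i < 0)]
      norm_num
    · rw [Int.sign_eq_one_of_pos (by omega : 0 < B - A), Int.sign_eq_one_of_pos (by omega : 0 < B - (i + 1)),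
        Int.sign_eq_neg_one_of_neg (by omega : A - i < 0)]
      norm_num
  · have h2 := α.nc i (i + 1) (by omega) (by rw [hA]; omega)
    rw [hB, hA] at h2
    rw [Int.sign_eq_neg_one_of_neg (by omega : B - A < 0), Int.sign_eq_one_of_pos (by omega : 0 < B - (i + 1)),
      Int.sign_eq_one_of_pos (by omega : 0 < A - i)]
    norm_num

/-- the values of a function with two different memberships -/
theorem ee_of {i : ℕ} {v w : Vc} {D : Finset ℕ} (hD : ¬ (i ∈ D ↔ i + 1 ∈ D)) (h1 : i ∉ D → i + 1 ∈ D → s ^ 2 * v D + v (swD i D) = w D)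
    (h2 : i ∈ D → i + 1 ∉ D → (s ^ 2)⁻¹ * v D + v (swD i D) = w D) : ee i v D = w D := by
  unfold ee
  rw [if_neg hD]
  by_cases h : i ∈ D
  · rw [if_pos h]
    exact h2 h (fun h' => hD ⟨fun _ => h', fun _ => h⟩)
  · rw [if_neg h]
    exact h1 h (by by_contra h'; exact hD ⟨fun c => absurd c h, fun c => absurd c h'⟩)

theorem s_sq_r : s ^ 2 = r ^ (4 : ℤ) := by
  have h : r ^ (4 : ℤ) = s ^ (2 : ℤ) := by
    rw [← r_two]
    norm_num
  rw [h]
  norm_cast

theorem loop_a {e : ℤ} (he : e = 1 ∨ e = -3) : r ^ (4 : ℤ) * (r ^ e * r ^ e) + r ^ (-e) * r ^ (-e) = r * r := by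
  have hr := r_ne
  have h := loop_one
  rcases he with rfl | rfl
  · have e1 : r ^ (4 : ℤ) * (r ^ (1 : ℤ) * r ^ (1 : ℤ)) = r ^ (6 : ℤ) := by
      rw [← zpow_add₀ hr, ← zpow_add₀ hr]
      norm_num
    have e2 : r ^ (-1 : ℤ) * r ^ (-1 : ℤ) = r ^ (-2 : ℤ) := by
      rw [← zpow_add₀ hr]
      norm_num
    rw [e1, e2, h]
    rw [zpow_ofNat, pow_two]
  · have e1 : r ^ (4 : ℤ) * (r ^ (-3 : ℤ) * r ^ (-3 : ℤ)) = r ^ (-2 : ℤ) := by
      rw [← zpow_add₀ hr, ← zpow_add₀ hr]
      norm_num
    have e2 : r ^ (-(-3) : ℤ) * r ^ (-(-3) : ℤ) = r ^ (6 : ℤ) := by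
      rw [← zpow_add₀ hr]
      norm_num
    rw [e1, e2, add_comm, h]
    rw [zpow_ofNat, pow_two]

theorem loop_b {e : ℤ} (he : e = 1 ∨ e = -3) :
    (r ^ (4 : ℤ))⁻¹ * (r ^ (-e) * r ^ (-e)) + r ^ e * r ^ e = r⁻¹ * r⁻¹ := by
  have hr := r_ne
  have h := loop_a he
  have h4 : r ^ (4 : ℤ) ≠ 0 := zpow_ne_zero _ hr
  have h6 : r ^ (4 : ℤ) = r ^ 4 := by norm_cast
  have h7 : r⁻¹ * r⁻¹ = (r ^ (4 : ℤ))⁻¹ * (r * r) := by
    rw [h6]
    field_simp
  rw [h7, ← h, mul_add, ← mul_assoc (r ^ (4 : ℤ))⁻¹ (r ^ (4 : ℤ)), inv_mul_cancel₀ h4, one_mul]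
  ring

theorem four_a {x y z : ℤ} (h : z = y - x - 1) :
    r ^ (4 : ℤ) * (r ^ x * r ^ (-y) * (r ^ x * r ^ (-y))) = r * r * (r ^ (-z) * r ^ (-z)) := by
  have hr := r_ne
  rw [← zpow_add₀ hr, ← zpow_add₀ hr, ← zpow_add₀ hr, ← zpow_add₀ hr, ← pow_two, ← zpow_natCast, ← zpow_add₀ hr, h]
  congr 1
  push_cast
  ring

theorem four_b {x y z : ℤ} (h : z = y - x - 1) :
    r ^ (-x) * r ^ y * (r ^ (-x) * r ^ y) = r * r * (r ^ z * r ^ z) := by
  have hr := r_ne
  rw [← zpow_add₀ hr, ← zpow_add₀ hr, ← zpow_add₀ hr, ← pow_two, ← zpow_natCast, ← zpow_add₀ hr, h]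
  congr 1
  push_cast
  ring

theorem four_c {x y z : ℤ} (h : z = y - x - 1) :
    (r ^ (4 : ℤ))⁻¹ * (r ^ (-x) * r ^ y * (r ^ (-x) * r ^ y)) = r⁻¹ * r⁻¹ * (r ^ z * r ^ z) := by
  have hr := r_ne
  rw [← zpow_add₀ hr, ← zpow_add₀ hr, ← zpow_add₀ hr, ← zpow_neg, ← zpow_add₀ hr, ← pow_two, ← zpow_neg_one, ← zpow_natCast,
    ← zpow_mul, ← zpow_add₀ hr, h]
  congr 1
  push_cast
  ring

theorem four_d {x y z : ℤ} (h : z = y - x - 1) :
    r ^ x * r ^ (-y) * (r ^ x * r ^ (-y)) = r⁻¹ * r⁻¹ * (r ^ (-z) * r ^ (-z)) := by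
  have hr := r_ne
  rw [← zpow_add₀ hr, ← zpow_add₀ hr, ← zpow_add₀ hr, ← pow_two, ← zpow_neg_one, ← zpow_natCast, ← zpow_mul, ← zpow_add₀ hr, h]
  congr 1
  push_cast
  ring

theorem ex_small {L i : ℕ} (hi : i + 1 < L) (t : ℤ) : ex L t i (i + 1) = 1 := by
  unfold ex
  rw [Int.ediv_eq_zero_of_lt (by omega) (by omega : (i : ℤ) < L), Int.ediv_eq_zero_of_lt (by omega) (by omega : (i : ℤ) + 1 < L),
    Int.sign_eq_one_of_pos (by omega : 0 < (i : ℤ) + 1 - i)]
  ring

theorem ee_PS {t : ℤ} (ht : t = 1 ∨ t = -1) {L i : ℕ} (hi : i + 1 < L) (α : Pat L) : ee i (PS t α) = PS t (Pat.e i α) := by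
  have hr := r_ne
  have hL : 0 < L := by omega
  funext D
  by_cases hD : (i ∈ D ↔ i + 1 ∈ D)
  · unfold ee
    rw [if_pos hD]
    symm
    refine prod_eq_zero (mem_range.2 (by omega : i < L)) (gl_neg ?_)
    rw [Pat.e_left, pr_of (k := 0) hi (by push_cast; ring)]
    tauto
  obtain ⟨A, hA⟩ : ∃ A, α.f i = A := ⟨_, rfl⟩
  obtain ⟨B, hB⟩ : ∃ B, α.f (i + 1) = B := ⟨_, rfl⟩
  have iA : α.f A = i := by rw [← hA, α.inv]
  have iB : α.f B = i + 1 := by rw [← hB, α.inv]
  have pA := pr_eq hL A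
  have pB := pr_eq hL B
  obtain ⟨a, ha⟩ : ∃ a, pr L A = a := ⟨_, rfl⟩
  obtain ⟨b, hb⟩ : ∃ b, pr L B = b := ⟨_, rfl⟩
  obtain ⟨k, hk⟩ : ∃ k, A / (L : ℤ) = k := ⟨_, rfl⟩
  obtain ⟨l, hl⟩ : ∃ l, B / (L : ℤ) = l := ⟨_, rfl⟩
  have aL : a < L := by rw [← ha]; exact pr_lt hL A
  have bL : b < L := by rw [← hb]; exact pr_lt hL B
  rw [ha, hk] at pA
  rw [hb, hl] at pB
  have fa : α.f (a : ℤ) = i + (-k) * L := by
    have h := α.per_mul A (-k)
    rw [iA] at h
    rw [← h]
    congr 1
    linarith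
  have fb : α.f (b : ℤ) = i + 1 + (-l) * L := by
    have h := α.per_mul B (-l)
    rw [iB] at h
    rw [← h]
    congr 1
    linarith
  have prA : pr L (α.f (a : ℤ)) = i := pr_of (by omega) fa
  have prB : pr L (α.f (b : ℤ)) = i + 1 := pr_of (k := -l) hi (by rw [fb]; push_cast; ring)
  have pri : pr L (α.f (i : ℤ)) = a := by rw [hA, ha]
  have pri1 : pr L (α.f ((i + 1 : ℕ) : ℤ)) = b := by
    push_cast
    rw [hB, hb]
  have di : (i : ℤ) / L = 0 := Int.ediv_eq_zero_of_lt (by omega) (by omega)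
  have di1 : ((i : ℤ) + 1) / L = 0 := Int.ediv_eq_zero_of_lt (by omega) (by omega)
  have dia : (a : ℤ) / L = 0 := Int.ediv_eq_zero_of_lt (by omega) (by omega)
  have dib : (b : ℤ) / L = 0 := Int.ediv_eq_zero_of_lt (by omega) (by omega)
  -- the partner of a site which is not one of the four sites
  have part : ∀ x : ℕ, x < L → x ≠ a → pr L (α.f (x : ℤ)) ≠ i := by
    intro x hx hxa h
    have h1 := pr_eq hL (α.f (x : ℤ))
    rw [h] at h1
    have h2 := α.inv (x : ℤ)
    rw [h1, α.per_mul, hA] at h2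
    have h3 : pr L A = x := pr_of (k := -(α.f (x : ℤ) / L)) hx (by linarith)
    omega
  have part1 : ∀ x : ℕ, x < L → x ≠ b → pr L (α.f (x : ℤ)) ≠ i + 1 := by
    intro x hx hxb h
    have h1 := pr_eq hL (α.f (x : ℤ))
    rw [h] at h1
    have h2 := α.inv (x : ℤ)
    rw [h1, α.per_mul] at h2
    push_cast at h2
    rw [hB] at h2
    have h3 : pr L B = x := pr_of (k := -(α.f (x : ℤ) / L)) hx (by linarith)
    omega
  have r1 : ∀ x : ℕ, x < L → x ≠ i → x ≠ i + 1 → x ≠ a → x ≠ b → gl t α D x = gl t (Pat.e i α) D x := by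
    intro x hx h1 h2 h3 h4
    exact gl_congr (rest_eq hi α hx h1 h2 (part x hx h3) (part1 x hx h4)).symm Iff.rfl Iff.rfl
  have r2 : ∀ x : ℕ, x < L → x ≠ i → x ≠ i + 1 → x ≠ a → x ≠ b → gl t α (swD i D) x = gl t (Pat.e i α) D x := by
    intro x hx h1 h2 h3 h4
    have h5 := rest_eq hi α hx h1 h2 (part x hx h3) (part1 x hx h4)
    refine gl_congr h5.symm (mem_swD_ne h1 h2) ?_
    rw [h5]
    exact mem_swD_ne (part x hx h3) (part1 x hx h4)
  -- the exponents at the two sites
  have exi : ex L t i A = Int.sign (A - i) + 2 * t * k := by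
    unfold ex
    rw [hk, di, sub_zero]
  have exi1 : ex L t (i + 1) B = Int.sign (B - (i + 1)) + 2 * t * l := by
    unfold ex
    rw [hl, di1, sub_zero]
  by_cases hab : a = i + 1
  · -- the two sites are joined
    have hbi : b = i := by
      by_contra hne
      exact part1 i (by omega) (fun h => hne h.symm) (by rw [pri, hab])
    have hlt := abs_lt.1 (α.lt_per i)
    rw [hA, pA, hab] at hlt
    push_cast at hlt
    have hk' : k = 0 ∨ k = -1 := by
      have h1 : k < 1 := by
        by_contra hc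
        have : (L : ℤ) ≤ k * L := by nlinarith
        omega
      have h2 : -2 < k := by
        by_contra hc
        have : k * L ≤ -2 * L := by nlinarith
        omega
      omega
    have hBk : B = i + (-k) * L := by
      have h := fa
      rw [hab] at h
      push_cast at h
      rw [hB] at h
      exact h
    have hlk : l = -k := by
      rw [← hl]
      exact div_of (by omega) hBk
    have p1 : ∏ x ∈ ((range L).erase i).erase (i + 1), gl t α D x =
        ∏ x ∈ ((range L).erase i).erase (i + 1), gl t (Pat.e i α) D x := by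
      refine prod_congr rfl fun x hx => ?_
      rw [mem_erase, mem_erase, mem_range] at hx
      exact r1 x hx.2.2 hx.2.1 hx.1 (by omega) (by omega)
    have p2 : ∏ x ∈ ((range L).erase i).erase (i + 1), gl t α (swD i D) x =
        ∏ x ∈ ((range L).erase i).erase (i + 1), gl t (Pat.e i α) D x := by
      refine prod_congr rfl fun x hx => ?_
      rw [mem_erase, mem_erase, mem_range] at hx
      exact r2 x hx.2.2 hx.2.1 hx.1 (by omega) (by omega)
    obtain ⟨e, he⟩ : ∃ e, ex L t i A = e := ⟨_, rfl⟩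
    have he' : ex L t (i + 1) B = -e := by
      rw [← he, exi, exi1, hlk]
      have h1 : B - (i + 1) = -(A - i) := by
        rw [hBk, pA, hab]
        push_cast
        ring
      rw [h1, Int.sign_neg]
      ring
    have hev : e = 1 ∨ e = -3 := by
      rw [← he, exi]
      rcases hk' with h | h
      · left
        rw [h, pA, hab, h]
        push_cast
        rw [Int.sign_eq_one_of_pos (by omega : 0 < (i : ℤ) + 1 + 0 * L - i)]
        ring
      · rw [h, pA, hab, h]
        push_cast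
        rw [Int.sign_eq_neg_one_of_neg (by omega : (i : ℤ) + 1 + -1 * L - i < 0)]
        rcases ht with h2 | h2 <;> rw [h2]
        · right
          norm_num
        · left
          norm_num
    have g1 : ∀ E : Finset ℕ, ¬ (i ∈ E ↔ i + 1 ∈ E) → gl t α E i = r ^ (ep E i * e) := by
      intro E hE
      rw [gl_pos (by rw [pri, hab]; tauto), hA, he]
    have g2 : ∀ E : Finset ℕ, ¬ (i ∈ E ↔ i + 1 ∈ E) → gl t α E (i + 1) = r ^ (ep E (i + 1) * -e) := by
      intro E hE
      rw [gl_pos (by rw [pri1, hbi]; tauto)]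
      push_cast
      rw [hB, he']
    have g3 : gl t (Pat.e i α) D i = r ^ (ep D i) := by
      rw [gl_pos (by rw [Pat.e_left, pr_of (k := 0) hi (by push_cast; ring)]; tauto), Pat.e_left, ex_small hi, mul_one]
    have g4 : gl t (Pat.e i α) D (i + 1) = r ^ (-ep D (i + 1)) := by
      have e1 : (Pat.e i α).f ((i + 1 : ℕ) : ℤ) = i := by
        push_cast
        exact Pat.e_right α i
      rw [gl_pos (by rw [e1, pr_of (k := 0) (by omega : i < L) (by ring)]; tauto), e1]
      push_cast
      rw [ex_anti, ex_small hi]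
      congr 1
      ring
    have hsw : ¬ (i ∈ swD i D ↔ i + 1 ∈ swD i D) := by
      rw [mem_swD_left, mem_swD_right]
      tauto
    refine ee_of hD ?_ ?_
    · intro h1 h2
      show s ^ 2 * ∏ x ∈ range L, gl t α D x + ∏ x ∈ range L, gl t α (swD i D) x = ∏ x ∈ range L, gl t (Pat.e i α) D x
      rw [split2 hi, split2 hi (fun x => gl t α (swD i D) x), split2 hi (fun x => gl t (Pat.e i α) D x), p1, p2, g1 D hD, g2 D hD,
        g1 _ hsw, g2 _ hsw, g3, g4, ep_out h1, ep_in h2, ep_in (mem_swD_left.2 h2), ep_out (fun h => h1 (mem_swD_right.1 h)), s_sq_r]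
      have h3 := loop_a hev
      simp only [one_mul, neg_mul, neg_neg, zpow_one]
      linear_combination (∏ x ∈ ((range L).erase i).erase (i + 1), gl t (Pat.e i α) D x) * h3
    · intro h1 h2
      show (s ^ 2)⁻¹ * ∏ x ∈ range L, gl t α D x + ∏ x ∈ range L, gl t α (swD i D) x = ∏ x ∈ range L, gl t (Pat.e i α) D x
      rw [split2 hi, split2 hi (fun x => gl t α (swD i D) x), split2 hi (fun x => gl t (Pat.e i α) D x), p1, p2, g1 D hD, g2 D hD,
        g1 _ hsw, g2 _ hsw, g3, g4, ep_in h1, ep_out h2, ep_out (fun h => h2 (mem_swD_left.1 h)), ep_in (mem_swD_right.2 h1), s_sq_r]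
      have h3 := loop_b hev
      simp only [one_mul, neg_mul, neg_neg, zpow_neg_one]
      linear_combination (∏ x ∈ ((range L).erase i).erase (i + 1), gl t (Pat.e i α) D x) * h3
  · -- four different sites
    have hai : a ≠ i := by
      intro h
      refine α.not_dvd_self i ?_
      rw [hA, dvd_pr (by omega), ha, h]
    have hbi1 : b ≠ i + 1 := by
      intro h
      refine α.not_dvd_self (i + 1 : ℤ) ?_
      have e : α.f ((i : ℤ) + 1) - ((i : ℤ) + 1) = B - ((i + 1 : ℕ) : ℤ) := by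
        rw [hB]
        push_cast
        ring
      rw [e, dvd_pr hi, hb, h]
    have hbi : b ≠ i := by
      intro h
      rw [h] at prB
      rw [pri] at prB
      exact hab prB
    have habn : a ≠ b := by
      intro h
      rw [h] at prA
      rw [prA] at prB
      omega
    have hA1 : A ≠ i + 1 := by
      intro h
      apply hab
      rw [← ha, h]
      exact pr_of (k := 0) hi (by push_cast; ring)
    have nA : ¬ (L : ℤ) ∣ A - i := by
      rw [dvd_pr (by omega), ha]
      exact hai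
    have nA1 : ¬ (L : ℤ) ∣ A - i - 1 := by
      have e : A - i - 1 = A - ((i + 1 : ℕ) : ℤ) := by push_cast; ring
      rw [e, dvd_pr hi, ha]
      exact hab
    have nB : ¬ (L : ℤ) ∣ B - i := by
      rw [dvd_pr (by omega), hb]
      exact hbi
    have nB1 : ¬ (L : ℤ) ∣ B - i - 1 := by
      have e : B - i - 1 = B - ((i + 1 : ℕ) : ℤ) := by push_cast; ring
      rw [e, dvd_pr hi, hb]
      exact hbi1
    have eA : (Pat.e i α).f A = B := by
      rw [Pat.e_of_partner α i A nA nA1 (by rw [iA, sub_self]; exact dvd_zero _), iA, hB]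
    have eB : (Pat.e i α).f B = A := by
      rw [Pat.e_of_partner' α i B nB nB1 (by rw [iB]; ring_nf; exact dvd_zero _), iB]
      have e : (i : ℤ) + 1 - 1 = i := by ring
      rw [e, hA]
    have ea : (Pat.e i α).f (a : ℤ) = B + (-k) * L := by
      have h := (Pat.e i α).per_mul A (-k)
      rw [eA] at h
      rw [← h]
      congr 1
      linarith
    have eb : (Pat.e i α).f (b : ℤ) = A + (-l) * L := by
      have h := (Pat.e i α).per_mul B (-l)
      rw [eB] at h
      rw [← h]
      congr 1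
      linarith
    have pea : pr L ((Pat.e i α).f (a : ℤ)) = b := pr_of (k := l - k) bL (by rw [ea, pB]; ring)
    have peb : pr L ((Pat.e i α).f (b : ℤ)) = a := pr_of (k := k - l) aL (by rw [eb, pA]; ring)
    have pei : pr L ((Pat.e i α).f (i : ℤ)) = i + 1 := pr_of (k := 0) hi (by rw [Pat.e_left]; push_cast; ring)
    have e1 : (Pat.e i α).f ((i + 1 : ℕ) : ℤ) = i := by
      push_cast
      exact Pat.e_right α i
    have pei1 : pr L ((Pat.e i α).f ((i + 1 : ℕ) : ℤ)) = i := pr_of (k := 0) (by omega) (by rw [e1]; ring)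
    obtain ⟨x, hx⟩ : ∃ x, ex L t i A = x := ⟨_, rfl⟩
    obtain ⟨y, hy⟩ : ∃ y, ex L t (i + 1) B = y := ⟨_, rfl⟩
    obtain ⟨z, hz⟩ : ∃ z, ex L t A B = z := ⟨_, rfl⟩
    have hzv : z = y - x - 1 := by
      rw [← hz, ← hy, ← hx, exi, exi1]
      unfold ex
      rw [hk, hl, sgn_nc α hA hB hA1]
      ring
    have xa : ex L t a (α.f (a : ℤ)) = -x := by
      rw [fa, ex_anti, ← hx, ← ex_shift hL t i A (-k)]
      have e2 : A + -k * L = a := by linarith
      rw [e2]
    have xb : ex L t b (α.f (b : ℤ)) = -y := by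
      rw [fb, ex_anti, ← hy, ← ex_shift hL t (i + 1) B (-l)]
      have e2 : B + -l * L = b := by linarith
      rw [e2]
    have za : ex L t a ((Pat.e i α).f (a : ℤ)) = z := by
      rw [ea, ← hz, ← ex_shift hL t A B (-k)]
      have e2 : A + -k * L = a := by linarith
      rw [e2]
    have zb : ex L t b ((Pat.e i α).f (b : ℤ)) = -z := by
      rw [eb, ex_anti, ← hz, ← ex_shift hL t A B (-l)]
      have e2 : B + -l * L = b := by linarith
      rw [e2]
    have g1 : ∀ E : Finset ℕ, gl t α E i = if (a ∈ E ↔ i ∉ E) then r ^ (ep E i * x) else 0 := by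
      intro E
      unfold gl
      rw [pri, hA, hx]
    have g2 : ∀ E : Finset ℕ, gl t α E (i + 1) = if (b ∈ E ↔ i + 1 ∉ E) then r ^ (ep E (i + 1) * y) else 0 := by
      intro E
      unfold gl
      rw [pri1]
      push_cast
      rw [hB, hy]
    have g3 : ∀ E : Finset ℕ, gl t α E a = if (i ∈ E ↔ a ∉ E) then r ^ (ep E a * -x) else 0 := by
      intro E
      unfold gl
      rw [prA, xa]
    have g4 : ∀ E : Finset ℕ, gl t α E b = if (i + 1 ∈ E ↔ b ∉ E) then r ^ (ep E b * -y) else 0 := by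
      intro E
      unfold gl
      rw [prB, xb]
    have q1 : gl t (Pat.e i α) D i = r ^ (ep D i) := by
      rw [gl_pos (by rw [pei]; tauto), Pat.e_left, ex_small hi, mul_one]
    have q2 : gl t (Pat.e i α) D (i + 1) = r ^ (-ep D (i + 1)) := by
      rw [gl_pos (by rw [pei1]; tauto), e1]
      push_cast
      rw [ex_anti, ex_small hi]
      congr 1
      ring
    have q3 : gl t (Pat.e i α) D a = if (b ∈ D ↔ a ∉ D) then r ^ (ep D a * z) else 0 := by
      unfold gl
      rw [pea, za]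
    have q4 : gl t (Pat.e i α) D b = if (a ∈ D ↔ b ∉ D) then r ^ (ep D b * -z) else 0 := by
      unfold gl
      rw [peb, zb]
    have p1 : ∏ x ∈ ((((range L).erase i).erase (i + 1)).erase a).erase b, gl t α D x =
        ∏ x ∈ ((((range L).erase i).erase (i + 1)).erase a).erase b, gl t (Pat.e i α) D x := by
      refine prod_congr rfl fun x hx => ?_
      rw [mem_erase, mem_erase, mem_erase, mem_erase, mem_range] at hx
      exact r1 x hx.2.2.2.2 hx.2.2.2.1 hx.2.2.1 hx.2.1 hx.1
    have p2 : ∏ x ∈ ((((range L).erase i).erase (i + 1)).erase a).erase b, gl t α (swD i D) x =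
        ∏ x ∈ ((((range L).erase i).erase (i + 1)).erase a).erase b, gl t (Pat.e i α) D x := by
      refine prod_congr rfl fun x hx => ?_
      rw [mem_erase, mem_erase, mem_erase, mem_erase, mem_range] at hx
      exact r2 x hx.2.2.2.2 hx.2.2.2.1 hx.2.2.1 hx.2.1 hx.1
    obtain ⟨R, hR⟩ : ∃ R, ∏ x ∈ ((((range L).erase i).erase (i + 1)).erase a).erase b, gl t (Pat.e i α) D x = R := ⟨_, rfl⟩
    have T1 : PS t α D = R * (gl t α D i * gl t α D (i + 1) * (gl t α D a * gl t α D b)) := by
      unfold PS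
      rw [split4 hi aL bL hai hab hbi hbi1 habn, p1, hR]
    have T2 : PS t α (swD i D) = R * (gl t α (swD i D) i * gl t α (swD i D) (i + 1) * (gl t α (swD i D) a * gl t α (swD i D) b)) := by
      unfold PS
      rw [split4 hi aL bL hai hab hbi hbi1 habn, p2, hR]
    have T3 : PS t (Pat.e i α) D = R * (gl t (Pat.e i α) D i * gl t (Pat.e i α) D (i + 1) *
        (gl t (Pat.e i α) D a * gl t (Pat.e i α) D b)) := by
      unfold PS
      rw [split4 hi aL bL hai hab hbi hbi1 habn, hR]
    have ma : a ∈ swD i D ↔ a ∈ D := mem_swD_ne hai hab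
    have mb : b ∈ swD i D ↔ b ∈ D := mem_swD_ne hbi hbi1
    have mi : i ∈ swD i D ↔ i + 1 ∈ D := mem_swD_left
    have mi1 : i + 1 ∈ swD i D ↔ i ∈ D := mem_swD_right
    refine ee_of hD ?_ ?_
    · intro h1 h2
      rw [T1, T2, T3, g1, g2, g3, g4, g1, g2, g3, g4, q1, q2, q3, q4, s_sq_r]
      unfold ep
      simp only [ma, mb, mi, mi1, h1, h2, if_true, if_false, not_false_eq_true, not_true_eq_false, one_mul, neg_mul, neg_neg, zpow_one]
      by_cases ca : a ∈ D <;> by_cases cb : b ∈ D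
      · simp only [ca, cb, not_true_eq_false, if_false, iff_false, iff_true, mul_zero, zero_mul, add_zero]
      · simp only [ca, cb, not_true_eq_false, not_false_eq_true, if_true, if_false, iff_false, iff_true, iff_self, mul_zero, zero_mul, add_zero,
          one_mul, neg_mul, neg_neg]
        linear_combination R * four_a hzv
      · simp only [ca, cb, not_true_eq_false, not_false_eq_true, if_true, if_false, iff_false, iff_true, iff_self, mul_zero, zero_mul, zero_add,
          one_mul, neg_mul, neg_neg]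
        linear_combination R * four_b hzv
      · simp only [ca, cb, not_false_eq_true, if_false, iff_true, mul_zero, zero_mul, add_zero]
    · intro h1 h2
      rw [T1, T2, T3, g1, g2, g3, g4, g1, g2, g3, g4, q1, q2, q3, q4, s_sq_r]
      unfold ep
      simp only [ma, mb, mi, mi1, h1, h2, if_true, if_false, not_false_eq_true, not_true_eq_false, one_mul, neg_mul, neg_neg, zpow_neg_one]
      by_cases ca : a ∈ D <;> by_cases cb : b ∈ D
      · simp only [ca, cb, not_true_eq_false, if_false, iff_false, iff_true, mul_zero, zero_mul, add_zero]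
      · simp only [ca, cb, not_true_eq_false, not_false_eq_true, if_true, if_false, iff_false, iff_true, iff_self, mul_zero, zero_mul, zero_add,
          one_mul, neg_mul, neg_neg]
        linear_combination R * four_d hzv
      · simp only [ca, cb, not_true_eq_false, not_false_eq_true, if_true, if_false, iff_false, iff_true, iff_self, mul_zero, zero_mul, add_zero,
          one_mul, neg_mul, neg_neg]
        linear_combination R * four_c hzv
      · simp only [ca, cb, not_false_eq_true, if_false, iff_true, mul_zero, zero_mul, add_zero]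

end SCH
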