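import Pool.Agent.Lib.MP_216314_pr.Sc.PSRot
import Pool.Agent.Lib.MP_216314_pr.X.XBr
import Pool.Agent.Lib.MP_216314_pr.CV.Im

/-!
# The pattern vectors in the normalisation of `PX`

`SS L α`: restriction of `s ^ (L / 2) * PS 1 α` to the configurations of `range L`. The properties `wt`, `e`, `rot`, `two`, `one` of
`CV.SP`.
-/

set_option autoImplicit false

noncomputable section

namespace SCH

open Finset CY

open Classical in
/-- pattern vectors in the normalisation of `PX` -/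
def SS (L : ℕ) (α : Pat L) : PX.Vec := fun D => if D ⊆ range L then QS.s ^ (L / 2) * PS 1 α D else 0

theorem SS_in {L : ℕ} (α : Pat L) {D : Finset ℕ} (h : D ⊆ range L) : SS L α D = QS.s ^ (L / 2) * PS 1 α D := if_pos h

theorem SS_out {L : ℕ} (α : Pat L) {D : Finset ℕ} (h : ¬ D ⊆ range L) : SS L α D = 0 := if_neg h

theorem PS_card {t : ℤ} {L : ℕ} (α : Pat L) {D : Finset ℕ} (hD : D ⊆ range L) (h : PS t α D ≠ 0) : D.card = L / 2 := by
  have hL := α.pos
  have hC : Cd α D := by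
    by_contra hc
    exact h (PS_neg hc)
  have h1 : D.card = (range L \ D).card := by
    refine Finset.card_nbij' (fun x => pr L (α.f x)) (fun x => pr L (α.f x)) ?_ ?_ ?_ ?_
    · intro x hx
      have hx' : x ∈ D := hx
      have h2 := mem_range.1 (hD hx')
      rw [Finset.mem_coe, mem_sdiff, mem_range]
      exact ⟨pr_lt hL _, fun h3 => (hC x h2).1 h3 hx'⟩
    · intro x hx
      rw [Finset.mem_coe, mem_sdiff, mem_range] at hx
      exact (hC x hx.1).2 hx.2
    · intro x hx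
      have hx' : x ∈ D := hx
      exact pr_pr α (mem_range.1 (hD hx'))
    · intro x hx
      rw [Finset.mem_coe, mem_sdiff, mem_range] at hx
      exact pr_pr α hx.1
  rw [card_sdiff_of_subset hD, card_range] at h1
  have h2 := card_le_card hD
  rw [card_range] at h2
  omega

theorem SS_wt (L : ℕ) (α : Pat L) : PX.Wt L (L / 2) (SS L α) := by
  intro D hD
  by_cases h : D ⊆ range L
  · rw [SS_in α h]
    by_cases h1 : PS 1 α D = 0
    · rw [h1, mul_zero]
    · exact absurd (PX.mem_cfn.2 ⟨h, PS_card α h h1⟩) hD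
  · exact SS_out α h

theorem sg_sub {L i : ℕ} (hi : i + 1 < L) {D : Finset ℕ} (h : D ⊆ range L) : PX.sg i D ⊆ range L := by
  intro x hx
  rw [PX.mem_sg] at hx
  have h1 := mem_range.1 (h hx)
  rw [mem_range]
  rcases eq_or_ne x i with h2 | h2
  · omega
  rcases eq_or_ne x (i + 1) with h3 | h3
  · omega
  · rw [Equiv.swap_apply_of_ne_of_ne h2 h3] at h1
    exact h1

theorem sg_sub_iff {L i : ℕ} (hi : i + 1 < L) {D : Finset ℕ} : PX.sg i D ⊆ range L ↔ D ⊆ range L := by
  constructor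
  · intro h
    have h1 := sg_sub hi h
    have h2 : PX.sg i (PX.sg i D) = D := QS.swD_swD i D
    rwa [h2] at h1
  · exact sg_sub hi

theorem SS_e (L : ℕ) (α : Pat L) (i : ℕ) (hi : i + 1 < L) : SS L (Pat.e (i : ℤ) α) = PX.ee i (SS L α) := by
  funext D
  have hk := congrFun (ee_PS (Or.inl rfl : (1 : ℤ) = 1 ∨ (1 : ℤ) = -1) hi α) D
  have hsg : QS.swD i D = PX.sg i D := rfl
  unfold QS.ee at hk
  rw [hsg] at hk
  by_cases h : D ⊆ range L
  · rw [SS_in _ h, ← hk]
    by_cases h1 : (i ∈ D ↔ i + 1 ∈ D)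
    · rw [if_pos h1, mul_zero, PX.ee_apply_eq _ _ _ h1]
    · rw [if_neg h1]
      by_cases h2 : i ∈ D
      · have h3 : i + 1 ∉ D := fun hh => h1 ⟨fun _ => hh, fun _ => h2⟩
        rw [if_pos h2, PX.ee_apply_left _ _ _ h2 h3, SS_in _ h, SS_in _ (sg_sub hi h), PX.s_sq_inv]
        ring
      · have h3 : i + 1 ∈ D := by
          by_contra hh
          exact h1 ⟨fun x => absurd x h2, fun x => absurd x hh⟩
        rw [if_neg h2, PX.ee_apply_right _ _ _ h2 h3, SS_in _ h, SS_in _ (sg_sub hi h), PX.s_sq]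
        ring
  · have h0 : ¬ PX.sg i D ⊆ range L := fun hh => h ((sg_sub_iff hi).1 hh)
    rw [SS_out _ h]
    by_cases h1 : (i ∈ D ↔ i + 1 ∈ D)
    · rw [PX.ee_apply_eq _ _ _ h1]
    · by_cases h2 : i ∈ D
      · have h3 : i + 1 ∉ D := fun hh => h1 ⟨fun _ => hh, fun _ => h2⟩
        rw [PX.ee_apply_left _ _ _ h2 h3, SS_out _ h, SS_out _ h0]
        ring
      · have h3 : i + 1 ∈ D := by
          by_contra hh
          exact h1 ⟨fun x => absurd x h2, fun x => absurd x hh⟩
        rw [PX.ee_apply_right _ _ _ h2 h3, SS_out _ h, SS_out _ h0]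
        ring

theorem r_four : r ^ (4 : ℤ) = -PX.om ^ 2 := by
  rw [show (4 : ℤ) = 2 * 2 by norm_num, r_two, ← PX.s_sq]
  rfl

theorem r_neg_four : r ^ (-4 : ℤ) = -PX.om := by
  rw [zpow_neg, r_four, ← PX.s_sq, PX.s_sq_inv]

theorem SS_rot (L : ℕ) (α : Pat L) : SS L (Pat.rotInv α) = CV.ro L (SS L α) := by
  have hL := α.pos
  funext D
  unfold CV.ro
  by_cases h : D ⊆ range L
  · have hE : CV.cys L D ⊆ range L := by
      intro x hx
      exact mem_range.2 ((CV.mem_cys D).1 hx).1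
    rw [SS_in _ h, if_pos h, SS_in _ hE, PS_rotInv (E := CV.cys L D) α]
    · have h1 : r ^ (-4 * (1 : ℤ) * ep D 0) = CV.rc D := by
        unfold CV.rc ep
        by_cases h0 : 0 ∈ D
        · rw [if_pos h0, if_pos h0, ← r_four]
          norm_num
        · rw [if_neg h0, if_neg h0, ← r_neg_four]
          norm_num
      rw [h1]
      ring
    · intro y hy
      rw [CV.mem_cys]
      by_cases h1 : y + 1 < L
      · rw [if_pos h1, pr_of (x := y + 1) (k := 0) h1 (by push_cast; ring)]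
        exact ⟨fun h2 => h2.2, fun h2 => ⟨hy, h2⟩⟩
      · rw [if_neg h1, pr_of (x := 0) (k := 1) hL (by omega)]
        exact ⟨fun h2 => h2.2, fun h2 => ⟨hy, h2⟩⟩
  · rw [SS_out _ h, if_neg h]

/-- the pattern of period two without crossing of the seam -/
def pz : Pat 2 where
  f := fun x => if x % 2 = 0 then x + 1 else x - 1
  pos := by omega
  inv := by
    intro x
    split_ifs <;> omega
  per := by
    intro x
    split_ifs <;> push_cast <;> omega
  ne := by
    intro x
    split_ifs <;> omega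
  nc := by
    intro x y h1 h2
    split_ifs at h2 <;> omega

/-- the pattern of period two which crosses the seam -/
def pm : Pat 2 where
  f := fun x => if x % 2 = 0 then x - 1 else x + 1
  pos := by omega
  inv := by
    intro x
    split_ifs <;> omega
  per := by
    intro x
    split_ifs <;> push_cast <;> omega
  ne := by
    intro x
    split_ifs <;> omega
  nc := by
    intro x y h1 h2
    split_ifs at h2 <;> omega

theorem pat_two (α : Pat 2) : α = pz ∨ α = pm := by
  have hp : ∀ x k : ℤ, α.f (x + k * 2) = α.f x + k * 2 := fun x k => α.per_mul x k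
  have h0 : α.f 0 % 2 ≠ 0 := by
    intro h
    have h1 := pr_ne α (x := 0) (by omega)
    apply h1
    refine pr_of (k := α.f 0 / 2) (by omega) ?_
    push_cast
    omega
  have h1 : α.f 0 = 1 ∨ α.f 0 = -1 := by
    obtain ⟨k, hk⟩ : ∃ k : ℤ, α.f 0 = 1 + k * 2 := ⟨(α.f 0 - 1) / 2, by omega⟩
    have h2 : α.f 1 = 0 - k * 2 := by
      have h3 := α.inv 0
      rw [hk, hp] at h3
      linarith
    rcases lt_trichotomy k 0 with h3 | h3 | h3
    · rcases eq_or_lt_of_le (show k ≤ -1 by omega) with h4 | h4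
      · right
        rw [hk, h4]
        norm_num
      · exfalso
        have h5 := α.nc (α.f 0) (α.f 0 + 1) (by omega) (by rw [α.inv]; omega)
        rw [α.inv] at h5
        have h6 : α.f (α.f 0 + 1) = α.f 0 + (k + 1) * 2 := by
          rw [hk, show (1 : ℤ) + k * 2 + 1 = 0 + (k + 1) * 2 by ring, hp, hk]
        rw [h6, hk] at h5
        omega
    · left
      rw [hk, h3]
      norm_num
    · exfalso
      have h5 := α.nc 0 1 (by norm_num) (by omega)
      omega
  rcases h1 with h1 | h1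
  · left
    have h2 : α.f 1 = 0 := by rw [← h1, α.inv]
    apply Pat.ext
    funext x
    show α.f x = if x % 2 = 0 then x + 1 else x - 1
    split_ifs with h3
    · have h4 := hp 0 (x / 2)
      rw [show (0 : ℤ) + x / 2 * 2 = x by omega, h1] at h4
      omega
    · have h4 := hp 1 (x / 2)
      rw [show (1 : ℤ) + x / 2 * 2 = x by omega, h2] at h4
      omega
  · right
    have h2 : α.f 1 = 2 := by
      have h3 := hp (-1) 1
      rw [show (-1 : ℤ) + 1 * 2 = 1 by norm_num, ← h1, α.inv] at h3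
      omega
    apply Pat.ext
    funext x
    show α.f x = if x % 2 = 0 then x - 1 else x + 1
    split_ifs with h3
    · have h4 := hp 0 (x / 2)
      rw [show (0 : ℤ) + x / 2 * 2 = x by omega, h1] at h4
      omega
    · have h4 := hp 1 (x / 2)
      rw [show (1 : ℤ) + x / 2 * 2 = x by omega, h2] at h4
      omega

theorem pz_zero : pz.f 0 = 1 := rfl

theorem pz_one : pz.f 1 = 0 := rfl

theorem pm_zero : pm.f 0 = -1 := rfl

theorem pm_one : pm.f 1 = 2 := rfl

theorem cd_two (α : Pat 2) (h0 : pr 2 (α.f 0) = 1) (h1 : pr 2 (α.f 1) = 0) {D : Finset ℕ} (h : 1 ∈ D ↔ 0 ∉ D) : Cd α D := by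
  intro x hx
  rcases (show x = 0 ∨ x = 1 by omega) with h2 | h2
  · subst h2
    rw [Nat.cast_zero, h0]
    exact h
  · subst h2
    rw [Nat.cast_one, h1]
    tauto

theorem SS_two (α : Pat 2) (h0 : pr 2 (α.f 0) = 1) (h1 : pr 2 (α.f 1) = 0) {D : Finset ℕ} (hD : D ⊆ range 2) (h : 1 ∈ D ↔ 0 ∉ D) :
    SS 2 α D = r ^ (2 + ep D 0 * ex 2 1 0 (α.f 0) + ep D 1 * ex 2 1 1 (α.f 1)) := by
  rw [SS_in _ hD, PS_pos (cd_two α h0 h1 h), sum_range_succ, sum_range_one, Nat.cast_zero, Nat.cast_one, add_assoc, zpow_add₀ r_ne,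
    zpow_add₀ r_ne]
  have h5 : r ^ (2 : ℤ) = QS.s := by
    rw [show (2 : ℤ) = 2 * 1 by norm_num, r_two, zpow_one]
  have h6 : QS.s ^ (2 / 2) = QS.s := by norm_num
  rw [h5, h6, zpow_add₀ r_ne]

theorem pr_two (x : ℤ) : pr 2 x = (x % 2).toNat := rfl

theorem one_z : SS 2 pz {0} = 1 := by
  rw [SS_two pz rfl rfl (by decide) (by decide), pz_zero, pz_one]
  have e : (2 : ℤ) + ep {0} 0 * ex 2 1 0 1 + ep {0} 1 * ex 2 1 1 0 = 0 := by decide
  rw [e, zpow_zero]

theorem one_o : SS 2 pz {1} = -PX.om ^ 2 := by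
  rw [SS_two pz rfl rfl (by decide) (by decide), pz_zero, pz_one]
  have e : (2 : ℤ) + ep {1} 0 * ex 2 1 0 1 + ep {1} 1 * ex 2 1 1 0 = 4 := by decide
  rw [e, r_four]

theorem two_z : SS 2 pm {0} = PX.om := by
  rw [SS_two pm rfl rfl (by decide) (by decide), pm_zero, pm_one]
  have e : (2 : ℤ) + ep {0} 0 * ex 2 1 0 (-1) + ep {0} 1 * ex 2 1 1 2 = 4 + 4 := by decide
  rw [e, zpow_add₀ r_ne, r_four]
  linear_combination PX.om * PX.om_cube

theorem two_o : SS 2 pm {1} = -PX.om := by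
  rw [SS_two pm rfl rfl (by decide) (by decide), pm_zero, pm_one]
  have e : (2 : ℤ) + ep {1} 0 * ex 2 1 0 (-1) + ep {1} 1 * ex 2 1 1 2 = -4 := by decide
  rw [e, r_neg_four]

theorem cfn_two {D : Finset ℕ} (h : D ∈ PX.cfn 2 1) : D = {0} ∨ D = {1} := by
  obtain ⟨h1, h2⟩ := PX.mem_cfn.1 h
  obtain ⟨a, rfl⟩ := card_eq_one.1 h2
  have h3 := mem_range.1 (h1 (mem_singleton_self a))
  rcases (show a = 0 ∨ a = 1 by omega) with h4 | h4
  · left
    rw [h4]
  · right
    rw [h4]

theorem SS_span (v : PX.Vec) (hv : PX.Wt 2 1 v) : v ∈ Submodule.span ℂ (Set.range (SS 2)) := by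
  have hne : (1 : ℂ) - PX.om ≠ 0 := sub_ne_zero.2 PX.om_ne_one.symm
  have h1 : v = (v {0} - (PX.om ^ 2 * v {0} + v {1}) / (1 - PX.om) * PX.om) • SS 2 pz +
      ((PX.om ^ 2 * v {0} + v {1}) / (1 - PX.om)) • SS 2 pm := by
    funext D
    rw [Pi.add_apply, Pi.smul_apply, Pi.smul_apply, smul_eq_mul, smul_eq_mul]
    by_cases hD : D ∈ PX.cfn 2 1
    · rcases cfn_two hD with h | h
      · rw [h, one_z, two_z]
        ring
      · rw [h, one_o, two_o]
        have h2 : (PX.om ^ 2 * v {0} + v {1}) / (1 - PX.om) * (1 - PX.om) = PX.om ^ 2 * v {0} + v {1} := div_mul_cancel₀ _ hne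
        linear_combination (-1 : ℂ) * h2 + (-(PX.om ^ 2 * v {0} + v {1}) / (1 - PX.om)) * PX.om_cube
    · rw [hv D hD, SS_wt 2 pz D hD, SS_wt 2 pm D hD]
      ring
  rw [h1]
  exact Submodule.add_mem _ (Submodule.smul_mem _ _ (Submodule.subset_span ⟨pz, rfl⟩))
    (Submodule.smul_mem _ _ (Submodule.subset_span ⟨pm, rfl⟩))

theorem SS_one (α : Pat 2) : PX.Con 0 (SS 2 α) ∅ = 1 := by
  have h1 : PX.mk 0 ∅ = ∅ := Finset.map_empty _
  rw [PX.Con_apply, h1]
  have h2 : (insert 0 ∅ : Finset ℕ) = {0} := rfl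
  have h3 : (insert (0 + 1) ∅ : Finset ℕ) = {1} := rfl
  rw [h2, h3]
  rcases pat_two α with h | h
  · rw [h, one_z, one_o]
    linear_combination (-PX.om ^ 2) * PX.om_cube + PX.om_cube - PX.om * PX.om_eq
  · rw [h, two_z, two_o]
    linear_combination (-1 : ℂ) * PX.om_eq - PX.om * PX.om_cube

end SCH
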