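import Pool.Agent.Lib.MP_216314_pr.Sc.ScRel
import Pool.Agent.Lib.MP_216314_pr.K.KSum

/-!
# The cylinder: regions of the pattern and the open tiles in the universal cover; law of the pattern
-/

set_option autoImplicit false

noncomputable section

namespace SCH

open Finset FKI FKP FKH QS CD CY

/-- the face of a site of the cylinder -/
def ScCyl_fc (a n : ℕ) (u : XS) : ℤ × ℕ := (u.2 * (2 * n : ℕ) + ((u.1.1 : ℤ) - (2 * a + 1)), u.1.2)

theorem ScCyl_cs_js {a n : ℕ} (j : ℤ) (r h : ℕ) (h1 : r < 2 * n) :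
    cs a n (j * (2 * n : ℕ) + (r + 1)) h = ((2 * a + 2 + r, h), j) := by
  unfold cs
  have e : j * ((2 * n : ℕ) : ℤ) + (r + 1) - 1 = r + j * (2 * n : ℕ) := by ring
  have e1 : (r : ℤ) % (2 * n : ℕ) = r := Int.emod_eq_of_lt (by omega) (by exact_mod_cast h1)
  have e2 : (r : ℤ) / (2 * n : ℕ) = 0 := Int.ediv_eq_zero_of_lt (by omega) (by exact_mod_cast h1)
  rw [e, Int.add_mul_emod_self_right, Int.add_mul_ediv_right _ _ (by omega), e1, e2, zero_add, Int.toNat_natCast]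

theorem ScCyl_fc_cs {a n : ℕ} (hn : 1 ≤ n) (g : ℤ) (h : ℕ) : ScCyl_fc a n (cs a n g h) = (g, h) := by
  unfold ScCyl_fc cs
  have h1 := Int.emod_nonneg (g - 1) (show ((2 * n : ℕ) : ℤ) ≠ 0 by omega)
  have h2 := Int.emod_add_mul_ediv (g - 1) ((2 * n : ℕ) : ℤ)
  refine Prod.ext ?_ rfl
  show (g - 1) / ((2 * n : ℕ) : ℤ) * ((2 * n : ℕ) : ℤ) + (((2 * a + 2 + ((g - 1) % ((2 * n : ℕ) : ℤ)).toNat : ℕ) : ℤ) - (2 * a + 1)) = g
  have h3 : (((g - 1) % ((2 * n : ℕ) : ℤ)).toNat : ℤ) = (g - 1) % ((2 * n : ℕ) : ℤ) := Int.toNat_of_nonneg h1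
  push_cast at h2 h3 ⊢
  rw [h3]
  linarith

/-- the even gaps of the first pattern are alone -/
theorem ScCyl_acy {n : ℕ} (hn : 1 ≤ n) {g g' : ℤ} (h : Reg (acy n hn) g g') (hg : g % 2 = 0) : g' = g := by
  have e : ∀ x : ℤ, (acy n hn).f x = if x % 2 = 0 then x - 1 else x + 1 := fun _ => rfl
  have h1 := (h (g - 1)).1 (by
    rw [e, if_neg (by omega)]
    omega)
  rw [e, if_neg (by omega)] at h1
  omega

/-- the sites of a tile of the cylinder in the cover -/
theorem ScCyl_ek {a n N : ℕ} (hn : 1 ≤ n) {h k : ℕ} (hh : h < 2 * N) (hk : k < 2 * n) (j : ℤ) :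
    (if (k + h) % 2 = 0 then ek a (a + n) N (2 * a + 1 + k, h) (cs a n (j * (2 * n : ℕ) + k) h)
        (cs a n (j * (2 * n : ℕ) + k + 1) (h + 1))
      else ek a (a + n) N (2 * a + 1 + k, h) (cs a n (j * (2 * n : ℕ) + k + 1) h) (cs a n (j * (2 * n : ℕ) + k) (h + 1)) ∨
        ek a (a + n) N (2 * a + 1 + k, h) (cs a n (j * (2 * n : ℕ) + k) (h + 1)) (cs a n (j * (2 * n : ℕ) + k + 1) h)) := by
  have c1 : ∀ h' : ℕ, cs a n (j * (2 * n : ℕ) + k + 1) h' = ((2 * a + 2 + k, h'), j) := by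
    intro h'
    have := ScCyl_cs_js (a := a) j k h' hk
    rw [← add_assoc] at this
    exact this
  rcases Nat.eq_zero_or_pos k with h0 | h0
  · subst h0
    have c2 : ∀ h' : ℕ, cs a n (j * (2 * n : ℕ) + (0 : ℕ)) h' = ((2 * (a + n) + 1, h'), j - 1) := by
      intro h'
      have := ScCyl_cs_js (a := a) (n := n) (j - 1) (2 * n - 1) h' (by omega)
      have e : (j - 1) * ((2 * n : ℕ) : ℤ) + (((2 * n - 1 : ℕ) : ℤ) + 1) = j * (2 * n : ℕ) + (0 : ℕ) := by
        have : ((2 * n - 1 : ℕ) : ℤ) = (2 * n : ℕ) - 1 := by omega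
        rw [this]
        push_cast
        ring
      rw [e] at this
      rw [this]
      have e2 : 2 * a + 2 + (2 * n - 1) = 2 * (a + n) + 1 := by omega
      rw [e2]
    split_ifs with hp
    · refine ⟨j, ?_⟩
      rw [if_pos ⟨rfl, hh⟩, c1, c2]
      have e1 : h % 2 = 0 := by omega
      have e2 : (h + 1) % 2 = 1 := by omega
      show _ = ((2 * (a + n) + 1, h + h % 2), j - 1) ∧ _ = ((2 * a + 2, h + (h + 1) % 2), j)
      rw [e1, e2]
      exact ⟨rfl, rfl⟩
    · right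
      refine ⟨j, ?_⟩
      rw [if_pos ⟨rfl, hh⟩, c1, c2]
      have e1 : h % 2 = 1 := by omega
      have e2 : (h + 1) % 2 = 0 := by omega
      show _ = ((2 * (a + n) + 1, h + h % 2), j - 1) ∧ _ = ((2 * a + 2, h + (h + 1) % 2), j)
      rw [e1, e2]
      exact ⟨rfl, rfl⟩
  · have c2 : ∀ h' : ℕ, cs a n (j * (2 * n : ℕ) + k) h' = ((2 * a + 1 + k, h'), j) := by
      intro h'
      have := ScCyl_cs_js (a := a) (n := n) j (k - 1) h' (by omega)
      have e : (((k - 1 : ℕ) : ℤ) + 1) = k := by omega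
      rw [e] at this
      rw [this]
      have e2 : 2 * a + 2 + (k - 1) = 2 * a + 1 + k := by omega
      rw [e2]
    have hne : ¬ ((2 * a + 1 + k, h) : ℕ × ℕ).1 = 2 * a + 1 := by
      show ¬ 2 * a + 1 + k = 2 * a + 1
      omega
    split_ifs with hp
    · refine ⟨j, ?_⟩
      rw [if_neg (fun c => hne c.1), c1, c2]
      unfold lo hi
      rw [if_pos (show (2 * a + 1 + k + h) % 2 = 1 by omega), if_pos (show (2 * a + 1 + k + h) % 2 = 1 by omega)]
      have e2 : 2 * a + 2 + k = 2 * a + 1 + k + 1 := by omega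
      rw [e2]
      exact ⟨rfl, rfl⟩
    · left
      refine ⟨j, ?_⟩
      rw [if_neg (fun c => hne c.1), c1, c2]
      unfold lo hi
      rw [if_neg (show ¬ (2 * a + 1 + k + h) % 2 = 1 by omega), if_neg (show ¬ (2 * a + 1 + k + h) % 2 = 1 by omega)]
      have e2 : 2 * a + 2 + k = 2 * a + 1 + k + 1 := by omega
      rw [e2]
      exact ⟨rfl, rfl⟩

theorem ScCyl_fwd {a n N : ℕ} (hn : 1 ≤ n) {c : Finset (ℕ × ℕ)} {u v : ℤ × ℕ}
    (h : Relation.EqvGen (FE (Reg (acy n hn)) (2 * n) (tC a c) (2 * N)) u v) :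
    ((u.1 + u.2) % 2 = 0 ↔ (v.1 + v.2) % 2 = 0) ∧
      ((u.1 + u.2) % 2 = 0 → Relation.EqvGen (RC a (a + n) N c) (cs a n u.1 u.2) (cs a n v.1 v.2)) := by
  induction h with
  | rel u v h =>
    rcases h with ⟨h1, h2, h3⟩ | ⟨h, k, h1, h2, j, h3⟩
    · rw [h1, h2]
      have hu : ∀ g : ℤ, (g + ((0 : ℕ) : ℤ)) % 2 = 0 ↔ g % 2 = 0 := by
        intro g
        simp
      rw [hu, hu]
      refine ⟨⟨fun e => ?_, fun e => ?_⟩, fun e => ?_⟩
      · rw [ScCyl_acy hn h3 e]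
        exact e
      · rw [ScCyl_acy hn (reg_symm _ h3) e]
        exact e
      · rw [ScCyl_acy hn h3 e]
        exact Relation.EqvGen.refl _
    · have hek := ScCyl_ek (a := a) hn h1 h2 j
      have hj : ∃ w : ℤ, j * ((2 * n : ℕ) : ℤ) = 2 * w := ⟨j * n, by push_cast; ring⟩
      obtain ⟨w, hw⟩ := hj
      rcases h3 with ⟨h3, h4, h5⟩ | ⟨h3, h4, h5⟩
      · rw [h4, h5]
        refine ⟨?_, fun e => ?_⟩
        · show (j * ((2 * n : ℕ) : ℤ) + k + (h : ℕ)) % 2 = 0 ↔ (j * ((2 * n : ℕ) : ℤ) + k + 1 + ((h + 1 : ℕ) : ℤ)) % 2 = 0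
          rw [hw]
          omega
        · have e' : (j * ((2 * n : ℕ) : ℤ) + k + (h : ℕ)) % 2 = 0 := e
          rw [hw] at e'
          have e1 : (k + h) % 2 = 0 := by omega
          rw [if_pos e1] at hek
          unfold tC at h3
          rw [not_not] at h3
          exact Relation.EqvGen.rel _ _ ⟨_, h3.1 e1, hek⟩
      · rw [h4, h5]
        refine ⟨?_, fun e => ?_⟩
        · show (j * ((2 * n : ℕ) : ℤ) + k + ((h + 1 : ℕ) : ℤ)) % 2 = 0 ↔ (j * ((2 * n : ℕ) : ℤ) + k + 1 + (h : ℕ)) % 2 = 0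
          rw [hw]
          omega
        · have e' : (j * ((2 * n : ℕ) : ℤ) + k + ((h + 1 : ℕ) : ℤ)) % 2 = 0 := e
          rw [hw] at e'
          have e1 : ¬ (k + h) % 2 = 0 := by omega
          rw [if_neg e1] at hek
          have h6 : (2 * a + 1 + k, h) ∈ c := by
            by_contra hc
            exact h3 ⟨fun c1 => absurd c1 e1, fun c1 => absurd c1 hc⟩
          rcases hek with hek | hek
          · exact (Relation.EqvGen.rel _ _ ⟨_, h6, hek⟩).symm _ _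
          · exact Relation.EqvGen.rel _ _ ⟨_, h6, hek⟩
  | refl u => exact ⟨Iff.rfl, fun _ => Relation.EqvGen.refl _⟩
  | symm u v _ ih => exact ⟨ih.1.symm, fun e => (ih.2 (ih.1.2 e)).symm _ _⟩
  | trans u v w _ _ ih1 ih2 => exact ⟨ih1.1.trans ih2.1, fun e => (ih1.2 e).trans _ _ _ (ih2.2 (ih1.1.1 e))⟩

theorem ScCyl_fe {a n N : ℕ} (hn : 1 ≤ n) {c : Finset (ℕ × ℕ)} (hc : c ⊆ TC a n N) {u v : XS} (h : RC a (a + n) N c u v) :
    Relation.EqvGen (FE (Reg (acy n hn)) (2 * n) (tC a c) (2 * N)) (ScCyl_fc a n u) (ScCyl_fc a n v) := by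
  obtain ⟨t, ht, j, hj⟩ := h
  have hT := hc ht
  unfold TC at hT
  rw [mem_product, mem_Icc, mem_range] at hT
  obtain ⟨x, y⟩ := t
  have hx : 2 * a + 1 ≤ x ∧ x ≤ 2 * (a + n) := hT.1
  have hy : y < 2 * N := hT.2
  obtain ⟨k, hk⟩ : ∃ k, x = 2 * a + 1 + k := ⟨x - (2 * a + 1), by omega⟩
  subst hk
  have hkn : k < 2 * n := by omega
  -- the two faces
  have key : (if (k + y) % 2 = 0 then
        ScCyl_fc a n u = (j * (2 * n : ℕ) + k, y) ∧ ScCyl_fc a n v = (j * (2 * n : ℕ) + k + 1, y + 1)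
      else (ScCyl_fc a n u = (j * (2 * n : ℕ) + k, y + 1) ∧ ScCyl_fc a n v = (j * (2 * n : ℕ) + k + 1, y)) ∨
        (ScCyl_fc a n v = (j * (2 * n : ℕ) + k, y + 1) ∧ ScCyl_fc a n u = (j * (2 * n : ℕ) + k + 1, y))) := by
    by_cases h0 : k = 0
    · subst h0
      rw [if_pos ⟨rfl, hy⟩] at hj
      obtain ⟨h1, h2⟩ := hj
      have e1 : u = ((2 * (a + n) + 1, y + y % 2), j - 1) := h1
      have e2 : v = ((2 * a + 2, y + (y + 1) % 2), j) := h2
      rw [e1, e2]
      unfold ScCyl_fc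
      split_ifs with hp
      · have e3 : y % 2 = 0 := by omega
        have e4 : (y + 1) % 2 = 1 := by omega
        rw [e3, e4]
        refine ⟨Prod.ext ?_ rfl, Prod.ext ?_ rfl⟩
        · push_cast
          ring
        · push_cast
          ring
      · have e3 : y % 2 = 1 := by omega
        have e4 : (y + 1) % 2 = 0 := by omega
        rw [e3, e4]
        left
        refine ⟨Prod.ext ?_ rfl, Prod.ext ?_ rfl⟩
        · push_cast
          ring
        · push_cast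
          ring
    · rw [if_neg (fun c1 => h0 (by
        have : 2 * a + 1 + k = 2 * a + 1 := c1.1
        omega))] at hj
      obtain ⟨h1, h2⟩ := hj
      unfold lo at h1
      unfold hi at h2
      rw [h1, h2]
      unfold ScCyl_fc
      split_ifs with hp1 hp2 hp2
      · refine ⟨Prod.ext ?_ rfl, Prod.ext ?_ rfl⟩
        · push_cast
          ring
        · push_cast
          ring
      · exact absurd (show (2 * a + 1 + k + y) % 2 = 1 by omega) hp2
      · exact absurd (show (k + y) % 2 = 0 by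
          have : (2 * a + 1 + k + y) % 2 = 1 := hp2
          omega) hp1
      · right
        refine ⟨Prod.ext ?_ rfl, Prod.ext ?_ rfl⟩
        · push_cast
          ring
        · push_cast
          ring
  split_ifs at key with hp
  · rw [key.1, key.2]
    refine Relation.EqvGen.rel _ _ (Or.inr ⟨y, k, hy, hkn, j, Or.inl ⟨?_, rfl, rfl⟩⟩)
    unfold tC
    rw [not_not]
    exact ⟨fun _ => ht, fun _ => hp⟩
  · have htC : tC a c y k := by
      unfold tC
      exact fun c1 => hp (c1.2 ht)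
    rcases key with ⟨k1, k2⟩ | ⟨k1, k2⟩
    · rw [k1, k2]
      exact Relation.EqvGen.rel _ _ (Or.inr ⟨y, k, hy, hkn, j, Or.inr ⟨htC, rfl, rfl⟩⟩)
    · rw [k1, k2]
      exact Relation.EqvGen.symm _ _ (Relation.EqvGen.rel _ _ (Or.inr ⟨y, k, hy, hkn, j, Or.inr ⟨htC, rfl, rfl⟩⟩))

/-- the even gaps of the pattern are the sites of the upper end of the cylinder -/
theorem cyl_reg {a n N : ℕ} (hn : 1 ≤ n) {c : Finset (ℕ × ℕ)} (hc : c ⊆ TC a n N) {g g' : ℤ} (h1 : (2 : ℤ) ∣ g) (_h2 : (2 : ℤ) ∣ g') :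
    Reg (pats (tC a c) (acy n hn) (2 * N)) g g' ↔
      Relation.EqvGen (RC a (a + n) N c) (cs a n g (2 * N)) (cs a n g' (2 * N)) := by
  rw [reg_pats]
  constructor
  · intro h
    refine (ScCyl_fwd hn h).2 ?_
    show (g + ((2 * N : ℕ) : ℤ)) % 2 = 0
    omega
  · intro h
    have h3 : Relation.EqvGen (FE (Reg (acy n hn)) (2 * n) (tC a c) (2 * N)) (ScCyl_fc a n (cs a n g (2 * N)))
        (ScCyl_fc a n (cs a n g' (2 * N))) := gen_map (ScCyl_fc a n) (fun u v huv => ScCyl_fe hn hc huv) h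
    rwa [ScCyl_fc_cs hn, ScCyl_fc_cs hn] at h3

/-- tiles as edges -/
def ScCyl_te : (ℕ × ℕ) ↪ Edge := ⟨fun t => ((t.1 : ℤ), (t.2 : ℤ), true), fun t t' h => by
  simp only [Prod.mk.injEq, Nat.cast_inj, and_true] at h
  exact Prod.ext h.1 h.2⟩

theorem ScCyl_te_apply (t : ℕ × ℕ) : ScCyl_te t = ((t.1 : ℤ), (t.2 : ℤ), true) := rfl

theorem ScCyl_RE (a n N : ℕ) : RE (fun h k => ScCyl_te (2 * a + 1 + k, h)) (2 * n) (2 * N) = (TC a n N).map ScCyl_te := by
  ext e
  rw [mem_RE, mem_map]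
  unfold TC
  constructor
  · rintro ⟨i, k, h1, h2, h3⟩
    refine ⟨(2 * a + 1 + k, i), ?_, h3⟩
    rw [mem_product, mem_Icc, mem_range]
    exact ⟨⟨by show 2 * a + 1 ≤ 2 * a + 1 + k; omega, by show 2 * a + 1 + k ≤ 2 * (a + n); omega⟩, h1⟩
  · rintro ⟨⟨x, y⟩, h1, h2⟩
    rw [mem_product, mem_Icc, mem_range] at h1
    have hx : 2 * a + 1 ≤ x ∧ x ≤ 2 * (a + n) := h1.1
    refine ⟨y, x - (2 * a + 1), h1.2, by omega, ?_⟩
    have e3 : 2 * a + 1 + (x - (2 * a + 1)) = x := by omega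
    show ScCyl_te (2 * a + 1 + (x - (2 * a + 1)), y) = e
    rw [e3]
    exact h2

/-- the law of the pattern -/
theorem cyl_law {a n N : ℕ} (hn : 1 ≤ n) (f : Pat (2 * n) → ℂ) :
    ∑ c ∈ (TC a n N).powerset, f (pats (tC a c) (acy n hn) (2 * N)) =
      2 ^ (TC a n N).card * ∑ b, ((⇑(TT : V (2 * n) →ₗ[ℂ] V (2 * n)))^[2 * N] (Pi.single (acy n hn) 1)) b * f b := by
  classical
  have hinj : ∀ h k h' k' : ℕ, h < 2 * N → k < 2 * n → h' < 2 * N → k' < 2 * n →
      ScCyl_te (2 * a + 1 + k, h) = ScCyl_te (2 * a + 1 + k', h') → h = h' ∧ k = k' := by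
    intro h k h' k' _ _ _ _ he
    have h1 := ScCyl_te.injective he
    rw [Prod.mk.injEq] at h1
    exact ⟨h1.2, by omega⟩
  have hlaw := law_rows (fun h k => ScCyl_te (2 * a + 1 + k, h)) (fun h k => (k + h) % 2 = 0) hinj (acy n hn) (2 * N) le_rfl
  rw [ScCyl_RE, card_map] at hlaw
  -- transfer of the sum
  have hsum : ∀ F : Finset Edge → ℂ, ∑ ω ∈ ((TC a n N).map ScCyl_te).powerset, F ω =
      ∑ c ∈ (TC a n N).powerset, F (c.map ScCyl_te) := by
    intro F
    symm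
    refine sum_bij (fun c _ => c.map ScCyl_te) ?_ ?_ ?_ ?_
    · intro c hc
      rw [mem_powerset] at hc ⊢
      exact map_subset_map.2 hc
    · intro c _ c' _ h
      exact map_injective ScCyl_te h
    · intro ω hω
      rw [mem_powerset] at hω
      refine ⟨(TC a n N).filter (fun t => ScCyl_te t ∈ ω), mem_powerset.2 (filter_subset _ _), ?_⟩
      ext e
      rw [mem_map]
      constructor
      · rintro ⟨t, h1, h2⟩
        rw [← h2]
        exact (mem_filter.1 h1).2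
      · intro he
        obtain ⟨t, h1, h2⟩ := mem_map.1 (hω he)
        exact ⟨t, mem_filter.2 ⟨h1, by rw [h2]; exact he⟩, h2⟩
    · intro c _
      rfl
  have hpat : ∀ c : Finset (ℕ × ℕ), pats (CY.LT (fun h k => ScCyl_te (2 * a + 1 + k, h)) (fun h k => (k + h) % 2 = 0)
      (c.map ScCyl_te)) (acy n hn) (2 * N) = pats (tC a c) (acy n hn) (2 * N) := by
    intro c
    refine pats_congr _ _ fun i _ k _ => ?_
    unfold CY.LT tC
    rw [mem_map']
  have e1 : ∀ c ∈ (TC a n N).powerset, f (pats (tC a c) (acy n hn) (2 * N)) =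
      ∑ b, (if pats (tC a c) (acy n hn) (2 * N) = b then (1 : ℂ) else 0) * f b := by
    intro c _
    rw [sum_eq_single (pats (tC a c) (acy n hn) (2 * N))]
    · rw [if_pos rfl, one_mul]
    · intro b _ hb
      rw [if_neg (fun h => hb h.symm), zero_mul]
    · intro h
      exact absurd (mem_univ _) h
  rw [sum_congr rfl e1, sum_comm, mul_sum]
  refine sum_congr rfl fun b _ => ?_
  rw [← sum_mul, ← mul_assoc, ← hlaw b, hsum]
  congr 1
  refine sum_congr rfl fun c _ => ?_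
  rw [hpat c]

end SCH
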