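import Pool.Agent.Lib.MP_216314_pr.P.PBase

/-!
# Critical bond percolation on the square lattice with one cylinder end

The surface `S(c,n)`: the strip `0 ≤ x + y ≤ c + 2 n`, cut along the line `x + y = c` below the tip; the part on the left of the cut is
a half strip, in the part on the right of the cut the line `x + y = c` is glued to the line `x + y = c + 2 n` by `(x,y) ↦ (x+n,y+n)`:
it is a half-infinite cylinder of circumference `2 n`.

`sE c n K`: the edges of the square lattice with both end points in `0 ≤ x + y ≤ c + 2 n`, `|x - y| ≤ K`.
The marked edges are the edges which join `x + y = c` to `x + y = c + 1`. `sa c n e`: the first end point of the edge `e` in the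
surface; a marked edge whose end point on `x + y = c + 1` is in `x < y` starts at `(x + n, y + n)` instead of `(x, y)`.
`St c n ω`: one step along an open edge in the double cover in which the marked edges change the sheet.
`RB c n`: right boundary of the surface, that is the line `x + y = c` below the tip and the line `x + y = c + 2 n` above the tip.
`Sr c n ω`: there is an open walk from the right boundary to itself with an odd number of marked edges: the open clusters of the
right boundary separate the end of the cylinder from the left boundary.
`sr c n K`: its probability (all edges open with probability `1/2`, independently) in the surface truncated at `|x - y| ≤ K`. It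
increases with `K`; `sri c n`, its supremum over `K`, is the probability for the infinite surface.
-/

set_option autoImplicit false

noncomputable section

namespace SCH

open Finset FKI FKP

/-- edges of the surface in `|x - y| ≤ K` -/
def sE (c n K : ℕ) : Finset Edge :=
  (box (-((c : ℤ) + 2 * n + K)) (c + 2 * n + K) (-((c : ℤ) + 2 * n + K)) (c + 2 * n + K)).filter (fun e =>
    (0 ≤ (ea e).1 + (ea e).2 ∧ (eb e).1 + (eb e).2 ≤ (c : ℤ) + 2 * n) ∧
    (|(ea e).1 - (ea e).2| ≤ (K : ℤ) ∧ |(eb e).1 - (eb e).2| ≤ (K : ℤ)))

/-- first end point of an edge in the surface -/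
def sa (c n : ℕ) (e : Edge) : V :=
  if (ea e).1 + (ea e).2 = (c : ℤ) ∧ (eb e).1 < (eb e).2 then ((ea e).1 + n, (ea e).2 + n) else ea e

/-- one step in the double cover -/
def St (c n : ℕ) (ω : Finset Edge) (u v : V × ZMod 2) : Prop :=
  ∃ e ∈ ω, u.1 = sa c n e ∧ v.1 = eb e ∧ v.2 = u.2 + if (ea e).1 + (ea e).2 = (c : ℤ) then 1 else 0

/-- the right boundary -/
def RB (c n : ℕ) (v : V) : Prop :=
  (v.1 + v.2 = (c : ℤ) ∧ v.1 ≤ v.2) ∨ (v.1 + v.2 = (c : ℤ) + 2 * n ∧ v.2 ≤ v.1 + 1)

/-- an open walk from the right boundary to itself with an odd number of marked edges -/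
def Sr (c n : ℕ) (ω : Finset Edge) : Prop :=
  ∃ u v : V, RB c n u ∧ RB c n v ∧ Relation.EqvGen (St c n ω) (u, 0) (v, 1)

/-- its probability in the truncated surface -/
def sr (c n K : ℕ) : ℝ := Pr (sE c n K) (Sr c n)

/-- its probability in the infinite surface -/
def sri (c n : ℕ) : ℝ := ⨆ K : ℕ, sr c n K

end SCH
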