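import Pool.Agent.Lib.MP_216314_pr.Sc.ScDef
import Pool.Agent.Lib.MP_216314_pr.P.PProbB
import Pool.Agent.Lib.MP_216314_pr.P.PSymC

/-!
# Monotonicity
-/

set_option autoImplicit false

noncomputable section

namespace SCH

open Finset FKI FKP Filter Topology

theorem ScMono_mem {c n K : ℕ} {e : Edge} : e ∈ sE c n K ↔
    (0 ≤ (ea e).1 + (ea e).2 ∧ (eb e).1 + (eb e).2 ≤ (c : ℤ) + 2 * n) ∧
      (|(ea e).1 - (ea e).2| ≤ (K : ℤ) ∧ |(eb e).1 - (eb e).2| ≤ (K : ℤ)) := by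
  unfold sE
  rw [mem_filter, mem_box]
  constructor
  · exact fun h => h.2
  · intro h
    refine ⟨?_, h⟩
    have h1 := abs_le.1 h.2.1
    have h2 := abs_le.1 h.2.2
    obtain ⟨x, y, t⟩ := e
    cases t
    · simp only [ea, eb] at h h1 h2 ⊢
      simp at h h1 h2 ⊢
      omega
    · simp only [ea, eb] at h h1 h2 ⊢
      simp at h h1 h2 ⊢
      omega

theorem ScMono_map {X Y : Type} {r : X → X → Prop} {r' : Y → Y → Prop} (f : X → Y)
    (h : ∀ u v, r u v → r' (f u) (f v)) {u v : X} (huv : Relation.EqvGen r u v) :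
    Relation.EqvGen r' (f u) (f v) := by
  induction huv with
  | rel u v h1 => exact Relation.EqvGen.rel _ _ (h u v h1)
  | refl u => exact Relation.EqvGen.refl _
  | symm u v _ ih => exact ih.symm _ _
  | trans u v w _ _ ih1 ih2 => exact ih1.trans _ _ _ ih2

theorem Sr_inc (c n : ℕ) : Inc (Sr c n) := by
  rintro ω ω' h ⟨u, v, h1, h2, h3⟩
  refine ⟨u, v, h1, h2, ScMono_map id (fun u v huv => ?_) h3⟩
  obtain ⟨e, he, h4⟩ := huv
  exact ⟨e, h he, h4⟩

theorem sE_mono {c n K K' : ℕ} (h : K ≤ K') : sE c n K ⊆ sE c n K' := by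
  intro e he
  rw [ScMono_mem] at he ⊢
  have h' : (K : ℤ) ≤ K' := Int.ofNat_le.2 h
  exact ⟨he.1, he.2.1.trans h', he.2.2.trans h'⟩

theorem sr_nonneg (c n K : ℕ) : 0 ≤ sr c n K := Pr_nonneg _ _

theorem sr_le_one (c n K : ℕ) : sr c n K ≤ 1 := Pr_le_one _ _

/-- in the height -/
theorem sr_mono {c n K K' : ℕ} (h : K ≤ K') : sr c n K ≤ sr c n K' := Pr_super (sE_mono h) (Sr_inc c n)

theorem sri_tendsto (c n : ℕ) : Tendsto (fun K => sr c n K) atTop (𝓝 (sri c n)) :=
  tendsto_atTop_ciSup (fun _ _ h => sr_mono h) ⟨1, by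
    rintro _ ⟨K, rfl⟩
    exact sr_le_one c n K⟩

/-- translation by `(x, y)`, `x + y = 1` -/
theorem ScMono_shift {c n K : ℕ} (x y : ℤ) (hxy : x + y = 1) (hx : 0 ≤ x) (hy : 0 ≤ y)
    (hS : ∀ a b : ℤ, a + b = (c : ℤ) + 1 → (a < b ↔ a + x < b + y))
    (hA : ∀ u : V, u.1 + u.2 = (c : ℤ) → u.1 ≤ u.2 → u.1 + x ≤ u.2 + y)
    (hB : ∀ u : V, u.1 + u.2 = (c : ℤ) + 2 * n → u.2 ≤ u.1 + 1 → u.2 + y ≤ u.1 + x + 1) :
    sr c n K ≤ sr (c + 1) n (K + 1) := by
  have habs : ∀ p q : ℤ, |p - q| ≤ (K : ℤ) → |p + x - (q + y)| ≤ ((K + 1 : ℕ) : ℤ) := by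
    intro p q h
    rw [abs_le] at h ⊢
    push_cast
    constructor
    · linarith [h.1]
    · linarith [h.2]
  have hea : ∀ e : Edge, ea (shE x y e) = shV x y (ea e) := by
    rintro ⟨p, q, t⟩
    cases t <;> rfl
  have heb : ∀ e : Edge, eb (shE x y e) = shV x y (eb e) := by
    rintro ⟨p, q, t⟩
    cases t
    · show ((p + x + 1, q + y) : V) = (p + 1 + x, q + y)
      exact Prod.ext (by show p + x + 1 = p + 1 + x; ring) rfl
    · show ((p + x, q + y + 1) : V) = (p + x, q + 1 + y)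
      exact Prod.ext rfl (by show q + y + 1 = q + 1 + y; ring)
  have hab : ∀ e : Edge, (eb e).1 + (eb e).2 = (ea e).1 + (ea e).2 + 1 := by
    rintro ⟨p, q, t⟩
    cases t
    · show p + 1 + q = p + q + 1
      ring
    · show p + (q + 1) = p + q + 1
      ring
  have hV : ∀ u : V, shV x y u = (u.1 + x, u.2 + y) := fun _ => rfl
  have h1 : (sE c n K).map (shE x y).toEmbedding ⊆ sE (c + 1) n (K + 1) := by
    intro e he
    rw [Finset.mem_map] at he
    obtain ⟨e', he', rfl⟩ := he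
    show shE x y e' ∈ _
    rw [ScMono_mem] at he' ⊢
    rw [hea, heb, hV, hV]
    refine ⟨⟨?_, ?_⟩, habs _ _ he'.2.1, habs _ _ he'.2.2⟩
    · show 0 ≤ (ea e').1 + x + ((ea e').2 + y)
      linarith [he'.1.1]
    · show (eb e').1 + x + ((eb e').2 + y) ≤ _
      push_cast
      linarith [he'.1.2]
  have h2 := Pr_super h1 (Sr_inc (c + 1) n)
  rw [Pr_map] at h2
  refine le_trans (Pr_mono fun ω hω hC => ?_) h2
  obtain ⟨u, v, h3, h4, h5⟩ := hC
  have hR : ∀ u : V, RB c n u → RB (c + 1) n (shV x y u) := by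
    intro u hu
    rw [hV]
    rcases hu with hu | hu
    · left
      refine ⟨?_, hA u hu.1 hu.2⟩
      show u.1 + x + (u.2 + y) = _
      push_cast
      linarith [hu.1]
    · right
      refine ⟨?_, hB u hu.1 hu.2⟩
      show u.1 + x + (u.2 + y) = _
      push_cast
      linarith [hu.1]
  refine ⟨shV x y u, shV x y v, hR u h3, hR v h4, ?_⟩
  refine ScMono_map (fun w : V × ZMod 2 => (shV x y w.1, w.2)) (fun u v huv => ?_) h5
  obtain ⟨e, he, g1, g2, g3⟩ := huv
  have hc : (ea (shE x y e)).1 + (ea (shE x y e)).2 = ((c + 1 : ℕ) : ℤ) ↔ (ea e).1 + (ea e).2 = (c : ℤ) := by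
    rw [hea, hV]
    show (ea e).1 + x + ((ea e).2 + y) = _ ↔ _
    push_cast
    constructor
    · intro h
      linarith
    · intro h
      linarith
  refine ⟨shE x y e, Finset.mem_map.2 ⟨e, he, rfl⟩, ?_, ?_, ?_⟩
  · show shV x y u.1 = sa (c + 1) n (shE x y e)
    rw [g1]
    unfold sa
    by_cases c1 : (ea e).1 + (ea e).2 = (c : ℤ)
    · have h6 := hS (eb e).1 (eb e).2 (by rw [hab, c1])
      by_cases c2 : (eb e).1 < (eb e).2
      · rw [if_pos ⟨c1, c2⟩, if_pos ⟨hc.2 c1, by rw [heb]; exact h6.1 c2⟩, hea, hV, hV]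
        exact Prod.ext (by show (ea e).1 + n + x = (ea e).1 + x + n; ring) (by show (ea e).2 + n + y = (ea e).2 + y + n; ring)
      · rw [if_neg (fun h => c2 h.2), if_neg (fun h => c2 (h6.2 (by
          have := h.2
          rw [heb] at this
          exact this))), hea]
    · rw [if_neg (fun h => c1 h.1), if_neg (fun h => c1 (hc.1 h.1)), hea]
  · show shV x y v.1 = eb (shE x y e)
    rw [g2, heb]
  · show v.2 = u.2 + _
    rw [g3]
    by_cases c1 : (ea e).1 + (ea e).2 = (c : ℤ)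
    · rw [if_pos c1, if_pos (hc.2 c1)]
    · rw [if_neg c1, if_neg (fun h => c1 (hc.1 h))]

theorem sr_left (c n K : ℕ) : sr c n K ≤ sr (c + 1) n (K + 1) := by
  rcases Nat.even_or_odd c with ⟨m, hm⟩ | ⟨m, hm⟩
  · refine ScMono_shift 0 1 (by norm_num) (by norm_num) (by norm_num) ?_ ?_ ?_
    · intro a b h
      omega
    · intro u _ h
      omega
    · intro u h1 h2
      omega
  · refine ScMono_shift 1 0 (by norm_num) (by norm_num) (by norm_num) ?_ ?_ ?_
    · intro a b h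
      omega
    · intro u h1 h2
      omega
    · intro u h1 h2
      omega

/-- in the width of the left strip -/
theorem sri_left (c n : ℕ) : sri c n ≤ sri (c + 1) n :=
  le_of_tendsto_of_tendsto' (sri_tendsto c n) ((sri_tendsto (c + 1) n).comp (tendsto_add_atTop_nat 1)) fun K => sr_left c n K

end SCH
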