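import Pool.Agent.Lib.MP_216314_pr.Sc.ScMean
import Pool.Agent.Lib.MP_216314_pr.Sc.ScMono
import Pool.Agent.Lib.MP_216314_pr.Sc.SPa
import Pool.Agent.Lib.MP_216314_pr.Sc.PSIns
import Pool.Agent.Lib.MP_216314_pr.CV.Im2
import Pool.Agent.Lib.MP_216314_pr.CV.VOne
import Pool.Agent.Lib.MP_216314_pr.CV.MsOne
import Pool.Agent.Lib.MP_216314_pr.CF.Fin
import Pool.Agent.Lib.MP_216314_pr.Z.Ex

/-!
# The exact probability

The limit vector of the cylinder is the vector `Ht n 1` divided by its word value; the pairing of the limit vectors is the value at `1` of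
`CV.V`.
-/

set_option autoImplicit false

noncomputable section

namespace SCH

open Finset Filter Topology

/-! ### The pattern vectors -/

theorem SS_ins (L : ℕ) (α : CY.Pat L) (i : ℕ) (hi : i ≤ L) : SS (L + 2) (CY.Pat.ins (i : ℤ) α) = PX.Ins i (SS L α) := by
  funext D
  rw [PX.Ins_apply]
  by_cases h : D ⊆ range (L + 2)
  · have h1 : PX.rm i D ⊆ range L := by
      intro x hx
      rw [PX.mem_rm] at hx
      have := mem_range.1 (h hx)
      unfold PX.up at this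
      rw [mem_range]
      split_ifs at this <;> omega
    have h2 : (L + 2) / 2 = L / 2 + 1 := by omega
    have hs : QS.s ≠ 0 := QS.s_ne
    rw [SS_in _ h, SS_in _ h1, PS_ins hi, h2, pow_succ]
    unfold PX.cc
    split_ifs
    · ring
    · field_simp
    · rw [← PX.s_sq]
      ring
    · ring
  · have h1 : ¬ PX.rm i D ⊆ range L := by
      intro hr
      apply h
      intro x hx
      by_contra hx2
      rw [mem_range] at hx2
      have h3 : x - 2 ∈ PX.rm i D := by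
        rw [PX.mem_rm]
        have e : PX.up i (x - 2) = x := by
          unfold PX.up
          rw [if_neg (by omega)]
          omega
        rw [e]
        exact hx
      have := mem_range.1 (hr h3)
      omega
    rw [SS_out _ h, SS_out _ h1, mul_zero]

theorem SS_SP : CV.SP SS where
  wt := SS_wt
  ins := SS_ins
  e := SS_e
  rot := SS_rot
  two := SS_span
  one := SS_one

/-! ### The limit vector of the cylinder -/

/-- word value of `Ht n 1` -/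
def wv (n : ℕ) : ℂ := CV.fc n (CV.Ht n fun _ => 1)

theorem fc_Wd (n : ℕ) : ∃ f : PX.Vec →ₗ[ℂ] ℂ, CW.Wd ∅ (2 * n) f ∧ ∀ v, f v = CV.fc n v := by
  induction n with
  | zero => exact ⟨CW.ev ∅, CW.Wd.zero, fun v => rfl⟩
  | succ n ih =>
    obtain ⟨f, hf, h⟩ := ih
    refine ⟨f.comp (PX.Con 0), CW.Wd.step 0 (Nat.zero_le _) hf, fun v => ?_⟩
    rw [LinearMap.comp_apply, h, CV.fc_succ]

theorem wv_eq (n : ℕ) : wv n = CW.kc n * CZ.MS CZ.yb' (Multiset.replicate (2 * n) 1) := by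
  obtain ⟨f, hf, h⟩ := fc_Wd n
  unfold wv
  rw [← h]
  exact CW.Ht_Ms_one n f hf

theorem om_q : PX.om ^ 2 + PX.om + 1 = 0 := by linear_combination PX.om_eq

/-- the limit vector -/
def Phi (n : ℕ) : QS.Vc := fun D => (QS.s ^ n)⁻¹ * ((wv n)⁻¹ * CV.Ht n (fun _ => 1) D)

theorem wv_ne {n : ℕ} (hn : 1 ≤ n) : wv n ≠ 0 := by
  obtain ⟨P, hP⟩ := CY.exists_psi om_q (show 0 < 2 * n by omega) (even_two_mul n)
  exact (CV.S2_inv SS_SP hn om_q hP).1

theorem S2_apply {n : ℕ} (v : CY.V (2 * n)) {D : Finset ℕ} (hD : D ⊆ range (2 * n)) :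
    CV.S2 SS v D = QS.s ^ n * ∑ b, v b * PS 1 b D := by
  have h1 : (2 * n) / 2 = n := by omega
  unfold CV.S2
  rw [Finset.sum_apply, mul_sum]
  refine sum_congr rfl fun b _ => ?_
  rw [Pi.smul_apply, smul_eq_mul, SS_in _ hD, h1]
  ring

theorem cv_tendsto {n : ℕ} (hn : 1 ≤ n) {D : Finset ℕ} (hD : D ⊆ range (2 * n)) :
    Tendsto (fun M => cv hn M D) atTop (𝓝 (Phi n D)) := by
  have hs : QS.s ^ n ≠ 0 := pow_ne_zero _ QS.s_ne
  obtain ⟨P, hP⟩ := CY.exists_psi om_q (show 0 < 2 * n by omega) (even_two_mul n)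
  have h1 : ∑ α, (Pi.single (acy n hn) 1 : CY.V (2 * n)) α = 1 := by
    rw [Finset.sum_pi_single']
    exact if_pos (mem_univ _)
  have h2 := CY.TT_conv om_q (show 0 < 2 * n by omega) (even_two_mul n) hP (Pi.single (acy n hn) 1) h1
  have h3 := tendsto_pi_nhds.1 (CV.S2_tendsto (S := SS) h2) D
  rw [(CV.S2_inv SS_SP hn om_q hP).2] at h3
  have h4 := h3.const_mul (QS.s ^ n)⁻¹
  refine Tendsto.congr (fun M => ?_) h4
  rw [S2_apply _ hD, inv_mul_cancel_left₀ hs]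
  rfl

/-! ### The pairing -/

theorem pS_tr (p : ℕ) (Φ : QS.Vc) :
    pS (p + 1) (CD.Ph p) Φ = PX.tr (PX.Ins 0 (CW.tn (2 * p + 1) Φ (PX.gv (2 * p + 1) CD.one))) := by
  funext D
  unfold pS CD.Ph PX.tr
  rw [PX.Ins_apply, PX.Ins_apply, CW.tn_apply]
  have m1 : (0 ∈ PX.shl (CD.dL (p + 1) D)) = (0 ∈ PX.shl D) := by
    rw [eq_iff_iff, PX.mem_shl, PX.mem_shl, CD.mem_dL]
    exact ⟨fun h => h.1, fun h => ⟨h, by omega⟩⟩
  have m2 : (0 + 1 ∈ PX.shl (CD.dL (p + 1) D)) = (0 + 1 ∈ PX.shl D) := by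
    rw [eq_iff_iff, PX.mem_shl, PX.mem_shl, CD.mem_dL]
    exact ⟨fun h => h.1, fun h => ⟨h, by omega⟩⟩
  have e : ∀ x, PX.up 0 x = x + 2 := by
    intro x
    unfold PX.up
    rw [if_neg (Nat.not_lt_zero _)]
  have m6 : PX.rm 0 (PX.shl (CD.dL (p + 1) D)) = PX.rm 0 (PX.shl D) ∩ range (2 * p + 1) := by
    ext x
    rw [mem_inter, PX.mem_rm, PX.mem_rm, e, PX.mem_shl, PX.mem_shl, CD.mem_dL, mem_range]
    constructor
    · rintro ⟨h1, h2⟩
      exact ⟨h1, by omega⟩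
    · rintro ⟨h1, h2⟩
      exact ⟨h1, by omega⟩
  have m7 : CW.dn (2 * p + 1) (PX.rm 0 (PX.shl D)) = dC (p + 1) D := by
    ext x
    rw [CW.mem_dn, PX.mem_rm, e, PX.mem_shl, mem_dC]
    have e2 : x + (2 * p + 1) + 2 + 1 = x + (2 * (p + 1) + 2) := by ring
    rw [e2]
  rw [m6, m7]
  simp only [m1, m2]
  ring

theorem Phi_smul (n : ℕ) : Phi n = ((QS.s ^ n)⁻¹ * (wv n)⁻¹) • CV.Ht n (fun _ => 1) := by
  funext D
  unfold Phi
  rw [Pi.smul_apply, smul_eq_mul]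
  ring

/-- the pairing of the limit vectors -/
theorem ip_V (p n : ℕ) : QS.ip (p + 1 + n) (CD.Ph (p + n)) (pS (p + 1) (CD.Ph p) (Phi n)) =
    -PX.om ^ 2 * ((QS.s ^ n)⁻¹ * (wv n)⁻¹ * CV.V (2 * p + 1) n (fun _ => 1)) := by
  have e0 : p + 1 + n = (p + n) + 1 := by ring
  rw [pS_tr, e0]
  unfold CD.Ph
  rw [CD.ip_tr]
  congr 1
  have e1 : 2 * (p + n) + 1 = 2 * p + 1 + 2 * n := by ring
  have e2 : (2 * p + 1) / 2 = p := by omega
  have hw : PX.Wt (2 * p + 1) p (PX.gv (2 * p + 1) CD.one) := by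
    have h := PX.gv_wt (2 * p + 1) CD.one
    rwa [e2] at h
  rw [e1, CW.tn_sum _ _ hw]
  unfold CV.V
  rw [e2, mul_sum]
  refine sum_congr rfl fun s _ => ?_
  rw [mul_sum]
  refine sum_congr rfl fun t _ => ?_
  have e3 : PX.ivs (fun _ : ℕ => (1 : ℂ)) = fun _ => 1 := by
    funext i
    exact inv_one
  have e4 : CF.sh (2 * p + 1) (fun _ : ℕ => (1 : ℂ)) = fun _ => 1 := rfl
  rw [e4, e3]
  unfold Phi
  show PX.gv (2 * p + 1 + 2 * n) (fun _ => 1) (s ∪ CF.su (2 * p + 1) t) * PX.gv (2 * p + 1) (fun _ => 1) s *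
      ((QS.s ^ n)⁻¹ * ((wv n)⁻¹ * CV.Ht n (fun _ => 1) t)) = _
  ring

/-! ### The limit -/

theorem s_four_eq : QS.s ^ 4 = ⟨-1 / 2, Real.sqrt 3 / 2⟩ := by
  have h : QS.s ^ 4 = PX.om := by
    have h1 : QS.s ^ 4 = (QS.s ^ 2) ^ 2 := by ring
    rw [h1, PX.s_sq]
    linear_combination PX.om * PX.om_cube
  rw [h]
  rfl

theorem wre (x : ℝ) : ((x : ℂ) + QS.s ^ 4 * (1 - (x : ℂ))).re = (3 * x - 1) / 2 := by
  rw [s_four_eq]
  simp only [Complex.add_re, Complex.mul_re, Complex.sub_re, Complex.sub_im, Complex.ofReal_re, Complex.ofReal_im, Complex.one_re,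
    Complex.one_im]
  ring

theorem wim (x : ℝ) : ((x : ℂ) + QS.s ^ 4 * (1 - (x : ℂ))).im = Real.sqrt 3 / 2 * (1 - x) := by
  rw [s_four_eq]
  simp only [Complex.add_im, Complex.mul_im, Complex.sub_re, Complex.sub_im, Complex.ofReal_re, Complex.ofReal_im, Complex.one_re,
    Complex.one_im]
  ring

/-- a sequence of reals is determined by the combination with `s ^ 4` up to the sign, and the sign is forced -/
theorem sign_four {x : ℕ → ℝ} {F : ℝ} {δ : ℂ} (hδ : δ = 1 ∨ δ = -1)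
    (h : Tendsto (fun N => ((x N : ℝ) : ℂ) + QS.s ^ 4 * (1 - ((x N : ℝ) : ℂ))) atTop (𝓝 (δ * ((F : ℂ) + QS.s ^ 4 * (1 - (F : ℂ)))))) :
    Tendsto x atTop (𝓝 F) := by
  have h3 : 0 < Real.sqrt 3 := Real.sqrt_pos.2 (by norm_num)
  have hr := (Complex.continuous_re.tendsto _).comp h
  have hi := (Complex.continuous_im.tendsto _).comp h
  simp only [Function.comp_def, wre, wim] at hr hi
  rcases hδ with hδ | hδ
  · rw [hδ, one_mul, wre] at hr
    have h4 := ((hr.const_mul 2).add_const 1).const_mul (1 / 3)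
    have e1 : ∀ N, 1 / 3 * (2 * ((3 * x N - 1) / 2) + 1) = x N := fun N => by ring
    have e2 : 1 / 3 * (2 * ((3 * F - 1) / 2) + 1) = F := by ring
    simp only [e1, e2] at h4
    exact h4
  · exfalso
    rw [hδ, neg_one_mul, Complex.neg_re, wre] at hr
    rw [hδ, neg_one_mul, Complex.neg_im, wim] at hi
    have h4 := (hr.const_mul (2 / 3)).add (hi.const_mul (2 / Real.sqrt 3))
    have e1 : ∀ N, 2 / 3 * ((3 * x N - 1) / 2) + 2 / Real.sqrt 3 * (Real.sqrt 3 / 2 * (1 - x N)) = 2 / 3 := fun N => by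
      field_simp
      ring
    have e2 : 2 / 3 * -((3 * F - 1) / 2) + 2 / Real.sqrt 3 * -(Real.sqrt 3 / 2 * (1 - F)) = -(2 / 3) := by
      field_simp
      ring
    simp only [e1, e2] at h4
    have h5 := tendsto_nhds_unique h4 tendsto_const_nhds
    norm_num at h5

/-- **the lattice theorem** -/
theorem sch_of (p n : ℕ) {E : ℝ} (hE : CZ.EE (2 * p) n = (E : ℂ)) :
    Tendsto (fun N => sr (2 * p + 1) (n + 1) (2 * N + 1)) atTop (𝓝 ((1 + E) / 2)) := by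
  have hv : ∀ n, CF.CS n = ((CF.ValR n : ℝ) : ℂ) := fun n => CF.SS_val n
  have hnm : ∀ n, CD.Nm n = (-PX.om ^ 2) ^ (n / 2) * CF.CS n ^ 2 := by
    intro n
    rw [← CF.norm_sum]
    unfold CD.Nm
    refine Finset.sum_congr rfl fun a _ => ?_
    rw [pow_two]
    rfl
  have hCne : ∀ n, CF.CS n ≠ 0 := by
    intro n
    rw [hv]
    exact Complex.ofReal_ne_zero.2 (CF.ValR_ne n)
  have hω := CD.om2_ne
  have hNne : ∀ n, CD.Nm n ≠ 0 := by
    intro n
    rw [hnm]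
    exact mul_ne_zero (pow_ne_zero _ hω) (pow_ne_zero _ (hCne n))
  have gm : CD.GS (p + 1 + (n + 1)) (CD.Ph (p + (n + 1))) := by
    have h := CD.GS_Ph (p + (n + 1)) (hNne _)
    have e : p + (n + 1) + 1 = p + 1 + (n + 1) := by ring
    rwa [e] at h
  have ga : CD.GS (p + 1) (CD.Ph p) := CD.GS_Ph p (hNne _)
  have nm := gm.norm (by omega)
  have na := ga.norm (by omega)
  have hlim := lim_sr (a := p + 1) (n := n + 1) (by omega) (by omega) gm ga fun D hD => cv_tendsto (by omega) hD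
  rw [ip_V, CW.V_one (k := 2 * p) (even_two_mul p) n, wv_eq, hE] at hlim
  have e1 : 2 * (p + 1) - 1 = 2 * p + 1 := by omega
  rw [e1] at hlim
  set Km := QS.ip (p + 1 + (n + 1)) (QS.v0 (p + 1 + (n + 1))) (CD.Ph (p + (n + 1))) with hKm
  set Ka := QS.ip (p + 1) (QS.v0 (p + 1)) (CD.Ph p) with hKa
  have e2 : p + 1 + (n + 1) = p + (n + 1) + 1 := by ring
  rw [e2, CD.ip_Ph, hnm] at nm
  rw [CD.ip_Ph, hnm] at na
  have e3 : (2 * (p + (n + 1)) + 1) / 2 = p + (n + 1) := by omega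
  have e4 : (2 * p + 1) / 2 = p := by omega
  rw [e3] at nm
  rw [e4] at na
  have hs := QS.s_ne
  set W : ℂ := -PX.om ^ 2 * ((QS.s ^ (n + 1))⁻¹ * PX.om ^ (2 * (n + 1)) * (-PX.om ^ 2) ^ p *
    (CF.CS (2 * p + 1) * CF.CS (2 * (p + (n + 1)) + 1))) with hW
  have hW0 : W ≠ 0 := mul_ne_zero hω (mul_ne_zero (mul_ne_zero (mul_ne_zero (inv_ne_zero (pow_ne_zero _ hs))
    (pow_ne_zero _ PX.om_ne_zero)) (pow_ne_zero _ hω)) (mul_ne_zero (hCne _) (hCne _)))
  have hsq : (Km * Ka) ^ 2 = W ^ 2 := by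
    have h1 : (Km * Ka) ^ 2 = Km ^ 2 * Ka ^ 2 := by ring
    have h2 : ((QS.s ^ (n + 1))⁻¹) ^ 2 * (PX.om ^ (2 * (n + 1))) ^ 2 = (-PX.om ^ 2) ^ (n + 1) := by
      have h3 : ((QS.s ^ (n + 1))⁻¹) ^ 2 = ((-PX.om ^ 2) ^ (n + 1))⁻¹ := by
        rw [inv_pow, ← pow_mul, mul_comm, pow_mul, PX.s_sq]
      have h4 : (PX.om ^ (2 * (n + 1))) ^ 2 = (-PX.om ^ 2) ^ (n + 1) * (-PX.om ^ 2) ^ (n + 1) := by
        rw [← mul_pow, ← pow_mul, mul_comm (2 * (n + 1)) 2, ← mul_assoc, pow_mul]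
        congr 1
        ring
      rw [h3, h4, inv_mul_cancel_left₀ (pow_ne_zero _ hω)]
    rw [h1, ← nm, ← na, hW, pow_add (-PX.om ^ 2) p (n + 1), ← h2]
    ring
  have hpm : Km * Ka = W ∨ Km * Ka = -W := sq_eq_sq_iff_eq_or_eq_neg.1 hsq
  have hk : CW.kc (n + 1) * CZ.MS CZ.yb' (Multiset.replicate (2 * (n + 1)) 1) ≠ 0 := by
    rw [← wv_eq]
    exact wv_ne (by omega)
  have hk1 := left_ne_zero_of_mul hk
  have hk2 := right_ne_zero_of_mul hk
  have hval : -PX.om ^ 2 * ((QS.s ^ (n + 1))⁻¹ * (CW.kc (n + 1) * CZ.MS CZ.yb' (Multiset.replicate (2 * (n + 1)) 1))⁻¹ *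
      (CZ.ka (2 * p + 1) (n + 1) * (CZ.SS (Multiset.replicate (2 * p + 1) 2) *
      CZ.SS (Multiset.replicate (2 * p + 1 + 2 * (n + 1)) 2) * CZ.MS CZ.yb' (Multiset.replicate (2 * (n + 1)) 1)) *
      ((1 + (E : ℂ)) / 2 + PX.om * ((1 - (E : ℂ)) / 2)))) =
      W * ((((1 + E) / 2 : ℝ) : ℂ) + QS.s ^ 4 * (1 - (((1 + E) / 2 : ℝ) : ℂ))) := by
    have h1 : CZ.ka (2 * p + 1) (n + 1) = PX.om ^ (2 * (n + 1)) * (-PX.om ^ 2) ^ p * CW.kc (n + 1) := by
      unfold CZ.ka CW.kc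
      have h2 : (2 * p + 1 - 1) / 2 = p := by omega
      rw [h2]
    have h2 : QS.s ^ 4 = PX.om := by
      rw [s_four_eq]
      rfl
    have h3 : CZ.SS (Multiset.replicate (2 * p + 1) 2) = CF.CS (2 * p + 1) := rfl
    have h4 : CZ.SS (Multiset.replicate (2 * p + 1 + 2 * (n + 1)) 2) = CF.CS (2 * (p + (n + 1)) + 1) := by
      have h5 : 2 * p + 1 + 2 * (n + 1) = 2 * (p + (n + 1)) + 1 := by ring
      rw [h5]
      rfl
    rw [h1, h2, h3, h4, hW]
    push_cast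
    field_simp
    ring
  rw [hval] at hlim
  rcases hpm with hpm | hpm
  · rw [hpm] at hlim
    refine sign_four (δ := 1) (Or.inl rfl) ?_
    have h2 := hlim.const_mul W⁻¹
    rw [inv_mul_cancel_left₀ hW0] at h2
    rw [one_mul]
    exact h2.congr fun N => inv_mul_cancel_left₀ hW0 _
  · rw [hpm] at hlim
    refine sign_four (δ := -1) (Or.inr rfl) ?_
    have h2 := hlim.const_mul (-W)⁻¹
    have h3 : (-W)⁻¹ * (W * ((((1 + E) / 2 : ℝ) : ℂ) + QS.s ^ 4 * (1 - (((1 + E) / 2 : ℝ) : ℂ)))) =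
        -1 * ((((1 + E) / 2 : ℝ) : ℂ) + QS.s ^ 4 * (1 - (((1 + E) / 2 : ℝ) : ℂ))) := by
      field_simp
    rw [h3] at h2
    exact h2.congr fun N => inv_mul_cancel_left₀ (neg_ne_zero.2 hW0) _

/-- **the exact value in the infinite surface** -/
theorem sri_of (p n : ℕ) {E : ℝ} (hE : CZ.EE (2 * p) n = (E : ℂ)) : sri (2 * p + 1) (n + 1) = (1 + E) / 2 := by
  have h1 : Tendsto (fun N : ℕ => 2 * N + 1) atTop atTop :=
    tendsto_atTop_mono (fun N => by show N ≤ 2 * N + 1; omega) tendsto_id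
  exact tendsto_nhds_unique ((sri_tendsto (2 * p + 1) (n + 1)).comp h1) (sch_of p n hE)

end SCH
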