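import Pool.Agent.Lib.MP_216314_pr.Sc.ScRel
import Pool.Agent.Lib.MP_216314_pr.Ca.CaMap

/-!
# The event in the square lattice and in the cover
-/

set_option autoImplicit false

noncomputable section

namespace SCH

open Finset FKI FKP FKH QS CD CY

theorem mem_sE {c n K : ℕ} {e : Edge} : e ∈ sE c n K ↔
    (0 ≤ (ea e).1 + (ea e).2 ∧ (eb e).1 + (eb e).2 ≤ (c : ℤ) + 2 * n) ∧
    (|(ea e).1 - (ea e).2| ≤ (K : ℤ) ∧ |(eb e).1 - (eb e).2| ≤ (K : ℤ)) := by
  unfold sE
  rw [mem_filter, mem_box]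
  constructor
  · exact fun h => h.2
  · intro h
    refine ⟨?_, h⟩
    obtain ⟨⟨h1, h2⟩, ⟨h3, h4⟩⟩ := h
    rw [abs_le] at h3 h4
    obtain ⟨x, y, t⟩ := e
    cases t
    · simp [ea, eb] at h1 h2 h3 h4 ⊢
      omega
    · simp [ea, eb] at h1 h2 h3 h4 ⊢
      omega

theorem mem_TA {m N : ℕ} {t : ℕ × ℕ} : t ∈ TA m N ↔ ((2 ≤ t.1 ∧ t.1 ≤ 2 * m) ∧ t.2 < 4 * N + 2) := by
  unfold TA
  rw [mem_product, mem_Icc, mem_range]

theorem map_TA {a n : ℕ} (ha : 1 ≤ a) (hn : 1 ≤ n) (N : ℕ) : (TA (a + n) N).map (peE N) = sE (2 * a - 1) n (2 * N + 1) := by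
  ext e
  rw [mem_map, mem_sE, abs_le, abs_le]
  constructor
  · rintro ⟨t, ht, rfl⟩
    rw [mem_TA] at ht
    obtain ⟨j, h⟩ := t
    simp only at ht
    simp only [peE, Function.Embedding.coeFn_mk]
    unfold pe
    by_cases hp : (j + h) % 2 = 1
    · rw [if_pos hp]
      simp only [ea, eb, Bool.false_eq_true, if_false]
      omega
    · rw [if_neg hp]
      simp only [ea, eb, if_true]
      omega
  · obtain ⟨x, y, t⟩ := e
    cases t
    · simp only [ea, eb, Bool.false_eq_true, if_false]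
      rintro ⟨⟨h1, h2⟩, ⟨⟨h3, h4⟩, ⟨h5, h6⟩⟩⟩
      refine ⟨((x + y + 2).toNat, (x - y + 1 + 2 * N).toNat), ?_, ?_⟩
      · rw [mem_TA]
        simp only
        omega
      · show pe N _ = _
        unfold pe
        simp only
        rw [if_pos (by omega)]
        simp only [Prod.mk.injEq, and_true]
        omega
    · simp only [ea, eb, if_true]
      rintro ⟨⟨h1, h2⟩, ⟨⟨h3, h4⟩, ⟨h5, h6⟩⟩⟩
      refine ⟨((x + y + 2).toNat, (x - y + 2 * N).toNat), ?_, ?_⟩
      · rw [mem_TA]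
        simp only
        omega
      · show pe N _ = _
        unfold pe
        simp only
        rw [if_neg (by omega)]
        simp only [Prod.mk.injEq, and_true]
        omega

/-- the columns on the right of the line of the tip -/
def dl (a X : ℕ) : ℤ := if 2 * a + 2 ≤ X then 1 else 0

/-- projection to the double cover -/
def pj (a N : ℕ) (x : XS) : V × ZMod 2 := (ph N x.1, ((x.2 + dl a x.1.1 : ℤ) : ZMod 2))

section

variable {a n N : ℕ}

/-- the first end of a tile in the surface -/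
def fs (a n N : ℕ) (t : ℕ × ℕ) : ℕ × ℕ :=
  if t.1 = 2 * a + 1 ∧ t.2 < 2 * N then (2 * (a + n) + 1, t.2 + t.2 % 2) else (t.1, t.2 + (t.1 + t.2 + 1) % 2)

/-- the second end -/
def se (t : ℕ × ℕ) : ℕ × ℕ := (t.1 + 1, t.2 + (t.1 + t.2) % 2)

/-- the increment of the number of the sheet -/
def dd (a N : ℕ) (t : ℕ × ℕ) : ℤ := if t.1 = 2 * a + 1 ∧ t.2 < 2 * N then 1 else 0

theorem sa_pe (ha : 1 ≤ a) (t : ℕ × ℕ) : sa (2 * a - 1) n (pe N t) = ph N (fs a n N t) := by
  obtain ⟨j, h⟩ := t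
  unfold sa pe fs
  simp only
  by_cases hp : (j + h) % 2 = 1
  · rw [if_pos hp]
    simp only [ea, eb, Bool.false_eq_true, if_false]
    by_cases h1 : j = 2 * a + 1 ∧ h < 2 * N
    · rw [if_pos h1, if_pos (by omega)]
      unfold ph
      rw [Prod.mk.injEq]
      push_cast
      omega
    · rw [if_neg h1, if_neg (by omega)]
      unfold ph
      rw [Prod.mk.injEq]
      push_cast
      omega
  · rw [if_neg hp]
    simp only [ea, eb, if_true]
    by_cases h1 : j = 2 * a + 1 ∧ h < 2 * N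
    · rw [if_pos h1, if_pos (by omega)]
      unfold ph
      rw [Prod.mk.injEq]
      push_cast
      omega
    · rw [if_neg h1, if_neg (by omega)]
      unfold ph
      rw [Prod.mk.injEq]
      push_cast
      omega

theorem eb_pe (t : ℕ × ℕ) : eb (pe N t) = ph N (se t) := by
  obtain ⟨j, h⟩ := t
  unfold pe ph se
  simp only
  by_cases hp : (j + h) % 2 = 1
  · rw [if_pos hp]
    simp only [eb, Bool.false_eq_true, if_false]
    rw [Prod.mk.injEq]
    push_cast
    omega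
  · rw [if_neg hp]
    simp only [eb, if_true]
    rw [Prod.mk.injEq]
    push_cast
    omega

/-- the marked tiles -/
theorem mk_pe (ha : 1 ≤ a) (t : ℕ × ℕ) : (ea (pe N t)).1 + (ea (pe N t)).2 = ((2 * a - 1 : ℕ) : ℤ) ↔ t.1 = 2 * a + 1 := by
  obtain ⟨j, h⟩ := t
  unfold pe
  simp only
  by_cases hp : (j + h) % 2 = 1
  · rw [if_pos hp]
    simp only [ea, Bool.false_eq_true, if_false]
    omega
  · rw [if_neg hp]
    simp only [ea, if_true]
    omega

theorem ch_fs (t : ℕ × ℕ) : ch N (ph N (fs a n N t)) = fs a n N t := by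
  apply ch_ph
  unfold fs
  split_ifs
  · show (2 * (a + n) + 1 + (t.2 + t.2 % 2)) % 2 = 1
    omega
  · show (t.1 + (t.2 + (t.1 + t.2 + 1) % 2)) % 2 = 1
    omega

theorem ch_se (t : ℕ × ℕ) : ch N (ph N (se t)) = se t := by
  apply ch_ph
  show (t.1 + 1 + (t.2 + (t.1 + t.2) % 2)) % 2 = 1
  omega

theorem dl_dd (t : ℕ × ℕ) (hn : 1 ≤ n) :
    dd a N t + dl a (se t).1 = dl a (fs a n N t).1 + if t.1 = 2 * a + 1 then 1 else 0 := by
  unfold dd dl se fs
  split_ifs <;> simp_all <;> omega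

theorem ek_of {t : ℕ × ℕ} {u v : XS} (h : ek a (a + n) N t u v) : ∃ j : ℤ,
    (u = (fs a n N t, j) ∧ v = (se t, j + dd a N t)) ∨ (v = (fs a n N t, j) ∧ u = (se t, j + dd a N t)) := by
  obtain ⟨j, h⟩ := h
  unfold fs dd se
  by_cases h1 : t.1 = 2 * a + 1 ∧ t.2 < 2 * N
  · rw [if_pos h1] at h
    refine ⟨j - 1, Or.inl ?_⟩
    rw [if_pos h1, if_pos h1]
    refine ⟨h.1, ?_⟩
    rw [h.2, h1.1]
    congr 1
    · congr 1
      omega
    · ring
  · rw [if_neg h1] at h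
    refine ⟨j, ?_⟩
    rw [if_neg h1, if_neg h1, add_zero]
    unfold lo hi at h
    by_cases hp : (t.1 + t.2) % 2 = 1
    · rw [if_pos hp, if_pos hp] at h
      left
      have e1 : (t.1 + t.2 + 1) % 2 = 0 := by omega
      rw [e1, hp, add_zero]
      exact h
    · rw [if_neg hp, if_neg hp] at h
      right
      have e1 : (t.1 + t.2 + 1) % 2 = 1 := by omega
      have e2 : (t.1 + t.2) % 2 = 0 := by omega
      rw [e1, e2, add_zero]
      exact ⟨h.2, h.1⟩

theorem ek_to (t : ℕ × ℕ) (j : ℤ) : ek a (a + n) N t (fs a n N t, j) (se t, j + dd a N t) ∨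
    ek a (a + n) N t (se t, j + dd a N t) (fs a n N t, j) := by
  unfold ek fs dd se
  by_cases h1 : t.1 = 2 * a + 1 ∧ t.2 < 2 * N
  · left
    refine ⟨j + 1, ?_⟩
    rw [if_pos h1, if_pos h1, if_pos h1]
    refine ⟨?_, ?_⟩
    · rw [add_sub_cancel_right]
    · rw [h1.1]
      congr 2
      omega
  · by_cases hp : (t.1 + t.2) % 2 = 1
    · left
      refine ⟨j, ?_⟩
      rw [if_neg h1, if_neg h1, if_neg h1, add_zero]
      unfold lo hi
      have e1 : (t.1 + t.2 + 1) % 2 = 0 := by omega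
      rw [if_pos hp, if_pos hp, e1, hp, add_zero]
      exact ⟨rfl, rfl⟩
    · right
      refine ⟨j, ?_⟩
      rw [if_neg h1, if_neg h1, if_neg h1, add_zero]
      unfold lo hi
      have e1 : (t.1 + t.2 + 1) % 2 = 1 := by omega
      have e2 : (t.1 + t.2) % 2 = 0 := by omega
      rw [if_neg hp, if_neg hp, e1, e2, add_zero]
      exact ⟨rfl, rfl⟩

/-- steps in the double cover -/
theorem St_tile (ha : 1 ≤ a) {c : Finset (ℕ × ℕ)} {t : ℕ × ℕ} (ht : t ∈ c) (s : ZMod 2) :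
    St (2 * a - 1) n (c.map (peE N)) (ph N (fs a n N t), s) (ph N (se t), s + if t.1 = 2 * a + 1 then 1 else 0) := by
  refine ⟨pe N t, mem_map.2 ⟨t, ht, rfl⟩, (sa_pe ha t).symm, (eb_pe t).symm, ?_⟩
  simp only [mk_pe ha]

theorem St_inv (ha : 1 ≤ a) {c : Finset (ℕ × ℕ)} {u v : V × ZMod 2} (h : St (2 * a - 1) n (c.map (peE N)) u v) :
    ∃ t ∈ c, u.1 = ph N (fs a n N t) ∧ v.1 = ph N (se t) ∧ v.2 = u.2 + if t.1 = 2 * a + 1 then 1 else 0 := by
  obtain ⟨e, he, h1, h2, h3⟩ := h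
  obtain ⟨t, ht, rfl⟩ := mem_map.1 he
  have hp : peE N t = pe N t := rfl
  rw [hp] at h1 h2 h3
  rw [sa_pe ha] at h1
  rw [eb_pe] at h2
  simp only [mk_pe ha] at h3
  exact ⟨t, ht, h1, h2, h3⟩

/-- the steps project -/
theorem pj_ek (ha : 1 ≤ a) (hn : 1 ≤ n) {c : Finset (ℕ × ℕ)} {t : ℕ × ℕ} (ht : t ∈ c) {u v : XS}
    (h : ek a (a + n) N t u v) :
    Relation.EqvGen (St (2 * a - 1) n (c.map (peE N))) (pj a N u) (pj a N v) := by
  obtain ⟨j, h1⟩ := ek_of h
  have h2 : Relation.EqvGen (St (2 * a - 1) n (c.map (peE N))) (pj a N (fs a n N t, j)) (pj a N (se t, j + dd a N t)) := by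
    refine Relation.EqvGen.rel _ _ ?_
    have h3 := St_tile (n := n) (N := N) ha ht ((j + dl a (fs a n N t).1 : ℤ) : ZMod 2)
    have h4 : (pj a N (se t, j + dd a N t)) = (ph N (se t), ((j + dl a (fs a n N t).1 : ℤ) : ZMod 2) +
        if t.1 = 2 * a + 1 then 1 else 0) := by
      unfold pj
      rw [Prod.mk.injEq]
      refine ⟨rfl, ?_⟩
      have h5 := dl_dd (a := a) (N := N) t hn
      have h6 : j + dd a N t + dl a (se t).1 = j + dl a (fs a n N t).1 + if t.1 = 2 * a + 1 then 1 else 0 := by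
        linarith
      show ((j + dd a N t + dl a (se t).1 : ℤ) : ZMod 2) = _
      rw [h6]
      push_cast
      rfl
    rw [h4]
    exact h3
  rcases h1 with ⟨h3, h4⟩ | ⟨h3, h4⟩
  · rw [h3, h4]
    exact h2
  · rw [h3, h4]
    exact Relation.EqvGen.symm _ _ h2

/-- deck transformation -/
theorem St_deck {c n : ℕ} {ω : Finset Edge} {u v : V × ZMod 2} (h : Relation.EqvGen (St c n ω) u v) (s : ZMod 2) :
    Relation.EqvGen (St c n ω) (u.1, u.2 + s) (v.1, v.2 + s) := by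
  induction h with
  | rel x y h =>
    obtain ⟨e, he, h1, h2, h3⟩ := h
    refine Relation.EqvGen.rel _ _ ⟨e, he, h1, h2, ?_⟩
    show y.2 + s = _
    rw [h3]
    ring
  | refl x => exact Relation.EqvGen.refl _
  | symm x y _ ih => exact Relation.EqvGen.symm _ _ ih
  | trans x y z _ _ ih1 ih2 => exact Relation.EqvGen.trans _ _ _ ih1 ih2

/-- a walk between the right boundary and itself which changes the sheet -/
theorem Sr_of {c n : ℕ} {ω : Finset Edge} {u v : V} (hu : RB c n u) (hv : RB c n v) {s s' : ZMod 2} (hs : s ≠ s')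
    (h : Relation.EqvGen (St c n ω) (u, s) (v, s')) : Sr c n ω := by
  refine ⟨u, v, hu, hv, ?_⟩
  have h1 := St_deck h s
  have h2 : ∀ x y : ZMod 2, x ≠ y → x + x = 0 ∧ y + x = 1 := by decide
  obtain ⟨h3, h4⟩ := h2 s s' hs
  rw [show ((u, s) : V × ZMod 2).2 = s from rfl, show ((v, s') : V × ZMod 2).2 = s' from rfl, h3, h4] at h1
  exact h1

/-- the right boundaries -/
theorem RB_onR (ha : 1 ≤ a) (hn : 1 ≤ n) {j : ℤ} {x : XS} (h : onR a (a + n) N j x) :
    RB (2 * a - 1) n (ph N x.1) ∧ (pj a N x).2 = (j : ZMod 2) := by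
  obtain ⟨⟨X, hh⟩, k⟩ := x
  obtain ⟨h0, h1⟩ := h
  simp only at h0 h1
  rcases h1 with ⟨h2, h3, h4⟩ | ⟨h2, h3, h4⟩
  · refine ⟨Or.inl ?_, ?_⟩
    · unfold ph
      simp only
      omega
    · show ((k + dl a X : ℤ) : ZMod 2) = _
      unfold dl
      rw [if_neg (by omega), h4, add_zero]
  · refine ⟨Or.inr ?_, ?_⟩
    · unfold ph
      simp only
      omega
    · show ((k + dl a X : ℤ) : ZMod 2) = _
      unfold dl
      rw [if_pos (by omega), h4]
      congr 1
      ring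

theorem onR_rb (a m N : ℕ) (j : ℤ) : onR a m N j (rb a j) := ⟨rfl, Or.inl ⟨rfl, Nat.zero_le _, rfl⟩⟩

/-- projection of a walk of the cover -/
theorem proj_walk (ha : 1 ≤ a) (hn : 1 ≤ n) {c : Finset (ℕ × ℕ)} {x y : XS}
    (h : Relation.EqvGen (RR a (a + n) N c) x y) :
    Sr (2 * a - 1) n (c.map (peE N)) ∨
      Relation.EqvGen (St (2 * a - 1) n (c.map (peE N))) (pj a N x) (pj a N y) ∨
      ∃ u v : V, ∃ s : ZMod 2, RB (2 * a - 1) n u ∧ RB (2 * a - 1) n v ∧
        Relation.EqvGen (St (2 * a - 1) n (c.map (peE N))) (pj a N x) (u, s) ∧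
        Relation.EqvGen (St (2 * a - 1) n (c.map (peE N))) (pj a N y) (v, s) := by
  induction h with
  | rel x y h =>
    rcases h with ⟨t, ht, h1⟩ | ⟨j, h1, h2⟩
    · exact Or.inr (Or.inl (pj_ek ha hn ht h1))
    · right; right
      obtain ⟨h3, h4⟩ := RB_onR ha hn h1
      obtain ⟨h5, h6⟩ := RB_onR ha hn h2
      refine ⟨_, _, (j : ZMod 2), h3, h5, ?_, ?_⟩
      · rw [← h4]
        exact Relation.EqvGen.refl _
      · rw [← h6]
        exact Relation.EqvGen.refl _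
  | refl x => exact Or.inr (Or.inl (Relation.EqvGen.refl _))
  | symm x y _ ih =>
    rcases ih with h | h | ⟨u, v, s, h1, h2, h3, h4⟩
    · exact Or.inl h
    · exact Or.inr (Or.inl (Relation.EqvGen.symm _ _ h))
    · exact Or.inr (Or.inr ⟨v, u, s, h2, h1, h4, h3⟩)
  | trans x y z _ _ ih1 ih2 =>
    rcases ih1 with h | h | ⟨u, v, s, h1, h2, h3, h4⟩
    · exact Or.inl h
    · rcases ih2 with h' | h' | ⟨u', v', s', h1', h2', h3', h4'⟩
      · exact Or.inl h'
      · exact Or.inr (Or.inl (Relation.EqvGen.trans _ _ _ h h'))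
      · exact Or.inr (Or.inr ⟨u', v', s', h1', h2', Relation.EqvGen.trans _ _ _ h h3', h4'⟩)
    · rcases ih2 with h' | h' | ⟨u', v', s', h1', h2', h3', h4'⟩
      · exact Or.inl h'
      · exact Or.inr (Or.inr ⟨u, v, s, h1, h2, h3, Relation.EqvGen.trans _ _ _ (Relation.EqvGen.symm _ _ h') h4⟩)
      · by_cases hs : s = s'
        · subst hs
          exact Or.inr (Or.inr ⟨u, v', s, h1, h2', h3, h4'⟩)
        · left
          exact Sr_of h2 h1' hs (Relation.EqvGen.trans _ _ _ (Relation.EqvGen.symm _ _ h4) h3')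

/-- `x` is above `w` -/
def Lf (a N : ℕ) (w : V × ZMod 2) (x : XS) : Prop := x.1 = ch N w.1 ∧ ((x.2 + dl a x.1.1 : ℤ) : ZMod 2) = w.2

theorem lift_walk (ha : 1 ≤ a) (hn : 1 ≤ n) {c : Finset (ℕ × ℕ)} {w w' : V × ZMod 2}
    (h : Relation.EqvGen (St (2 * a - 1) n (c.map (peE N))) w w') :
    (∀ x, Lf a N w x → ∃ y, Lf a N w' y ∧ Relation.EqvGen (RR a (a + n) N c) x y) ∧
    (∀ y, Lf a N w' y → ∃ x, Lf a N w x ∧ Relation.EqvGen (RR a (a + n) N c) x y) := by
  induction h with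
  | rel w w' h =>
    obtain ⟨t, ht, h1, h2, h3⟩ := St_inv ha h
    have h4 := dl_dd (a := a) (N := N) t hn
    have h5 : ∀ j : ℤ, Relation.EqvGen (RR a (a + n) N c) (fs a n N t, j) (se t, j + dd a N t) := by
      intro j
      rcases ek_to (a := a) (n := n) (N := N) t j with h6 | h6
      · exact Relation.EqvGen.rel _ _ (Or.inl ⟨t, ht, h6⟩)
      · exact Relation.EqvGen.symm _ _ (Relation.EqvGen.rel _ _ (Or.inl ⟨t, ht, h6⟩))
    constructor
    · rintro ⟨x, j⟩ ⟨h6, h7⟩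
      simp only at h6 h7
      rw [h1, ch_fs] at h6
      subst h6
      refine ⟨(se t, j + dd a N t), ⟨?_, ?_⟩, h5 j⟩
      · rw [h2, ch_se]
      · show ((j + dd a N t + dl a (se t).1 : ℤ) : ZMod 2) = _
        have h8 : j + dd a N t + dl a (se t).1 = j + dl a (fs a n N t).1 + if t.1 = 2 * a + 1 then 1 else 0 := by
          linarith
        rw [h8, h3, ← h7]
        push_cast
        rfl
    · rintro ⟨y, j⟩ ⟨h6, h7⟩
      simp only at h6 h7
      rw [h2, ch_se] at h6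
      subst h6
      refine ⟨(fs a n N t, j - dd a N t), ⟨?_, ?_⟩, ?_⟩
      · rw [h1, ch_fs]
      · show ((j - dd a N t + dl a (fs a n N t).1 : ℤ) : ZMod 2) = _
        have h8 : j + dl a (se t).1 = j - dd a N t + dl a (fs a n N t).1 + if t.1 = 2 * a + 1 then 1 else 0 := by
          linarith
        rw [h8] at h7
        rw [h3] at h7
        have h9 : ((j - dd a N t + dl a (fs a n N t).1 : ℤ) : ZMod 2) + (if t.1 = 2 * a + 1 then 1 else 0) =
            w.2 + if t.1 = 2 * a + 1 then 1 else 0 := by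
          rw [← h7]
          push_cast
          rfl
        exact add_right_cancel h9
      · have h8 := h5 (j - dd a N t)
        rw [sub_add_cancel] at h8
        exact h8
  | refl w => exact ⟨fun x hx => ⟨x, hx, Relation.EqvGen.refl _⟩, fun x hx => ⟨x, hx, Relation.EqvGen.refl _⟩⟩
  | symm w w' _ ih =>
    refine ⟨fun x hx => ?_, fun x hx => ?_⟩
    · obtain ⟨y, hy, h⟩ := ih.2 x hx
      exact ⟨y, hy, Relation.EqvGen.symm _ _ h⟩
    · obtain ⟨y, hy, h⟩ := ih.1 x hx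
      exact ⟨y, hy, Relation.EqvGen.symm _ _ h⟩
  | trans w w' w'' _ _ ih1 ih2 =>
    refine ⟨fun x hx => ?_, fun x hx => ?_⟩
    · obtain ⟨y, hy, h⟩ := ih1.1 x hx
      obtain ⟨z, hz, h'⟩ := ih2.1 y hy
      exact ⟨z, hz, Relation.EqvGen.trans _ _ _ h h'⟩
    · obtain ⟨y, hy, h⟩ := ih2.2 x hx
      obtain ⟨z, hz, h'⟩ := ih1.2 y hy
      exact ⟨z, hz, Relation.EqvGen.trans _ _ _ h' h⟩

/-- a site above a point of the right boundary is on a right boundary of the cover -/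
theorem onR_of (ha : 1 ≤ a) (hn : 1 ≤ n) {v : V} (hv : RB (2 * a - 1) n v) {x : XS} (h1 : x.1 = ch N v) :
    ∃ j : ℤ, onR a (a + n) N j x ∧ j = x.2 + dl a x.1.1 := by
  obtain ⟨⟨X, hh⟩, k⟩ := x
  simp only at h1
  unfold ch at h1
  rw [Prod.mk.injEq] at h1
  obtain ⟨h1, h2⟩ := h1
  rcases hv with ⟨h3, h4⟩ | ⟨h3, h4⟩
  · refine ⟨k, ⟨?_, Or.inl ⟨?_, ?_, rfl⟩⟩, ?_⟩
    · show hh % 2 = 0
      omega
    · show X = 2 * a + 1
      omega
    · show hh ≤ 2 * N
      omega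
    · show k = k + dl a X
      unfold dl
      rw [if_neg (by omega), add_zero]
  · refine ⟨k + 1, ⟨?_, Or.inr ⟨?_, ?_, ?_⟩⟩, ?_⟩
    · show hh % 2 = 0
      omega
    · show X = 2 * (a + n) + 1
      omega
    · show 2 * N ≤ hh
      omega
    · show k = k + 1 - 1
      ring
    · show k + 1 = k + dl a X
      unfold dl
      rw [if_pos (by omega)]

/-- the event: two right boundaries of the cover whose numbers differ by an odd number are connected -/
theorem Sr_iff {a n N : ℕ} (ha : 1 ≤ a) (hn : 1 ≤ n) {c : Finset (ℕ × ℕ)} (_hc : c ⊆ TA (a + n) N) :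
    Sr (2 * a - 1) n (c.map (peE N)) ↔ ∃ j : ℤ, ¬ (2 : ℤ) ∣ j ∧ Relation.EqvGen (RR a (a + n) N c) (rb a 0) (rb a j) := by
  have hw : ∀ (j : ℤ) (x : XS), onR a (a + n) N j x → Relation.EqvGen (RR a (a + n) N c) (rb a j) x := fun j x hx =>
    Relation.EqvGen.rel _ _ (Or.inr ⟨j, onR_rb _ _ _ _, hx⟩)
  constructor
  · rintro ⟨u, v, hu, hv, h⟩
    obtain ⟨x, hx, hx0⟩ : ∃ x : XS, Lf a N (u, 0) x ∧ onR a (a + n) N 0 x := by
      obtain ⟨j, h1, h2⟩ := onR_of (N := N) ha hn hu (x := (ch N u, -dl a (ch N u).1)) rfl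
      have h3 : j = 0 := by
        rw [h2]
        show -dl a (ch N u).1 + dl a (ch N u).1 = 0
        ring
      rw [h3] at h1
      refine ⟨_, ⟨rfl, ?_⟩, h1⟩
      show ((-dl a (ch N u).1 + dl a (ch N u).1 : ℤ) : ZMod 2) = 0
      rw [neg_add_cancel]
      rfl
    obtain ⟨y, ⟨hy1, hy2⟩, hxy⟩ := (lift_walk ha hn h).1 x hx
    obtain ⟨j, h1, h2⟩ := onR_of (N := N) ha hn hv hy1
    refine ⟨j, ?_, ?_⟩
    · intro h3
      rw [← h2] at hy2
      have h4 : ((j : ℤ) : ZMod 2) = 0 := (ZMod.intCast_zmod_eq_zero_iff_dvd j 2).2 (by exact_mod_cast h3)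
      rw [h4] at hy2
      exact absurd hy2 (show ¬ (0 : ZMod 2) = 1 by decide)
    · exact Relation.EqvGen.trans _ _ _ (Relation.EqvGen.trans _ _ _ (hw 0 x hx0) hxy)
        (Relation.EqvGen.symm _ _ (hw j y h1))
  · rintro ⟨j, hj, h⟩
    have hj1 : ((j : ℤ) : ZMod 2) = 1 := by
      have h4 : ((j : ℤ) : ZMod 2) ≠ 0 := fun h5 => hj (by exact_mod_cast (ZMod.intCast_zmod_eq_zero_iff_dvd j 2).1 h5)
      have h5 : ∀ x : ZMod 2, x ≠ 0 → x = 1 := by decide
      exact h5 _ h4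
    obtain ⟨r1, r2⟩ := RB_onR ha hn (onR_rb a (a + n) N 0)
    obtain ⟨r3, r4⟩ := RB_onR ha hn (onR_rb a (a + n) N j)
    have e1 : pj a N (rb a 0) = (ph N (rb a 0).1, 0) := Prod.ext rfl (by rw [r2]; rfl)
    have e2 : pj a N (rb a j) = (ph N (rb a j).1, 1) := Prod.ext rfl (by rw [r4, hj1])
    rcases proj_walk ha hn h with h1 | h1 | ⟨u, v, s, h1, h2, h3, h4⟩
    · exact h1
    · rw [e1, e2] at h1
      exact ⟨_, _, r1, r3, h1⟩
    · rw [e1] at h3
      rw [e2] at h4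
      by_cases hs : s = 0
      · subst hs
        exact Sr_of r3 h2 (show (1 : ZMod 2) ≠ 0 by decide) h4
      · exact Sr_of r1 h1 (fun h => hs h.symm) h3

end

end SCH
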