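import Pool.Agent.Lib.MP_216314_pr.Sc.ScEnd
import Pool.Agent.Lib.MP_216314_pr.SL.FinB

/-!
# The exact probability that the clusters of the right boundary separate the end of the cylinder from the left boundary
-/

set_option autoImplicit false

noncomputable section

namespace SCH

/-- **the exact value** -/
theorem exact {k : ℕ} (hk : Even k) (n : ℕ) : ((sri (k + 1) (n + 1) : ℝ) : ℂ) = (1 + CZ.EE k n) / 2 := by
  obtain ⟨E, hE⟩ := SL.EE_real hk (n := n)
  obtain ⟨p, rfl⟩ := hk
  have e : p + p = 2 * p := by ring
  rw [e] at hE ⊢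
  rw [sri_of p n hE, hE]
  push_cast
  ring

end SCH
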