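import Pool.Agent.Lib.MP_216314_pr.Sc.ScRel
import Pool.Agent.Lib.MP_216314_pr.Sc.GluC

/-!
# The regions of the first glued pattern
-/

set_option autoImplicit false

noncomputable section

namespace SCH

open Finset FKI FKP FKH QS CD CY

/-- the gap of the cylinder of a gap outside of the left block -/
def cg (a n : ℕ) (g : ℤ) : ℤ :=
  if g % (2 * n + 2 + 2 * a : ℕ) = 0 then g / (2 * n + 2 + 2 * a : ℕ) * (2 * n : ℕ)
  else g / (2 * n + 2 + 2 * a : ℕ) * (2 * n : ℕ) + (g % (2 * n + 2 + 2 * a : ℕ) - (2 * a + 2))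

/-- the gap `g` is inside of a small arc of the left block -/
def iso (a n : ℕ) (g : ℤ) : Prop := 2 ≤ g % (2 * n + 2 + 2 * a : ℕ) ∧ g % (2 * n + 2 + 2 * a : ℕ) ≤ 2 * a

theorem even_mod (a n : ℕ) {g : ℤ} (h1 : (2 : ℤ) ∣ g) : (2 : ℤ) ∣ g % ((2 * n + 2 + 2 * a : ℕ) : ℤ) := by
  have h5 := Int.emod_add_mul_ediv g ((2 * n + 2 + 2 * a : ℕ) : ℤ)
  have h6 : g % ((2 * n + 2 + 2 * a : ℕ) : ℤ) = g - 2 * ((n + 1 + a) * (g / ((2 * n + 2 + 2 * a : ℕ) : ℤ))) := by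
    have e : ((2 * n + 2 + 2 * a : ℕ) : ℤ) = 2 * (n + 1 + a) := by push_cast; ring
    rw [e] at h5 ⊢
    linarith [mul_assoc (2 : ℤ) (n + 1 + a) (g / (2 * (n + 1 + a)))]
  rw [h6]
  exact dvd_sub h1 (dvd_mul_right _ _)

theorem cg_cgap (a n : ℕ) (g : ℤ) : cg a n g = cgap (2 * a + 2) (2 * n) (2 * n + 2 + 2 * a) g := by
  unfold cg cgap
  have e : ((2 * a + 2 : ℕ) : ℤ) = 2 * a + 2 := by push_cast; ring
  rw [e]

theorem outg_of {a n : ℕ} {g : ℤ} (h1 : (2 : ℤ) ∣ g) (h : ¬ iso a n g) : outg (2 * a + 2) (2 * n + 2 + 2 * a) g := by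
  have h2 := Int.emod_nonneg g (b := ((2 * n + 2 + 2 * a : ℕ) : ℤ)) (by push_cast; omega)
  have h3 := even_mod a n h1
  unfold iso at h
  unfold outg
  obtain ⟨z, hz⟩ : ∃ z, g % ((2 * n + 2 + 2 * a : ℕ) : ℤ) = z := ⟨_, rfl⟩
  rw [hz] at h h2 h3 ⊢
  push_cast
  omega

/-- an isolated gap -/
theorem reg_iso {a n : ℕ} (π : Pat (2 * n)) {g g' : ℤ} (h1 : (2 : ℤ) ∣ g) (hi : iso a n g) (h : Reg (beta a π) g g') : g' = g := by
  have hL : 2 * n + 2 + 2 * a = 2 * a + 2 + 2 * n := by ring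
  have h3 := even_mod a n h1
  obtain ⟨i1, i2⟩ := hi
  have h5 := Int.emod_add_mul_ediv g ((2 * n + 2 + 2 * a : ℕ) : ℤ)
  obtain ⟨z, hz⟩ : ∃ z : ℕ, g % ((2 * n + 2 + 2 * a : ℕ) : ℤ) = z + 1 := ⟨(g % ((2 * n + 2 + 2 * a : ℕ) : ℤ) - 1).toNat, by omega⟩
  obtain ⟨m, hm⟩ : ∃ m, g / ((2 * n + 2 + 2 * a : ℕ) : ℤ) = m := ⟨_, rfl⟩
  rw [hz] at h3 h5 i1 i2
  rw [hm] at h5
  have h6 : (beta a π).f (z + m * ((2 * n + 2 + 2 * a : ℕ) : ℤ)) = sgb a z + m * ((2 * n + 2 + 2 * a : ℕ) : ℤ) := by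
    rw [beta_eq a π hL]
    exact gF_block m (by omega) hL
  rw [sgb_odd (by omega) (by omega)] at h6
  have e : g = z + m * ((2 * n + 2 + 2 * a : ℕ) : ℤ) + 1 := by
    rw [← h5]
    ring
  rw [e] at h ⊢
  refine reg_small ?_ h
  rw [h6]
  push_cast
  ring

/-- the even gaps of the first pattern -/
theorem reg_beta {a n : ℕ} (π : Pat (2 * n)) {g g' : ℤ} (h1 : (2 : ℤ) ∣ g) (h2 : (2 : ℤ) ∣ g') :
    Reg (beta a π) g g' ↔ g = g' ∨ (¬ iso a n g ∧ ¬ iso a n g' ∧ Reg π (cg a n g) (cg a n g')) := by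
  have hL : 2 * n + 2 + 2 * a = 2 * a + 2 + 2 * n := by ring
  constructor
  · intro h
    by_cases i1 : iso a n g
    · exact Or.inl (reg_iso π h1 i1 h).symm
    · by_cases i2 : iso a n g'
      · exact Or.inl (reg_iso π h2 i2 (reg_symm _ h))
      · right
        refine ⟨i1, i2, ?_⟩
        rw [cg_cgap, cg_cgap, ← reg_gP hL (sgb_nc a) π (outg_of h1 i1) (outg_of h2 i2), ← beta_eq a π hL]
        exact h
  · rintro (h | ⟨i1, i2, h⟩)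
    · rw [h]
      exact reg_refl _ _
    · rw [cg_cgap, cg_cgap, ← reg_gP hL (sgb_nc a) π (outg_of h1 i1) (outg_of h2 i2), ← beta_eq a π hL] at h
      exact h

end SCH
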