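import Pool.Agent.Lib.MP_216314_pr.Sc.ScCyl
import Pool.Agent.Lib.MP_216314_pr.Sc.ScRegB

/-!
# The first glued pattern
-/

set_option autoImplicit false

noncomputable section

namespace SCH

open Finset FKI FKP FKH QS CD CY

/-- the wired sites of the right boundary number `j` are replaced by the upper corner of the cylinder -/
def ScIns_rho (a m N : ℕ) (u : XS) : XS :=
  if u.1.2 % 2 = 0 ∧ u.1.1 = 2 * a + 1 ∧ u.1.2 ≤ 2 * N then ((2 * m + 1, 2 * N), u.2 - 1)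
  else if u.1.2 % 2 = 0 ∧ u.1.1 = 2 * m + 1 ∧ 2 * N ≤ u.1.2 then ((2 * m + 1, 2 * N), u.2) else u

theorem ScIns_onR {a n N : ℕ} (hn : 1 ≤ n) {j : ℤ} {u : XS} (h : onR a (a + n) N j u) :
    ScIns_rho a (a + n) N u = ((2 * (a + n) + 1, 2 * N), j - 1) := by
  obtain ⟨h0, ⟨h1, h2, h3⟩ | ⟨h1, h2, h3⟩⟩ := h
  · unfold ScIns_rho
    rw [if_pos ⟨h0, h1, h2⟩, h3]
  · unfold ScIns_rho
    rw [if_neg (fun h => by omega), if_pos ⟨h0, h1, h2⟩, h3]

theorem ScIns_id {a m N : ℕ} {u : XS} (h1 : u.1.1 ≠ 2 * a + 1) (h2 : u.1.2 ≤ 2 * N) : ScIns_rho a m N u = u := by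
  unfold ScIns_rho
  rw [if_neg (fun h => h1 h.2.1)]
  split_ifs with h3
  · have e : u.1.2 = 2 * N := le_antisymm h2 h3.2.2
    refine Prod.ext (Prod.ext h3.2.1.symm e.symm) rfl
  · rfl

theorem ScIns_corner {a n N : ℕ} (j : ℤ) : onR a (a + n) N j ((2 * (a + n) + 1, 2 * N), j - 1) :=
  ⟨by show 2 * N % 2 = 0; omega, Or.inr ⟨rfl, le_rfl, rfl⟩⟩

/-- every site is connected to its image -/
theorem ScIns_self {a n N : ℕ} (hn : 1 ≤ n) (c : Finset (ℕ × ℕ)) (u : XS) :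
    Relation.EqvGen (RR a (a + n) N c) u (ScIns_rho a (a + n) N u) := by
  by_cases h : ∃ j, onR a (a + n) N j u
  · obtain ⟨j, hj⟩ := h
    rw [ScIns_onR hn hj]
    exact Relation.EqvGen.rel _ _ (Or.inr ⟨j, hj, ScIns_corner j⟩)
  · have e : ScIns_rho a (a + n) N u = u := by
      unfold ScIns_rho
      rw [if_neg (fun h1 => h ⟨u.2, h1.1, Or.inl ⟨h1.2.1, h1.2.2, rfl⟩⟩),
        if_neg (fun h1 => h ⟨u.2 + 1, h1.1, Or.inr ⟨h1.2.1, h1.2.2, by ring⟩⟩)]
    rw [e]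
    exact Relation.EqvGen.refl _

/-- the sites of the open tiles of the cylinder -/
theorem ScIns_ek {a n N : ℕ} (_hn : 1 ≤ n) {t : ℕ × ℕ} (ht : t ∈ TC a n N) {u v : XS} (h : ek a (a + n) N t u v) :
    (2 * a + 2 ≤ u.1.1 ∧ u.1.2 ≤ 2 * N) ∧ (2 * a + 2 ≤ v.1.1 ∧ v.1.2 ≤ 2 * N) := by
  unfold TC at ht
  rw [mem_product, mem_Icc, mem_range] at ht
  obtain ⟨j, hj⟩ := h
  split_ifs at hj with c1
  · obtain ⟨h1, h2⟩ := hj
    rw [h1, h2]
    refine ⟨⟨?_, ?_⟩, ?_, ?_⟩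
    · show 2 * a + 2 ≤ 2 * (a + n) + 1
      omega
    · show t.2 + t.2 % 2 ≤ 2 * N
      omega
    · show 2 * a + 2 ≤ 2 * a + 2
      omega
    · show t.2 + (t.2 + 1) % 2 ≤ 2 * N
      omega
  · obtain ⟨h1, h2⟩ := hj
    rw [h1, h2]
    have h3 : t.1 ≠ 2 * a + 1 := fun h4 => c1 ⟨h4, ht.2⟩
    unfold lo FKH.hi
    split_ifs
    · refine ⟨⟨?_, ?_⟩, ?_, ?_⟩
      · show 2 * a + 2 ≤ t.1
        omega
      · show t.2 ≤ 2 * N
        omega
      · show 2 * a + 2 ≤ t.1 + 1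
        omega
      · show t.2 + 1 ≤ 2 * N
        omega
    · refine ⟨⟨?_, ?_⟩, ?_, ?_⟩
      · show 2 * a + 2 ≤ t.1 + 1
        omega
      · show t.2 ≤ 2 * N
        omega
      · show 2 * a + 2 ≤ t.1
        omega
      · show t.2 + 1 ≤ 2 * N
        omega

theorem ScIns_iff {a n N : ℕ} (hn : 1 ≤ n) {c : Finset (ℕ × ℕ)} (hc : c ⊆ TC a n N) (u v : XS) :
    Relation.EqvGen (RR a (a + n) N c) u v ↔
      Relation.EqvGen (RC a (a + n) N c) (ScIns_rho a (a + n) N u) (ScIns_rho a (a + n) N v) := by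
  constructor
  · intro h
    refine gen_map (ScIns_rho a (a + n) N) (fun x y hxy => ?_) h
    rcases hxy with ⟨t, ht, h1⟩ | ⟨j, h1, h2⟩
    · have h2 := ScIns_ek hn (hc ht) h1
      rw [ScIns_id (by omega) h2.1.2, ScIns_id (by omega) h2.2.2]
      exact Relation.EqvGen.rel _ _ ⟨t, ht, h1⟩
    · rw [ScIns_onR hn h1, ScIns_onR hn h2]
      exact Relation.EqvGen.refl _
  · intro h
    have h1 : Relation.EqvGen (RR a (a + n) N c) (ScIns_rho a (a + n) N u) (ScIns_rho a (a + n) N v) :=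
      gen_mono (fun _ _ h2 => Or.inl h2) h
    exact ((ScIns_self hn c u).trans _ _ _ h1).trans _ _ _ ((ScIns_self hn c v).symm _ _)

/-- the labels of the gaps inside of the left block -/
theorem ScIns_in {a n N : ℕ} {g : ℤ} (hg : iso a n g) :
    ss (2 * n + 2 + 2 * a) a (F0 a N (2 * n + 2 + 2 * a)) 0 g =
      (((g % (2 * n + 2 + 2 * a : ℕ) - 1).toNat, 0), g / (2 * n + 2 + 2 * a : ℕ)) := by
  obtain ⟨h1, h2⟩ := hg
  have h3 : (g % (2 * n + 2 + 2 * a : ℕ) - 1).toNat ≠ 2 * a + 1 := by omega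
  unfold ss
  rw [if_pos ⟨by omega, by omega⟩]
  have e : cu a (0 / (2 * a)) (0 % (2 * a)) (g % (2 * n + 2 + 2 * a : ℕ) - 1).toNat = ((g % (2 * n + 2 + 2 * a : ℕ) - 1).toNat, 0) := by
    rw [Nat.zero_div, Nat.zero_mod]
    unfold cu
    rw [if_neg h3]
    have e1 : hh a 0 0 (g % (2 * n + 2 + 2 * a : ℕ) - 1).toNat = 0 := by
      unfold hh FKH.dn
      split_ifs
      all_goals omega
    rw [e1, if_pos rfl]
  rw [e]

/-- the labels of the other even gaps -/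
theorem ScIns_out {a n N : ℕ} (hn : 1 ≤ n) {g : ℤ} (h2 : (2 : ℤ) ∣ g) (hg : ¬ iso a n g) :
    ScIns_rho a (a + n) N (ss (2 * n + 2 + 2 * a) a (F0 a N (2 * n + 2 + 2 * a)) 0 g) = cs a n (cg a n g) (2 * N) := by
  have hP : (0 : ℤ) < (2 * n + 2 + 2 * a : ℕ) := by omega
  have h3 := Int.emod_nonneg g hP.ne'
  have h4 := Int.emod_lt_of_pos g hP
  have h5 := even_mod a n h2
  unfold iso at hg
  unfold ss
  rw [if_neg (fun h => hg ⟨by omega, by omega⟩)]
  unfold F0 cg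
  generalize g % ((2 * n + 2 + 2 * a : ℕ) : ℤ) = z at *
  generalize g / ((2 * n + 2 + 2 * a : ℕ) : ℤ) = w at *
  have hc : cs a n (w * (2 * n : ℕ)) (2 * N) = ((2 * (a + n) + 1, 2 * N), w - 1) := by
    have h6 := ScCyl_cs_js (a := a) (n := n) (w - 1) (2 * n - 1) (2 * N) (by omega)
    have e : (w - 1) * ((2 * n : ℕ) : ℤ) + (((2 * n - 1 : ℕ) : ℤ) + 1) = w * (2 * n : ℕ) := by
      have : ((2 * n - 1 : ℕ) : ℤ) = (2 * n : ℕ) - 1 := by omega
      rw [this]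
      push_cast
      ring
    rw [e] at h6
    rw [h6]
    have e2 : 2 * a + 2 + (2 * n - 1) = 2 * (a + n) + 1 := by omega
    rw [e2]
  have hr : ScIns_rho a (a + n) N (rb a w) = ((2 * (a + n) + 1, 2 * N), w - 1) :=
    ScIns_onR hn ⟨rfl, Or.inl ⟨rfl, Nat.zero_le _, rfl⟩⟩
  by_cases c1 : z = 0
  · rw [if_pos (Or.inl c1), if_pos c1, hc, hr]
  · by_cases c2 : z = 2 * a + 2
    · rw [if_pos (Or.inr c2), if_neg c1, c2, sub_self, add_zero, hc, hr]
    · rw [if_neg (fun h => by rcases h with h | h; exacts [c1 h, c2 h]), if_neg c1]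
      have h6 : 2 * (a : ℤ) + 4 ≤ z := by
        by_contra hlt
        apply hg
        omega
      have h7 := ScCyl_cs_js (a := a) (n := n) w (z - (2 * a + 3)).toNat (2 * N) (by push_cast at h4; omega)
      have e : w * ((2 * n : ℕ) : ℤ) + (((z - (2 * a + 3)).toNat : ℤ) + 1) = w * (2 * n : ℕ) + (z - (2 * a + 2)) := by
        rw [Int.toNat_of_nonneg (by omega)]
        ring
      rw [e] at h7
      rw [h7]
      have e2 : 2 * a + 2 + (z - (2 * a + 3)).toNat = (z - 1).toNat := by omega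
      rw [e2]
      exact ScIns_id (by show (z - 1).toNat ≠ 2 * a + 1; omega) le_rfl

/-- the sites on the left of the cylinder are alone -/
theorem ScIns_alone {a n N : ℕ} (hn : 1 ≤ n) {c : Finset (ℕ × ℕ)} (hc : c ⊆ TC a n N) {u v : XS} (hu : u.1.1 ≤ 2 * a)
    (h : Relation.EqvGen (RC a (a + n) N c) u v) : v = u := by
  refine (gen_iso (x := u) (fun x y hxy => ?_) h).1 rfl
  obtain ⟨t, ht, h1⟩ := hxy
  have h2 := ScIns_ek hn (hc ht) h1
  constructor
  · rintro rfl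
    omega
  · rintro rfl
    omega

theorem ScIns_two_cg {a n : ℕ} {g : ℤ} (h : (2 : ℤ) ∣ g) : (2 : ℤ) ∣ cg a n g := by
  have h5 := even_mod a n h
  unfold cg
  have h1 : (2 : ℤ) ∣ g / (2 * n + 2 + 2 * a : ℕ) * (2 * n : ℕ) := by
    push_cast
    exact Dvd.dvd.mul_left (dvd_mul_right _ _) _
  split_ifs
  · exact h1
  · exact dvd_add h1 (dvd_sub h5 (by omega))

/-- the start of the strip process: left block at the height `0`, cylinder at the height `2 N` -/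
theorem inv_start {a n N : ℕ} (_ha : 1 ≤ a) (hn : 1 ≤ n) {c : Finset (ℕ × ℕ)} (hc : c ⊆ TC a n N) :
    Inv (beta a (pats (tC a c) (acy n hn) (2 * N))) (ss (2 * n + 2 + 2 * a) a (F0 a N (2 * n + 2 + 2 * a)) 0) (RR a (a + n) N c) := by
  intro g g' hg hg'
  rw [reg_beta _ hg hg', ScIns_iff hn hc]
  have hin : ∀ g : ℤ, iso a n g → ScIns_rho a (a + n) N (ss (2 * n + 2 + 2 * a) a (F0 a N (2 * n + 2 + 2 * a)) 0 g) =
      (((g % (2 * n + 2 + 2 * a : ℕ) - 1).toNat, 0), g / (2 * n + 2 + 2 * a : ℕ)) := by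
    intro g h
    rw [ScIns_in h]
    refine ScIns_id ?_ (Nat.zero_le _)
    show (g % (2 * n + 2 + 2 * a : ℕ) - 1).toNat ≠ 2 * a + 1
    have := h.2
    omega
  have hcs : ∀ g : ℤ, 2 * a + 2 ≤ (cs a n g (2 * N)).1.1 := by
    intro g
    show 2 * a + 2 ≤ 2 * a + 2 + ((g - 1) % (2 * n : ℕ)).toNat
    omega
  -- a gap inside
  have key : ∀ g g' : ℤ, iso a n g → Relation.EqvGen (RC a (a + n) N c)
      (ScIns_rho a (a + n) N (ss (2 * n + 2 + 2 * a) a (F0 a N (2 * n + 2 + 2 * a)) 0 g))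
      (ScIns_rho a (a + n) N (ss (2 * n + 2 + 2 * a) a (F0 a N (2 * n + 2 + 2 * a)) 0 g')) → (2 : ℤ) ∣ g' → g = g' := by
    intro g g' hi h h2
    rw [hin g hi] at h
    have h3 := ScIns_alone hn hc (show (g % (2 * n + 2 + 2 * a : ℕ) - 1).toNat ≤ 2 * a by
      have := hi.2
      omega) h
    by_cases hi' : iso a n g'
    · rw [hin g' hi', Prod.mk.injEq, Prod.mk.injEq] at h3
      have h4 := hi.1
      have h5 := hi'.1
      have e1 := Int.emod_add_mul_ediv g ((2 * n + 2 + 2 * a : ℕ) : ℤ)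
      have e2 := Int.emod_add_mul_ediv g' ((2 * n + 2 + 2 * a : ℕ) : ℤ)
      have e3 : g' % ((2 * n + 2 + 2 * a : ℕ) : ℤ) = g % ((2 * n + 2 + 2 * a : ℕ) : ℤ) := by omega
      rw [← e1, ← e2, e3, h3.2]
    · rw [ScIns_out hn h2 hi'] at h3
      have h4 := hcs (cg a n g')
      rw [h3] at h4
      have h5 : 2 * a + 2 ≤ (g % (2 * n + 2 + 2 * a : ℕ) - 1).toNat := h4
      have := hi.2
      omega
  by_cases hi : iso a n g
  · constructor
    · rintro (h | ⟨h, _⟩)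
      · rw [h]
        exact Relation.EqvGen.refl _
      · exact absurd hi h
    · intro h
      exact Or.inl (key g g' hi h hg')
  · by_cases hi' : iso a n g'
    · constructor
      · rintro (h | ⟨_, h, _⟩)
        · rw [h]
          exact Relation.EqvGen.refl _
        · exact absurd hi' h
      · intro h
        exact Or.inl (key g' g hi' (h.symm _ _) hg).symm
    · rw [ScIns_out hn hg hi, ScIns_out hn hg' hi', ← cyl_reg hn hc (ScIns_two_cg hg) (ScIns_two_cg hg')]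
      constructor
      · rintro (h | ⟨_, _, h⟩)
        · rw [h]
          exact reg_refl _ _
        · exact h
      · intro h
        exact Or.inr ⟨hi, hi', h⟩

end SCH
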