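import Pool.Agent.Lib.MP_216314_pr.K.KRow

/-!
# Patterns and connectivity: the four steps

`Inv α s r`: for all even gaps `g`, `g'` of the periodic pattern `α`: no arc separates them iff the labels `s g`, `s g'` are connected
by the relation `r`. The four steps: a move `e i` with `i` odd cuts the even gaps `≡ i + 1`, whose new labels are isolated (`inv_cut`); without
the move the new labels are joined to the old ones (`inv_up`); a move `e i` with `i` even joins the gaps `i`, `i + 2` (`inv_join`).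
-/

set_option autoImplicit false

noncomputable section

namespace SCH

open CY Finset

variable {P : ℕ}

/-- two gaps which are not separated have the same parity -/
theorem reg_even_le (α : Pat P) {g g' : ℤ} (hg : g ≤ g') (h : Reg α g g') : (2 : ℤ) ∣ g ↔ (2 : ℤ) ∣ g' := by
  have hC : ∀ y ∈ Set.Ico g g', α.f y ∈ Set.Ico g g' := by
    intro y hy
    rw [Set.mem_Ico] at hy ⊢
    constructor
    · by_contra hlt
      have h1 := (h (α.f y)).1 ⟨by omega, by rw [α.inv]; exact hy.1⟩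
      rw [α.inv] at h1
      omega
    · by_contra hlt
      have h1 := (h y).2 ⟨hy.2, by omega⟩
      omega
  have h1 := even_card α (Set.finite_Ico g g') hC
  have h2 : (Set.Ico g g').ncard = (g' - g).toNat := by
    rw [← Finset.coe_Ico, Set.ncard_coe_finset, Int.card_Ico]
  rw [h2] at h1
  obtain ⟨k, hk⟩ := h1
  omega

theorem reg_even (α : Pat P) {g g' : ℤ} (h : Reg α g g') : (2 : ℤ) ∣ g ↔ (2 : ℤ) ∣ g' := by
  rcases le_total g g' with h1 | h1
  · exact reg_even_le α h1 h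
  · exact (reg_even_le α h1 (reg_symm α h)).symm

/-- the label invariant, for even gaps -/
def Inv {X : Type} (α : Pat P) (s : ℤ → X) (r : X → X → Prop) : Prop :=
  ∀ g g' : ℤ, (2 : ℤ) ∣ g → (2 : ℤ) ∣ g' → (Reg α g g' ↔ Relation.EqvGen r (s g) (s g'))

/-- connected labels can be exchanged -/
theorem inv_congr {X : Type} {α : Pat P} {s s' : ℤ → X} {r : X → X → Prop} (h : Inv α s r)
    (hs : ∀ g, (2 : ℤ) ∣ g → Relation.EqvGen r (s g) (s' g)) : Inv α s' r := by
  intro g g' hg hg'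
  rw [h g g' hg hg']
  exact ⟨fun h1 => ((hs g hg).symm _ _).trans _ _ _ (h1.trans _ _ _ (hs g' hg')),
    fun h1 => (hs g hg).trans _ _ _ (h1.trans _ _ _ ((hs g' hg').symm _ _))⟩

/-- equivalent relations can be exchanged -/
theorem inv_rel {X : Type} {α : Pat P} {s : ℤ → X} {r r' : X → X → Prop} (h : Inv α s r)
    (h1 : ∀ a b, r a b → Relation.EqvGen r' a b) (h2 : ∀ a b, r' a b → Relation.EqvGen r a b) : Inv α s r' := by
  intro g g' hg hg'
  rw [h g g' hg hg']
  have key : ∀ (p q : X → X → Prop), (∀ a b, p a b → Relation.EqvGen q a b) → ∀ a b, Relation.EqvGen p a b →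
      Relation.EqvGen q a b := by
    intro p q hpq a b hab
    induction hab with
    | rel a b h => exact hpq a b h
    | refl a => exact Relation.EqvGen.refl _
    | symm a b _ ih => exact Relation.EqvGen.symm _ _ ih
    | trans a b c _ _ ih1 ih2 => exact Relation.EqvGen.trans _ _ _ ih1 ih2
  exact ⟨key r r' h1 _ _, key r' r h2 _ _⟩

/-- adding generators between labels -/
theorem gen_comp {X I : Type} (s : I → X) (r r' : X → X → Prop) (R Q : I → I → Prop)
    (hR : ∀ i i', R i i' ↔ Relation.EqvGen r (s i) (s i'))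
    (h1 : ∀ a b, r' a b → Relation.EqvGen r a b ∨ ∃ i i', Q i i' ∧
      ((Relation.EqvGen r a (s i) ∧ Relation.EqvGen r b (s i')) ∨ (Relation.EqvGen r a (s i') ∧ Relation.EqvGen r b (s i))))
    (h2 : ∀ a b, r a b → Relation.EqvGen r' a b)
    (h3 : ∀ i i', Q i i' → Relation.EqvGen r' (s i) (s i')) (i i' : I) :
    Relation.EqvGen r' (s i) (s i') ↔ Relation.EqvGen (fun a b => R a b ∨ Q a b) i i' := by
  have hr : ∀ a b, Relation.EqvGen r a b → Relation.EqvGen r' a b := by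
    intro a b hab
    induction hab with
    | rel a b h => exact h2 a b h
    | refl a => exact Relation.EqvGen.refl _
    | symm a b _ ih => exact Relation.EqvGen.symm _ _ ih
    | trans a b c _ _ ih1 ih2 => exact Relation.EqvGen.trans _ _ _ ih1 ih2
  constructor
  · have key : ∀ x y, Relation.EqvGen r' x y → Relation.EqvGen r x y ∨ ∃ i i', Relation.EqvGen r x (s i) ∧
        Relation.EqvGen (fun a b => R a b ∨ Q a b) i i' ∧ Relation.EqvGen r (s i') y := by
      intro x y hxy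
      induction hxy with
      | rel x y h =>
        rcases h1 x y h with h | ⟨i, i', hq, ⟨h4, h5⟩ | ⟨h4, h5⟩⟩
        · exact Or.inl h
        · exact Or.inr ⟨i, i', h4, Relation.EqvGen.rel _ _ (Or.inr hq), Relation.EqvGen.symm _ _ h5⟩
        · exact Or.inr ⟨i', i, h4, Relation.EqvGen.symm _ _ (Relation.EqvGen.rel _ _ (Or.inr hq)),
            Relation.EqvGen.symm _ _ h5⟩
      | refl x => exact Or.inl (Relation.EqvGen.refl _)
      | symm x y _ ih =>
        rcases ih with h | ⟨i, i', h4, h5, h6⟩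
        · exact Or.inl (Relation.EqvGen.symm _ _ h)
        · exact Or.inr ⟨i', i, Relation.EqvGen.symm _ _ h6, Relation.EqvGen.symm _ _ h5, Relation.EqvGen.symm _ _ h4⟩
      | trans x y z _ _ ih1 ih2 =>
        rcases ih1 with h | ⟨i, i', h4, h5, h6⟩
        · rcases ih2 with h' | ⟨k, k', g4, g5, g6⟩
          · exact Or.inl (Relation.EqvGen.trans _ _ _ h h')
          · exact Or.inr ⟨k, k', Relation.EqvGen.trans _ _ _ h g4, g5, g6⟩
        · rcases ih2 with h' | ⟨k, k', g4, g5, g6⟩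
          · exact Or.inr ⟨i, i', h4, h5, Relation.EqvGen.trans _ _ _ h6 h'⟩
          · refine Or.inr ⟨i, k', h4, Relation.EqvGen.trans _ _ _ h5 (Relation.EqvGen.trans _ _ _ ?_ g5), g6⟩
            exact Relation.EqvGen.rel _ _ (Or.inl ((hR i' k).2 (Relation.EqvGen.trans _ _ _ h6 g4)))
    intro h
    rcases key _ _ h with h | ⟨k, k', h4, h5, h6⟩
    · exact Relation.EqvGen.rel _ _ (Or.inl ((hR i i').2 h))
    · exact Relation.EqvGen.trans _ _ _ (Relation.EqvGen.rel _ _ (Or.inl ((hR i k).2 h4)))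
        (Relation.EqvGen.trans _ _ _ h5 (Relation.EqvGen.rel _ _ (Or.inl ((hR k' i').2 h6))))
  · intro h
    induction h with
    | rel a b h =>
      rcases h with h | h
      · exact hr _ _ ((hR a b).1 h)
      · exact h3 a b h
    | refl a => exact Relation.EqvGen.refl _
    | symm a b _ ih => exact Relation.EqvGen.symm _ _ ih
    | trans a b c _ _ ih1 ih2 => exact Relation.EqvGen.trans _ _ _ ih1 ih2

theorem cut_even (hP : (2 : ℤ) ∣ P) {i g : ℤ} (hi : ¬ (2 : ℤ) ∣ i) (h : (P : ℤ) ∣ g - i - 1) : (2 : ℤ) ∣ g := by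
  have h1 := hP.trans h
  omega

theorem ncut_even (hP : (2 : ℤ) ∣ P) {i g : ℤ} (hi : (2 : ℤ) ∣ i) (hg : (2 : ℤ) ∣ g) : NCut P i g := by
  intro h
  have h1 := hP.trans h
  omega

/-- the moves with odd number do not change the relation of the other even gaps -/
theorem reg_e_odd (hP : (2 : ℤ) ∣ P) {α : Pat P} {i g g' : ℤ} (hi : ¬ (2 : ℤ) ∣ i) (hg : (2 : ℤ) ∣ g) (h1 : NCut P i g)
    (h2 : NCut P i g') : Reg (Pat.e i α) g g' ↔ Reg α g g' := by
  rw [reg_e_iff h1 h2]
  constructor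
  · intro h
    have key : ∀ x y, Relation.EqvGen (Mr α i) x y → ((2 : ℤ) ∣ x ↔ (2 : ℤ) ∣ y) ∧ ((2 : ℤ) ∣ x → Reg α x y) := by
      intro x y hxy
      induction hxy with
      | rel x y h =>
        rcases h with h | ⟨h, h'⟩
        · exact ⟨reg_even α h, fun _ => h⟩
        · have h3 := hP.trans h'
          exact ⟨by omega, fun h4 => by omega⟩
      | refl x => exact ⟨Iff.rfl, fun _ => reg_refl α x⟩
      | symm x y _ ih => exact ⟨ih.1.symm, fun h4 => reg_symm α (ih.2 (ih.1.2 h4))⟩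
      | trans x y z _ _ ih1 ih2 => exact ⟨ih1.1.trans ih2.1, fun h4 => reg_trans (ih1.2 h4) (ih2.2 (ih1.1.1 h4))⟩
    exact (key g g' h).2 hg
  · intro h
    exact Relation.EqvGen.rel _ _ (Or.inl h)

/-- the move `e i`, `i` odd: the gaps `≡ i + 1` get isolated labels -/
theorem inv_cut {X : Type} (hP : (2 : ℤ) ∣ P) {α : Pat P} {s s' : ℤ → X} {r : X → X → Prop} {i : ℤ} (hi : ¬ (2 : ℤ) ∣ i)
    (h : Inv α s r) (hs : ∀ g, (2 : ℤ) ∣ g → ¬ (P : ℤ) ∣ g - i - 1 → s' g = s g)
    (hf : ∀ g, (P : ℤ) ∣ g - i - 1 → ∀ a b, r a b → a ≠ s' g ∧ b ≠ s' g)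
    (hj : ∀ g g', (P : ℤ) ∣ g - i - 1 → (2 : ℤ) ∣ g' → s' g = s' g' → g = g') : Inv (Pat.e i α) s' r := by
  have one : ∀ g g' : ℤ, (P : ℤ) ∣ g - i - 1 → (2 : ℤ) ∣ g' →
      (Reg (Pat.e i α) g g' ↔ Relation.EqvGen r (s' g) (s' g')) := by
    intro g g' hg hg'
    constructor
    · intro h1
      have e1 : g - 1 + 1 = g := by ring
      have h2 : (P : ℤ) ∣ g - 1 - i := by
        have e2 : g - 1 - i = g - i - 1 := by ring
        rwa [e2]
      have h3 : g' = g - 1 + 1 := reg_e_cut α h2 (by rwa [e1])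
      rw [h3, e1]
      exact Relation.EqvGen.refl _
    · intro h1
      have h2 := (gen_iso (hf g hg) h1).1 rfl
      rw [← hj g g' hg hg' h2.symm]
      exact reg_refl _ _
  intro g g' hg hg'
  by_cases c : (P : ℤ) ∣ g - i - 1
  · exact one g g' c hg'
  · by_cases c' : (P : ℤ) ∣ g' - i - 1
    · constructor
      · intro h1
        exact ((one g' g c' hg).1 (reg_symm _ h1)).symm _ _
      · intro h1
        exact reg_symm _ ((one g' g c' hg).2 (h1.symm _ _))
    · rw [reg_e_odd hP hi hg c c', hs g hg c, hs g' hg' c']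
      exact h g g' hg hg'

/-- no move, `i` odd: the gaps `≡ i + 1` get new labels which are joined to the old ones -/
theorem inv_up {X : Type} (hP : (2 : ℤ) ∣ P) {α : Pat P} {s s' : ℤ → X} {r r' : X → X → Prop} {i : ℤ} (hi : ¬ (2 : ℤ) ∣ i)
    (h : Inv α s r) (hs : ∀ g, (2 : ℤ) ∣ g → ¬ (P : ℤ) ∣ g - i - 1 → s' g = s g)
    (hf : ∀ g, (P : ℤ) ∣ g - i - 1 → ∀ a b, r a b → a ≠ s' g ∧ b ≠ s' g)
    (hj : ∀ g g', (P : ℤ) ∣ g - i - 1 → (2 : ℤ) ∣ g' → s' g = s' g' → g = g')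
    (hn : ∀ g g', (P : ℤ) ∣ g - i - 1 → (2 : ℤ) ∣ g' → s' g ≠ s g')
    (h1 : ∀ a b, r' a b ↔ r a b ∨ ∃ g, (P : ℤ) ∣ g - i - 1 ∧ a = s g ∧ b = s' g) : Inv α s' r' := by
  classical
  let ψ : X → X := fun x => if hx : ∃ g, (P : ℤ) ∣ g - i - 1 ∧ s' g = x then s (Classical.choose hx) else x
  have ψ1 : ∀ g, (P : ℤ) ∣ g - i - 1 → ψ (s' g) = s g := by
    intro g hg
    have hx : ∃ g', (P : ℤ) ∣ g' - i - 1 ∧ s' g' = s' g := ⟨g, hg, rfl⟩
    have h2 := Classical.choose_spec hx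
    have h3 : Classical.choose hx = g := hj _ _ h2.1 (cut_even hP hi hg) h2.2
    show (if hx : ∃ g', (P : ℤ) ∣ g' - i - 1 ∧ s' g' = s' g then s (Classical.choose hx) else s' g) = s g
    rw [dif_pos hx, h3]
  have ψ2 : ∀ g, (2 : ℤ) ∣ g → ψ (s g) = s g := by
    intro g hg
    show (if hx : ∃ g', (P : ℤ) ∣ g' - i - 1 ∧ s' g' = s g then s (Classical.choose hx) else s g) = s g
    rw [dif_neg]
    rintro ⟨g', h2, h3⟩
    exact hn g' g h2 hg h3
  have ψ3 : ∀ x, (∀ g, (P : ℤ) ∣ g - i - 1 → x ≠ s' g) → ψ x = x := by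
    intro x hx
    show (if hx : ∃ g', (P : ℤ) ∣ g' - i - 1 ∧ s' g' = x then s (Classical.choose hx) else x) = x
    rw [dif_neg]
    rintro ⟨g', h2, h3⟩
    exact hx g' h2 h3.symm
  have fwd : ∀ x y, Relation.EqvGen r' x y → Relation.EqvGen r (ψ x) (ψ y) := by
    intro x y hxy
    induction hxy with
    | rel x y hr =>
      rcases (h1 x y).1 hr with hr | ⟨g, hg, rfl, rfl⟩
      · rw [ψ3 x fun g hg => (hf g hg x y hr).1, ψ3 y fun g hg => (hf g hg x y hr).2]
        exact Relation.EqvGen.rel _ _ hr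
      · rw [ψ1 g hg, ψ2 g (cut_even hP hi hg)]
        exact Relation.EqvGen.refl _
    | refl x => exact Relation.EqvGen.refl _
    | symm x y _ ih => exact Relation.EqvGen.symm _ _ ih
    | trans x y z _ _ ih1 ih2 => exact Relation.EqvGen.trans _ _ _ ih1 ih2
  have lab : ∀ g, (2 : ℤ) ∣ g → ψ (s' g) = s g ∧ Relation.EqvGen r' (s g) (s' g) := by
    intro g hg
    by_cases c : (P : ℤ) ∣ g - i - 1
    · exact ⟨ψ1 g c, Relation.EqvGen.rel _ _ ((h1 _ _).2 (Or.inr ⟨g, c, rfl, rfl⟩))⟩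
    · rw [hs g hg c]
      exact ⟨ψ2 g hg, Relation.EqvGen.refl _⟩
  intro g g' hg hg'
  rw [h g g' hg hg']
  constructor
  · intro h2
    have h3 : Relation.EqvGen r' (s g) (s g') := gen_mono (fun u v huv => (h1 u v).2 (Or.inl huv)) h2
    exact Relation.EqvGen.trans _ _ _ (Relation.EqvGen.symm _ _ (lab g hg).2) (Relation.EqvGen.trans _ _ _ h3 (lab g' hg').2)
  · intro h2
    have h3 := fwd _ _ h2
    rwa [(lab g hg).1, (lab g' hg').1] at h3

/-- the move `e i`, `i` even: the labels of the gaps `i`, `i + 2` are joined -/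
theorem inv_join {X : Type} (hP : (2 : ℤ) ∣ P) {α : Pat P} {s : ℤ → X} {r r' : X → X → Prop} {i : ℤ} (hi : (2 : ℤ) ∣ i)
    (h : Inv α s r)
    (h1 : ∀ a b, r' a b → Relation.EqvGen r a b ∨ ∃ g, (P : ℤ) ∣ g - i ∧
      ((Relation.EqvGen r a (s g) ∧ Relation.EqvGen r b (s (g + 2))) ∨ (Relation.EqvGen r a (s (g + 2)) ∧ Relation.EqvGen r b (s g))))
    (h2 : ∀ a b, r a b → Relation.EqvGen r' a b)
    (h3 : ∀ g, (P : ℤ) ∣ g - i → Relation.EqvGen r' (s g) (s (g + 2))) : Inv (Pat.e i α) s r' := by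
  have hev : ∀ g, (P : ℤ) ∣ g - i → (2 : ℤ) ∣ g := by
    intro g hg
    have := hP.trans hg
    omega
  intro g g' hg hg'
  rw [reg_e_iff (ncut_even hP hi hg) (ncut_even hP hi hg')]
  let R : {g : ℤ // (2 : ℤ) ∣ g} → {g : ℤ // (2 : ℤ) ∣ g} → Prop := fun a b => Reg α a.1 b.1
  let Q : {g : ℤ // (2 : ℤ) ∣ g} → {g : ℤ // (2 : ℤ) ∣ g} → Prop := fun a b => b.1 = a.1 + 2 ∧ (P : ℤ) ∣ a.1 - i
  have e1 : Relation.EqvGen (Mr α i) g g' ↔ Relation.EqvGen (fun a b => R a b ∨ Q a b) ⟨g, hg⟩ ⟨g', hg'⟩ := by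
    constructor
    · intro h4
      have key : ∀ x y, Relation.EqvGen (Mr α i) x y → ((2 : ℤ) ∣ x ↔ (2 : ℤ) ∣ y) ∧
          ∀ (hx : (2 : ℤ) ∣ x) (hy : (2 : ℤ) ∣ y), Relation.EqvGen (fun a b => R a b ∨ Q a b) ⟨x, hx⟩ ⟨y, hy⟩ := by
        intro x y hxy
        induction hxy with
        | rel x y h =>
          rcases h with h | ⟨h, h'⟩
          · exact ⟨reg_even α h, fun _ _ => Relation.EqvGen.rel _ _ (Or.inl h)⟩
          · have h5 := hev x h'
            exact ⟨by omega, fun _ _ => Relation.EqvGen.rel _ _ (Or.inr ⟨h, h'⟩)⟩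
        | refl x => exact ⟨Iff.rfl, fun _ _ => Relation.EqvGen.refl _⟩
        | symm x y _ ih => exact ⟨ih.1.symm, fun hx hy => Relation.EqvGen.symm _ _ (ih.2 hy hx)⟩
        | trans x y z _ _ ih1 ih2 =>
          exact ⟨ih1.1.trans ih2.1, fun hx hz => Relation.EqvGen.trans _ _ _ (ih1.2 hx (ih1.1.1 hx)) (ih2.2 (ih1.1.1 hx) hz)⟩
      exact (key g g' h4).2 hg hg'
    · intro h4
      exact gen_map (r := fun a b => R a b ∨ Q a b) (r' := Mr α i) Subtype.val (fun u v huv => by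
        rcases huv with huv | huv
        · exact Relation.EqvGen.rel _ _ (Or.inl huv)
        · exact Relation.EqvGen.rel _ _ (Or.inr huv)) h4
  rw [e1]
  have h5 := gen_comp (fun a : {g : ℤ // (2 : ℤ) ∣ g} => s a.1) r r' R Q (fun a b => h a.1 b.1 a.2 b.2)
    (fun a b hab => by
      rcases h1 a b hab with h6 | ⟨g, hg, h6⟩
      · exact Or.inl h6
      · exact Or.inr ⟨⟨g, hev g hg⟩, ⟨g + 2, by have := hev g hg; omega⟩, ⟨rfl, hg⟩, h6⟩) h2
    (fun a b hab => by
      have h6 := h3 a.1 hab.2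
      rw [← hab.1] at h6
      exact h6) ⟨g, hg⟩ ⟨g', hg'⟩
  exact h5.symm

/-- translation by a multiple of the period -/
theorem reg_shift {α : Pat P} {g g' : ℤ} (k : ℤ) (h : Reg α g g') : Reg α (g + k * P) (g' + k * P) := by
  intro x
  have h1 := h (x + (-k) * P)
  rw [α.per_mul] at h1
  constructor
  · rintro ⟨h2, h3⟩
    have h4 := h1.1 ⟨by linarith, by linarith⟩
    exact ⟨by linarith [h4.1], by linarith [h4.2]⟩
  · rintro ⟨h2, h3⟩
    have h4 := h1.2 ⟨by linarith, by linarith⟩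
    exact ⟨by linarith [h4.1], by linarith [h4.2]⟩

theorem reg_mul_pos {α : Pat P} {j : ℤ} (hj : 0 < j) (h : Reg α 0 (j * P)) : Reg α 0 P := by
  have hP := α.pos
  have hjP : (P : ℤ) ≤ j * P := by nlinarith
  have h0 : ∀ x, ¬ (x < 0 ∧ 0 ≤ α.f x) := by
    rintro x ⟨h1, h2⟩
    have h3 := (h x).1 ⟨h1, h2⟩
    have h4 := α.lt_per x
    rw [abs_lt] at h4
    omega
  intro x
  constructor
  · intro h1
    exact absurd h1 (h0 x)
  · rintro ⟨h1, h2⟩
    have h3 := α.per_mul x (-1)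
    refine absurd ?_ (h0 (x + (-1) * P))
    rw [h3]
    exact ⟨by linarith, by linarith⟩

/-- multiples of the period -/
theorem reg_mul {α : Pat P} {j : ℤ} (hj : j ≠ 0) (h : Reg α 0 (j * P)) : Reg α 0 P := by
  rcases lt_or_gt_of_ne hj with h1 | h1
  · refine reg_mul_pos (j := -j) (by omega) ?_
    have h2 := reg_shift (-j) h
    have e1 : (0 : ℤ) + -j * P = -j * P := by ring
    have e2 : j * P + -j * (P : ℤ) = 0 := by ring
    rw [e1, e2] at h2
    exact reg_symm _ h2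
  · exact reg_mul_pos h1 h

end SCH
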