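import Pool.Agent.Lib.MP_216314_pr.Sc.ScMono
import Pool.Agent.Lib.MP_216314_pr.SL.FinC

/-!
# The limit for all parities, from the exact value
-/

set_option autoImplicit false

noncomputable section

namespace SCH

open Filter Topology

/-- Schramm's function, `κ = 6` -/
def sch (v : ℝ) : ℝ := 1 / 2 + Real.Gamma (2 / 3) / (Real.sqrt Real.pi * Real.Gamma (1 / 6)) *
  ∫ y in (0 : ℝ)..v, (1 + y ^ 2) ^ (-(2 / 3) : ℝ)

theorem ScLim_ratio {c n p m : ℕ → ℕ} {s : ℝ} (hL : Tendsto (fun k => (c k : ℝ) + 2 * n k) atTop atTop)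
    (hs : Tendsto (fun k => (c k : ℝ) / ((c k : ℝ) + 2 * n k)) atTop (𝓝 s))
    (hd : ∀ᶠ k in atTop, |(p k : ℝ) + 1 - c k| ≤ 1 ∧ m k + 1 = n k) :
    Tendsto (fun k => (p k : ℝ) + 2 * m k + 3) atTop atTop ∧
    Tendsto (fun k => ((p k : ℝ) + 1) / ((p k : ℝ) + 2 * m k + 3)) atTop (𝓝 s) := by
  constructor
  · refine tendsto_atTop_mono' atTop ?_ (tendsto_atTop_add_const_right atTop (-1 : ℝ) hL)
    filter_upwards [hd] with k hk
    have h1 := (abs_le.1 hk.1).1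
    have h2 : (m k : ℝ) + 1 = n k := by exact_mod_cast hk.2
    linarith
  · have h0 : Tendsto (fun k => ((p k : ℝ) + 1 - c k) / ((c k : ℝ) + 2 * n k)) atTop (𝓝 0) := by
      rw [tendsto_zero_iff_norm_tendsto_zero]
      refine squeeze_zero' (Eventually.of_forall fun k => norm_nonneg _) ?_ hL.inv_tendsto_atTop
      filter_upwards [hd, hL.eventually_gt_atTop 0] with k hk h3
      rw [norm_div, Real.norm_eq_abs, Real.norm_eq_abs, abs_of_pos h3]
      show _ ≤ ((c k : ℝ) + 2 * n k)⁻¹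
      rw [inv_eq_one_div]
      exact div_le_div_of_nonneg_right hk.1 h3.le
    have h1 := (hs.add h0).div ((tendsto_const_nhds (x := (1 : ℝ))).add h0) (by norm_num)
    rw [add_zero, add_zero, div_one] at h1
    refine h1.congr' ?_
    filter_upwards [hd, hL.eventually_gt_atTop 0] with k hk h3
    have h2 : (m k : ℝ) + 1 = n k := by exact_mod_cast hk.2
    have e1 : (c k : ℝ) / ((c k : ℝ) + 2 * n k) + ((p k : ℝ) + 1 - c k) / ((c k : ℝ) + 2 * n k) =
        ((p k : ℝ) + 1) / ((c k : ℝ) + 2 * n k) := by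
      rw [← add_div]
      congr 1
      ring
    have e2 : 1 + ((p k : ℝ) + 1 - c k) / ((c k : ℝ) + 2 * n k) =
        ((p k : ℝ) + 2 * m k + 3) / ((c k : ℝ) + 2 * n k) := by
      rw [eq_div_iff h3.ne', add_mul, div_mul_cancel₀ _ h3.ne', ← h2]
      ring
    show ((c k : ℝ) / ((c k : ℝ) + 2 * n k) + ((p k : ℝ) + 1 - c k) / ((c k : ℝ) + 2 * n k)) /
      (1 + ((p k : ℝ) + 1 - c k) / ((c k : ℝ) + 2 * n k)) = _
    rw [e1, e2, div_div_div_cancel_right₀ h3.ne']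

theorem ScLim_odd (hex : ∀ {k : ℕ}, Even k → ∀ n : ℕ, ((sri (k + 1) (n + 1) : ℝ) : ℂ) = (1 + CZ.EE k n) / 2)
    {p m : ℕ → ℕ} (hp : ∀ k, Even (p k)) {s : ℝ} (hs0 : 0 < s) (hs1 : s < 1)
    (hL : Tendsto (fun k => (p k : ℝ) + 2 * m k + 3) atTop atTop)
    (hs : Tendsto (fun k => ((p k : ℝ) + 1) / ((p k : ℝ) + 2 * m k + 3)) atTop (𝓝 s)) :
    Tendsto (fun k => sri (p k + 1) (m k + 1)) atTop (𝓝 (sch (2 * Real.sqrt s / (1 - s)))) := by
  have h1 := SL.schramm_limit' atTop p m hp hL hs0 hs1 hs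
  have h2 : Tendsto (fun k => ((sri (p k + 1) (m k + 1) : ℝ) : ℂ)) atTop
      (𝓝 ((sch (2 * Real.sqrt s / (1 - s)) : ℝ) : ℂ)) := by
    refine h1.congr fun k => ?_
    exact (hex (hp k) (m k)).symm
  have h3 := (Complex.continuous_re.tendsto _).comp h2
  rw [Complex.ofReal_re] at h3
  exact h3.congr fun k => Complex.ofReal_re _

/-- all parities of the width -/
theorem ScLim_all (hex : ∀ {k : ℕ}, Even k → ∀ n : ℕ, ((sri (k + 1) (n + 1) : ℝ) : ℂ) = (1 + CZ.EE k n) / 2)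
    {c n : ℕ → ℕ} {s : ℝ} (hs0 : 0 < s) (hs1 : s < 1)
    (hL : Tendsto (fun k => (c k : ℝ) + 2 * n k) atTop atTop)
    (hs : Tendsto (fun k => (c k : ℝ) / ((c k : ℝ) + 2 * n k)) atTop (𝓝 s)) :
    Tendsto (fun k => sri (c k) (n k)) atTop (𝓝 (sch (2 * Real.sqrt s / (1 - s)))) := by
  have hc : ∀ᶠ k in atTop, 1 ≤ c k := by
    filter_upwards [hs.eventually (lt_mem_nhds hs0)] with k hk
    by_contra h
    have h1 : c k = 0 := by omega
    rw [h1, Nat.cast_zero, zero_div] at hk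
    exact lt_irrefl _ hk
  have hn : ∀ᶠ k in atTop, 1 ≤ n k := by
    filter_upwards [hs.eventually (gt_mem_nhds hs1), hc] with k hk h2
    by_contra h
    have h1 : n k = 0 := by omega
    rw [h1, Nat.cast_zero, mul_zero, add_zero, div_self (by exact_mod_cast (by omega : c k ≠ 0))] at hk
    exact lt_irrefl _ hk
  have d1 : ∀ᶠ k in atTop, |((2 * ((c k - 1) / 2) : ℕ) : ℝ) + 1 - c k| ≤ 1 ∧ (n k - 1) + 1 = n k := by
    filter_upwards [hc, hn] with k h1 h2
    refine ⟨?_, by omega⟩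
    rw [abs_le]
    have g1 : c k ≤ 2 * ((c k - 1) / 2) + 1 + 1 := by omega
    have g2 : 2 * ((c k - 1) / 2) + 1 ≤ c k + 1 := by omega
    have g1' : (c k : ℝ) ≤ ((2 * ((c k - 1) / 2) : ℕ) : ℝ) + 1 + 1 := by exact_mod_cast g1
    have g2' : ((2 * ((c k - 1) / 2) : ℕ) : ℝ) + 1 ≤ (c k : ℝ) + 1 := by exact_mod_cast g2
    constructor
    · linarith
    · linarith
  have d2 : ∀ᶠ k in atTop, |((2 * (c k / 2) : ℕ) : ℝ) + 1 - c k| ≤ 1 ∧ (n k - 1) + 1 = n k := by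
    filter_upwards [hc, hn] with k h1 h2
    refine ⟨?_, by omega⟩
    rw [abs_le]
    have g1 : c k ≤ 2 * (c k / 2) + 1 + 1 := by omega
    have g2 : 2 * (c k / 2) + 1 ≤ c k + 1 := by omega
    have g1' : (c k : ℝ) ≤ ((2 * (c k / 2) : ℕ) : ℝ) + 1 + 1 := by exact_mod_cast g1
    have g2' : ((2 * (c k / 2) : ℕ) : ℝ) + 1 ≤ (c k : ℝ) + 1 := by exact_mod_cast g2
    constructor
    · linarith
    · linarith
  have r1 := ScLim_ratio hL hs d1
  have r2 := ScLim_ratio hL hs d2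
  have l1 := ScLim_odd hex (fun k => even_two_mul ((c k - 1) / 2)) hs0 hs1 r1.1 r1.2
  have l2 := ScLim_odd hex (fun k => even_two_mul (c k / 2)) hs0 hs1 r2.1 r2.2
  refine tendsto_of_tendsto_of_tendsto_of_le_of_le' l1 l2 ?_ ?_
  · filter_upwards [hc, hn] with k h1 h2
    have e1 : n k - 1 + 1 = n k := by omega
    rw [e1]
    rcases Nat.even_or_odd (c k) with ⟨t, ht⟩ | ⟨t, ht⟩
    · have e2 : 2 * ((c k - 1) / 2) + 1 + 1 = c k := by omega
      have h3 := sri_left (2 * ((c k - 1) / 2) + 1) (n k)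
      rw [e2] at h3
      exact h3
    · have e2 : 2 * ((c k - 1) / 2) + 1 = c k := by omega
      rw [e2]
  · filter_upwards [hc, hn] with k h1 h2
    have e1 : n k - 1 + 1 = n k := by omega
    rw [e1]
    rcases Nat.even_or_odd (c k) with ⟨t, ht⟩ | ⟨t, ht⟩
    · have e2 : 2 * (c k / 2) + 1 = c k + 1 := by omega
      rw [e2]
      exact sri_left (c k) (n k)
    · have e2 : 2 * (c k / 2) + 1 = c k := by omega
      rw [e2]

end SCH
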