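import Pool.Agent.Lib.MP_216314_pr.Sc.ScExact
import Pool.Agent.Lib.MP_216314_pr.Sc.ScLimA

/-!
# Schramm's formula for critical bond percolation on the square lattice
-/

set_option autoImplicit false

noncomputable section

namespace SCH

open Filter Topology

/-- **the limit**: `sri c n` tends to Schramm's function (`κ = 6`) if `c + 2 n → ∞` and `c / (c + 2 n) → s ∈ (0,1)` -/
theorem limit {c n : ℕ → ℕ} {s : ℝ} (hs0 : 0 < s) (hs1 : s < 1)
    (hL : Tendsto (fun k => (c k : ℝ) + 2 * n k) atTop atTop)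
    (hs : Tendsto (fun k => (c k : ℝ) / ((c k : ℝ) + 2 * n k)) atTop (𝓝 s)) :
    Tendsto (fun k => sri (c k) (n k)) atTop (𝓝 (1 / 2 + Real.Gamma (2 / 3) / (Real.sqrt Real.pi * Real.Gamma (1 / 6)) *
      ∫ y in (0 : ℝ)..(2 * Real.sqrt s / (1 - s)), (1 + y ^ 2) ^ (-(2 / 3) : ℝ))) :=
  ScLim_all (fun hk n => exact hk n) hs0 hs1 hL hs

end SCH
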