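import Pool.Agent.Lib.MP_216314_pr.Sc.ScRel
import Pool.Agent.Lib.MP_216314_pr.Sc.PSEnd
import Pool.Agent.Lib.MP_216314_pr.Sc.GluC

/-!
# Spin vectors of the glued states
-/

set_option autoImplicit false

noncomputable section

namespace SCH

open Finset FKI FKP FKH QS CD CY

/-- state vector on the sites `1, ..., P - 1`; the spin of the site `0` is down -/
def vs {P : ℕ} (α : Pat P) : Vc := fun D => s * PS 1 α (insert 0 D)

/-- cylinder part of a configuration -/
def dC (a : ℕ) (D : Finset ℕ) : Finset ℕ := (D.filter (fun x => 2 * a + 1 < x)).image (fun x => x - (2 * a + 2))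

theorem ee_vs {P i : ℕ} (α : Pat P) (h1 : 1 ≤ i) (h2 : i + 1 < P) : ee i (vs α) = vs (Pat.e i α) := by
  have h3 := ee_PS (t := 1) (Or.inl rfl) h2 α
  funext D
  have h4 := congrFun h3 (insert 0 D)
  have m1 : i ∈ insert 0 D ↔ i ∈ D := by
    rw [mem_insert]
    exact ⟨fun h => h.resolve_left (by omega), Or.inr⟩
  have m2 : i + 1 ∈ insert 0 D ↔ i + 1 ∈ D := by
    rw [mem_insert]
    exact ⟨fun h => h.resolve_left (by omega), Or.inr⟩
  unfold vs
  rw [← h4]
  unfold ee
  rw [swD_insert (by omega) (by omega)]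
  simp only [m1, m2]
  split_ifs <;> ring

open Classical in
/-- the boundary vector as a product -/
theorem v0_prodD (n : ℕ) (D : Finset ℕ) :
    v0 n D = (∏ x ∈ Icc 1 (2 * n), gx sg0 D x) * (if 2 * n + 1 ∈ D then 0 else 1) := by
  have hs := s_ne
  unfold v0 vec
  rw [Th_prod, prod_last2]
  have e0 : ∏ x ∈ Icc 1 (2 * n), gx sg0 (insert (2 * n + 2) D) x = ∏ x ∈ Icc 1 (2 * n), gx sg0 D x := by
    refine prod_congr rfl fun x hx => ?_
    rw [mem_Icc] at hx
    refine gx_congr ?_ ?_ Iff.rfl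
    · rw [mem_insert]
      exact ⟨fun h => h.resolve_left (by omega), Or.inr⟩
    · rw [mem_insert]
      have : sg0 x ≤ 2 * n := by unfold sg0; split_ifs <;> omega
      exact ⟨fun h => h.resolve_left (by omega), Or.inr⟩
  rw [e0]
  have g1 : sg0 (2 * n + 1) = 2 * n + 2 := by unfold sg0; rw [if_pos (by omega)]
  have g2 : sg0 (2 * n + 2) = 2 * n + 1 := by unfold sg0; rw [if_neg (by omega)]; rfl
  by_cases h : 2 * n + 1 ∈ D
  · rw [if_pos h, gx_zero (x := 2 * n + 1)]
    · ring
    · rw [g1]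
      intro h2
      exact h2.1 (mem_insert_self _ _) (mem_insert_of_mem h)
  · have h3 : 2 * n + 1 ∉ insert (2 * n + 2) D := by
      rw [mem_insert]
      rintro (h4 | h4)
      · omega
      · exact h h4
    rw [if_neg h, gx_up (x := 2 * n + 1) (by rw [g1]; exact mem_insert_self _ _) h3 (by rw [g1]; omega),
      gx_one (x := 2 * n + 2) ?_ (by rw [g2]; omega)]
    · field_simp
    · rw [g2]
      exact ⟨fun h4 => absurd h4 h3, fun h4 => absurd (mem_insert_self _ _) h4⟩

/-- the vector of the first glued pattern -/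
theorem vs_beta {a n : ℕ} (_hn : 1 ≤ n) (π : Pat (2 * n)) {D : Finset ℕ} (_hD : D ⊆ Icc 1 (2 * (a + n) + 1)) :
    vs (beta a π) D = v0 a (dL a D) * PS 1 π (dC a D) := by
  have hs := s_ne
  have mx : ∀ x : ℕ, x ≠ 0 → (x ∈ insert 0 D ↔ x ∈ D) := by
    intro x hx
    rw [mem_insert]
    exact ⟨fun h => h.resolve_left hx, Or.inr⟩
  have ml : ∀ x : ℕ, x ≤ 2 * a + 1 → (x ∈ D ↔ x ∈ dL a D) := by
    intro x hx
    unfold dL
    rw [mem_filter]
    exact ⟨fun h => ⟨h, hx⟩, fun h => h.1⟩
  unfold vs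
  rw [beta_eq a π (by ring), PS_gP (by ring) (sgb_nc a) π (E := dC a D) (fun j hj => by
      rw [mx _ (by omega)]
      unfold dC
      rw [mem_image]
      constructor
      · rintro ⟨x, hx, rfl⟩
        rw [mem_filter] at hx
        have e : 2 * a + 2 + (x - (2 * a + 2)) = x := by omega
        rw [e]
        exact hx.1
      · intro h
        exact ⟨_, mem_filter.2 ⟨h, by omega⟩, by omega⟩), prod_range_split, v0_prodD]
  have e1 : ∏ x ∈ Icc 1 (2 * a), gx (sgb a) (insert 0 D) x = ∏ x ∈ Icc 1 (2 * a), gx sg0 (dL a D) x := by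
    refine prod_congr rfl fun x hx => ?_
    rw [mem_Icc] at hx
    have e2 : sgb a x = sg0 x := by
      unfold sg0
      split_ifs with h
      · exact sgb_odd h (by omega)
      · exact sgb_even (by omega) (by omega)
    have e3 : 1 ≤ sg0 x ∧ sg0 x ≤ 2 * a := by
      unfold sg0
      split_ifs with h <;> omega
    refine gx_congr ?_ ?_ ?_
    · rw [mx x (by omega), ml x (by omega)]
    · rw [e2, mx _ (by omega), ml _ (by omega)]
    · rw [e2]
  rw [e1]
  have m0 : (0 : ℕ) ∈ insert 0 D := mem_insert_self _ _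
  by_cases h : 2 * a + 1 ∈ D
  · rw [if_pos ((ml _ le_rfl).1 h), gx_zero (x := 0) (by
      rw [sgb_zero]
      intro h2
      exact h2.1 ((mx _ (by omega)).2 h) m0)]
    ring
  · have h1 : 2 * a + 1 ∉ insert 0 D := fun h2 => h ((mx _ (by omega)).1 h2)
    rw [if_neg (fun h2 => h ((ml _ le_rfl).2 h2)), gx_dn (x := 0) (by rw [sgb_zero]; exact h1) m0 (by rw [sgb_zero]; omega),
      gx_one (x := 2 * a + 1) (by rw [sgb_last]; exact ⟨fun _ => h1, fun _ => m0⟩) (by rw [sgb_last]; omega)]
    field_simp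

/-- the end: `1` if the first and the second right boundary are connected, a cube root of unity otherwise -/
theorem ip_vs {m : ℕ} (_hm : 1 ≤ m) {P : ℕ} (hP : P = 2 * m + 2) (α : Pat P) :
    ip m (v0 m) (vs α) = (open Classical in if Reg α 0 P then 1 else s ^ 4) := by
  subst hP
  exact ip_vecS α

end SCH
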