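import Pool.Agent.Lib.MP_216314_pr.Sc.ScTop
import Pool.Agent.Lib.MP_216314_pr.Sc.ScEvt
import Pool.Agent.Lib.MP_216314_pr.Sc.ScVec
import Pool.Agent.Lib.MP_216314_pr.Ca.CaLim

/-!
# The probability is a pairing
-/

set_option autoImplicit false

noncomputable section

namespace SCH

open Finset FKI FKP FKH QS CD CY Filter Topology

/-- mean vector of the cylinder after `M` rows -/
def cv {n : ℕ} (hn : 1 ≤ n) (M : ℕ) : Vc := fun D =>
  ∑ b, ((⇑(TT : V (2 * n) →ₗ[ℂ] V (2 * n)))^[M] (Pi.single (acy n hn) 1)) b * PS 1 b D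

/-- product of a vector of the left strip and a vector of the cylinder -/
def pS (a : ℕ) (v w : Vc) : Vc := fun D => v (dL a D) * w (dC a D)

/-! ### Means over the tiles of a phase -/

theorem mean_sp_of {P q : ℕ} {c : Finset (ℕ × ℕ)} {α : Pat P} {T0 t : ℕ} (h : ltr c (tile q (T0 + t))) :
    sp q c α T0 (t + 1) = Pat.e ((tile q (T0 + t)).1 : ℤ) (sp q c α T0 t) := by
  show (if ltr c (tile q (T0 + t)) then _ else _) = _
  rw [if_pos h]

theorem mean_sp_not {P q : ℕ} {c : Finset (ℕ × ℕ)} {α : Pat P} {T0 t : ℕ} (h : ¬ ltr c (tile q (T0 + t))) :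
    sp q c α T0 (t + 1) = sp q c α T0 t := by
  show (if ltr c (tile q (T0 + t)) then _ else _) = _
  rw [if_neg h]

theorem mean_sp_congr {P q : ℕ} (hq : 1 ≤ q) {c c' : Finset (ℕ × ℕ)} (α : Pat P) (T0 t : ℕ)
    (h : ∀ t' ∈ UT q T0 t, (t' ∈ c ↔ t' ∈ c')) : sp q c α T0 t = sp q c' α T0 t := by
  induction t with
  | zero => rfl
  | succ t ih =>
    have h1 := ih (fun t' ht => h t' (UT_mono hq T0 (Nat.le_succ t) ht))
    have h2 := h _ (UT_mem hq T0 (Nat.lt_succ_self t))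
    have h3 : ltr c (tile q (T0 + t)) ↔ ltr c' (tile q (T0 + t)) := by
      unfold ltr
      rw [h2]
    by_cases h4 : ltr c (tile q (T0 + t))
    · rw [mean_sp_of h4, mean_sp_of (h3.1 h4), h1]
    · rw [mean_sp_not h4, mean_sp_not (fun h5 => h4 (h3.2 h5)), h1]

theorem mean_sp_insert {P q : ℕ} (hq : 1 ≤ q) (α : Pat P) (T0 t : ℕ) (c : Finset (ℕ × ℕ)) :
    sp q (insert (tile q (T0 + t)) c) α T0 t = sp q c α T0 t := by
  refine mean_sp_congr hq α T0 t fun t' ht => ?_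
  rw [mem_insert]
  constructor
  · rintro (h | h)
    · rw [h] at ht
      exact absurd ht (UT_notMem hq T0 t)
    · exact h
  · exact Or.inr

theorem mean_step_sp {P q : ℕ} (hq : 1 ≤ q) (W : Pat P → Vc) (hW : ∀ α i, 1 ≤ i → i ≤ 2 * q → ee i (W α) = W (Pat.e (i : ℤ) α))
    (α0 : Pat P) (T0 t : ℕ) :
    mn (UF q T0 (t + 1)) (fun c => W (sp q c α0 T0 (t + 1))) =
      hf (tile q (T0 + t)).1 (mn (UF q T0 t) (fun c => W (sp q c α0 T0 t))) := by
  have hb := tile_fst hq (T0 + t)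
  by_cases h1 : (tile q (T0 + t)).1 = 1
  · have e1 : UF q T0 (t + 1) = UF q T0 t := by
      unfold UF
      rw [UT_succ hq, filter_insert, if_neg (by omega)]
    unfold hf
    rw [e1, if_pos h1, mn_ee]
    funext D
    refine mn_congr fun c hc => ?_
    have h2 : ltr c (tile q (T0 + t)) := by
      refine Or.inr ⟨by omega, fun h3 => ?_⟩
      have := (mem_filter.1 (hc h3)).2
      omega
    rw [mean_sp_of h2, hW _ _ le_rfl (by omega), h1]
  · have e1 : UF q T0 (t + 1) = insert (tile q (T0 + t)) (UF q T0 t) := by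
      unfold UF
      rw [UT_succ hq, filter_insert, if_pos (by omega)]
    have hnt : tile q (T0 + t) ∉ UF q T0 t := fun h => UT_notMem hq T0 t (mem_filter.1 h).1
    unfold hf
    rw [e1, if_neg h1]
    refine mn_insert hnt _ _ _ fun c hc => ?_
    have h3 : ee (tile q (T0 + t)).1 (W (sp q c α0 T0 t)) = W (Pat.e ((tile q (T0 + t)).1 : ℤ) (sp q c α0 T0 t)) :=
      hW _ _ hb.1 hb.2
    have h4 := mean_sp_insert hq α0 T0 t c
    have h5 : tile q (T0 + t) ∉ c := fun h => hnt (hc h)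
    have h6 : tile q (T0 + t) ∈ insert (tile q (T0 + t)) c := mem_insert_self _ _
    rcases Nat.mod_two_eq_zero_or_one (tile q (T0 + t)).1 with hp | hp
    · left
      have g1 : ¬ ltr c (tile q (T0 + t)) := by
        rintro (⟨_, h⟩ | ⟨h, _⟩)
        · exact h5 h
        · omega
      have g2 : ltr (insert (tile q (T0 + t)) c) (tile q (T0 + t)) := Or.inl ⟨hp, h6⟩
      rw [mean_sp_not g1, mean_sp_of g2, h4, h3]
      exact ⟨rfl, rfl⟩
    · right
      have g1 : ltr c (tile q (T0 + t)) := Or.inr ⟨hp, h5⟩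
      have g2 : ¬ ltr (insert (tile q (T0 + t)) c) (tile q (T0 + t)) := by
        rintro (⟨h, _⟩ | ⟨_, h⟩)
        · omega
        · exact h h6
      rw [mean_sp_of g1, mean_sp_not g2, h4, h3]
      exact ⟨rfl, rfl⟩

/-- mean over the tiles of a phase -/
theorem mean_sp {P q : ℕ} (hq : 1 ≤ q) (W : Pat P → Vc) (hW : ∀ α i, 1 ≤ i → i ≤ 2 * q → ee i (W α) = W (Pat.e (i : ℤ) α)) (α0 : Pat P) (m0 m : ℕ) :
    mn (UF q (4 * q * m0) (4 * q * m)) (fun c => W (sp q c α0 (4 * q * m0) (4 * q * m))) = (AF q)^[m] (W α0) := by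
  have h1 := AF_run hq (fun t => mn (UF q (4 * q * m0) t) (fun c => W (sp q c α0 (4 * q * m0) t))) m0
    (fun t => mean_step_sp hq W hW α0 (4 * q * m0) t) m
  have h2 : mn (UF q (4 * q * m0) 0) (fun c => W (sp q c α0 (4 * q * m0) 0)) = W α0 := by
    funext D
    unfold mn UF
    rw [UT_zero, filter_empty, powerset_empty, sum_singleton, card_empty, pow_zero, div_one]
    rfl
  rw [← h1]
  exact congrArg _ h2

/-! ### The letters of the left strip -/

theorem dL_swD {a i : ℕ} (hi : i ≤ 2 * a) (D : Finset ℕ) : dL a (swD i D) = swD i (dL a D) := by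
  ext x
  rw [mem_dL, mem_swD, mem_swD, mem_dL]
  rcases eq_or_ne x i with h1 | h1
  · subst h1
    rw [Equiv.swap_apply_left]
    exact ⟨fun h => ⟨h.1, by omega⟩, fun h => ⟨h.1, by omega⟩⟩
  rcases eq_or_ne x (i + 1) with h2 | h2
  · subst h2
    rw [Equiv.swap_apply_right]
    exact ⟨fun h => ⟨h.1, by omega⟩, fun h => ⟨h.1, by omega⟩⟩
  · rw [Equiv.swap_apply_of_ne_of_ne h1 h2]

theorem mem_dC {a x : ℕ} {D : Finset ℕ} : x ∈ dC a D ↔ (x + (2 * a + 2) ∈ D) := by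
  unfold dC
  rw [mem_image]
  constructor
  · rintro ⟨y, hy, rfl⟩
    rw [mem_filter] at hy
    rw [Nat.sub_add_cancel (by omega)]
    exact hy.1
  · intro h
    exact ⟨x + (2 * a + 2), mem_filter.2 ⟨h, by omega⟩, by omega⟩

theorem dC_swD {a i : ℕ} (hi : i ≤ 2 * a) (D : Finset ℕ) : dC a (swD i D) = dC a D := by
  ext x
  rw [mem_dC, mem_dC, mem_swD_ne (by omega) (by omega)]

theorem ee_pS {a i : ℕ} (hi : i ≤ 2 * a) (v w : Vc) : ee i (pS a v w) = pS a (ee i v) w := by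
  funext D
  have h1 : (i ∈ dL a D) = (i ∈ D) := propext (by rw [mem_dL]; exact ⟨fun h => h.1, fun h => ⟨h, by omega⟩⟩)
  have h2 : (i + 1 ∈ dL a D) = (i + 1 ∈ D) := propext (by rw [mem_dL]; exact ⟨fun h => h.1, fun h => ⟨h, by omega⟩⟩)
  unfold ee pS
  rw [dL_swD hi, dC_swD hi]
  simp only [h1, h2]
  split_ifs
  · ring
  · ring
  · ring

theorem hf_pS {a i : ℕ} (hi : i ≤ 2 * a) (v w : Vc) : hf i (pS a v w) = pS a (hf i v) w := by
  unfold hf
  split_ifs with h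
  · exact ee_pS (h ▸ hi) v w
  · funext D
    unfold FKH.hs
    rw [ee_pS hi]
    unfold pS
    ring

theorem opF_pS {a : ℕ} (l : List ℕ) (hl : ∀ i ∈ l, i ≤ 2 * a) (v w : Vc) : opF l (pS a v w) = pS a (opF l v) w := by
  induction l generalizing v with
  | nil => rfl
  | cons i l ih =>
    have hi := hl i List.mem_cons_self
    show opF l (hf i (pS a v w)) = pS a (opF l (hf i v)) w
    rw [hf_pS hi, ih (fun j hj => hl j (List.mem_cons_of_mem _ hj))]

theorem AF_pS (a : ℕ) (v w : Vc) : AF a (pS a v w) = pS a (AF a v) w :=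
  opF_pS (per a) (fun _ hi => (per_mem hi).2) v w

theorem AF_iter_pS (a N : ℕ) (v w : Vc) : (AF a)^[N] (pS a v w) = pS a ((AF a)^[N] v) w := by
  induction N generalizing v with
  | zero => rfl
  | succ N ih => rw [Function.iterate_succ_apply, Function.iterate_succ_apply, AF_pS, ih]

/-- agreement on the configurations of `1, ..., 2 m + 1` -/
def Agr (m : ℕ) (v w : Vc) : Prop := ∀ D, D ⊆ Icc 1 (2 * m + 1) → v D = w D

theorem Agr_ee {m i : ℕ} (h1 : 1 ≤ i) (h2 : i ≤ 2 * m) {v w : Vc} (h : Agr m v w) : Agr m (ee i v) (ee i w) := by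
  intro D hD
  have h3 : swD i D ⊆ Icc 1 (2 * m + 1) := by
    intro x hx
    rw [mem_swD] at hx
    have h4 := mem_Icc.1 (hD hx)
    rw [mem_Icc]
    rcases eq_or_ne x i with h5 | h5
    · omega
    rcases eq_or_ne x (i + 1) with h6 | h6
    · omega
    · rw [Equiv.swap_apply_of_ne_of_ne h5 h6] at h4
      exact h4
  unfold ee
  rw [h D hD, h _ h3]

theorem Agr_hf {m i : ℕ} (h1 : 1 ≤ i) (h2 : i ≤ 2 * m) {v w : Vc} (h : Agr m v w) : Agr m (hf i v) (hf i w) := by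
  have h3 := Agr_ee h1 h2 h
  unfold hf
  split_ifs with h4
  · subst h4
    exact h3
  · intro D hD
    unfold FKH.hs
    rw [h D hD, h3 D hD]

theorem Agr_opF {m : ℕ} (l : List ℕ) (hl : ∀ i ∈ l, 1 ≤ i ∧ i ≤ 2 * m) {v w : Vc} (h : Agr m v w) : Agr m (opF l v) (opF l w) := by
  induction l generalizing v w with
  | nil => exact h
  | cons i l ih =>
    have hi := hl i List.mem_cons_self
    exact ih (fun j hj => hl j (List.mem_cons_of_mem _ hj)) (Agr_hf hi.1 hi.2 h)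

theorem Agr_AF {m a : ℕ} (ham : a ≤ m) {v w : Vc} (h : Agr m v w) (N : ℕ) : Agr m ((AF a)^[N] v) ((AF a)^[N] w) := by
  induction N generalizing v w with
  | zero => exact h
  | succ N ih =>
    rw [Function.iterate_succ_apply, Function.iterate_succ_apply]
    refine ih (Agr_opF (per a) (fun i hi => ?_) h)
    have := per_mem hi
    omega

/-! ### Sums over the tiles -/

section

variable {a n : ℕ}

theorem TA_split (ha : 1 ≤ a) (hn : 1 ≤ n) (N : ℕ) : TA (a + n) N = (TC a n N ∪ TH a N) ∪ TU a n N := by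
  ext t
  unfold TA TC TH TU
  simp only [mem_union, mem_product, mem_Icc, mem_Ico, mem_range]
  omega

theorem disC (a n N : ℕ) : Disjoint (TC a n N) (TH a N) := by
  rw [disjoint_left]
  intro t h1 h2
  unfold TC at h1
  rw [mem_product, mem_Icc] at h1
  have := mem_TH.1 h2
  omega

theorem disU (a n N : ℕ) : Disjoint (TC a n N ∪ TH a N) (TU a n N) := by
  rw [disjoint_left]
  intro t h1 h2
  unfold TU at h2
  rw [mem_product, mem_Ico] at h2
  rw [mem_union] at h1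
  unfold TC at h1
  rw [mem_product, mem_range, mem_TH] at h1
  omega

theorem TA_card (ha : 1 ≤ a) (hn : 1 ≤ n) (N : ℕ) : (TA (a + n) N).card = ((TC a n N).card + (TH a N).card) + (TU a n N).card := by
  rw [TA_split ha hn, card_union_of_disjoint (disU a n N), card_union_of_disjoint (disC a n N)]

theorem sum_TA (ha : 1 ≤ a) (hn : 1 ≤ n) (N : ℕ) (f : Finset (ℕ × ℕ) → ℂ) :
    ∑ c ∈ (TA (a + n) N).powerset, f c =
      ∑ cC ∈ (TC a n N).powerset, ∑ cL ∈ (TH a N).powerset, ∑ cU ∈ (TU a n N).powerset, f (cC ∪ cL ∪ cU) := by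
  rw [TA_split ha hn, sum_pow_union _ _ (disU a n N), sum_pow_union _ _ (disC a n N)]

/-- the event -/
theorem evt_fin (ha : 1 ≤ a) (hn : 1 ≤ n) {N : ℕ} {cC cL cU : Finset (ℕ × ℕ)} (hC : cC ⊆ TC a n N) (hL : cL ⊆ TH a N)
    (hU : cU ⊆ TU a n N) : Sr (2 * a - 1) n ((cC ∪ cL ∪ cU).map (peE N)) ↔
      Reg (fin a n N hn cC cL cU) 0 ((2 * n + 2 + 2 * a : ℕ) : ℤ) := by
  have hc : cC ∪ cL ∪ cU ⊆ TA (a + n) N := by
    rw [TA_split ha hn]
    exact union_subset_union (union_subset_union hC hL) hU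
  rw [Sr_iff ha hn hc]
  constructor
  · rintro ⟨j, hj, h⟩
    have h1 := (fin_reg ha hn hC hL hU j).2 h
    refine reg_mul ?_ h1
    rintro rfl
    exact hj (dvd_zero _)
  · intro h
    refine ⟨1, by omega, (fin_reg ha hn hC hL hU 1).1 ?_⟩
    rw [one_mul]
    exact h

open Classical in
theorem sr_count (ha : 1 ≤ a) (hn : 1 ≤ n) (N : ℕ) : sr (2 * a - 1) n (2 * N + 1) =
    (((TA (a + n) N).powerset.filter (fun c => Sr (2 * a - 1) n (c.map (peE N)))).card : ℝ) / 2 ^ (TA (a + n) N).card := by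
  unfold sr
  rw [← map_TA ha hn, pproba_eq, card_map]
  congr 2
  symm
  refine card_bij (fun c _ => c.map (peE N)) ?_ ?_ ?_
  · intro c hc
    rw [mem_filter, mem_powerset] at hc ⊢
    exact ⟨map_subset_map.2 hc.1, hc.2⟩
  · intro c _ c' _ h
    exact map_injective _ h
  · intro ω hω
    rw [mem_filter, mem_powerset] at hω
    obtain ⟨h1, h2⟩ := hω
    obtain ⟨c, hc, rfl⟩ := subset_map_iff.1 h1
    refine ⟨c, ?_, rfl⟩
    rw [mem_filter, mem_powerset]
    exact ⟨hc, h2⟩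

open Classical in
/-- sum over all configurations -/
theorem sr_sum (ha : 1 ≤ a) (hn : 1 ≤ n) (N : ℕ) :
    ((sr (2 * a - 1) n (2 * N + 1) : ℝ) : ℂ) + s ^ 4 * (1 - ((sr (2 * a - 1) n (2 * N + 1) : ℝ) : ℂ)) =
    (∑ cC ∈ (TC a n N).powerset, ∑ cL ∈ (TH a N).powerset, ∑ cU ∈ (TU a n N).powerset,
      (if Reg (fin a n N hn cC cL cU) 0 ((2 * n + 2 + 2 * a : ℕ) : ℤ) then (1 : ℂ) else s ^ 4)) / 2 ^ (TA (a + n) N).card := by
  have h2 : (2 : ℂ) ^ (TA (a + n) N).card ≠ 0 := pow_ne_zero _ two_ne_zero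
  have h3 : ∑ c ∈ (TA (a + n) N).powerset, (if Sr (2 * a - 1) n (c.map (peE N)) then (1 : ℂ) else s ^ 4) =
      ∑ cC ∈ (TC a n N).powerset, ∑ cL ∈ (TH a N).powerset, ∑ cU ∈ (TU a n N).powerset,
      (if Reg (fin a n N hn cC cL cU) 0 ((2 * n + 2 + 2 * a : ℕ) : ℤ) then (1 : ℂ) else s ^ 4) := by
    rw [sum_TA ha hn]
    refine sum_congr rfl fun cC hC => sum_congr rfl fun cL hL => sum_congr rfl fun cU hU => ?_
    rw [mem_powerset] at hC hL hU
    have h := evt_fin ha hn hC hL hU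
    by_cases h1 : Reg (fin a n N hn cC cL cU) 0 ((2 * n + 2 + 2 * a : ℕ) : ℤ)
    · rw [if_pos h1, if_pos (h.2 h1)]
    · rw [if_neg h1, if_neg (fun h2 => h1 (h.1 h2))]
  rw [← h3, sum_ite, sum_const, sum_const, nsmul_eq_mul, nsmul_eq_mul, mul_one, sr_count ha hn, eq_div_iff h2]
  have h4 : (((TA (a + n) N).powerset.filter (fun c => Sr (2 * a - 1) n (c.map (peE N)))).card : ℂ) +
      (((TA (a + n) N).powerset.filter (fun c => ¬ Sr (2 * a - 1) n (c.map (peE N)))).card : ℂ) = 2 ^ (TA (a + n) N).card := by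
    have h5 := card_filter_add_card_filter_not (s := (TA (a + n) N).powerset) (fun c => Sr (2 * a - 1) n (c.map (peE N)))
    rw [card_powerset] at h5
    exact_mod_cast h5
  push_cast
  field_simp
  linear_combination (-(s ^ 4)) * h4

/-- **the probability in the truncated surface is a pairing** -/
theorem sr_pair (ha : 1 ≤ a) (hn : 1 ≤ n) (N : ℕ) :
    ((sr (2 * a - 1) n (2 * N + 1) : ℝ) : ℂ) + s ^ 4 * (1 - ((sr (2 * a - 1) n (2 * N + 1) : ℝ) : ℂ)) =
      ip (a + n) (gi (a + n) (N + 1)) (pS a (gi a N) (cv hn (2 * N))) := by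
  classical
  have hm : 1 ≤ a + n := by omega
  have hP : 2 * n + 2 + 2 * a = 2 * (a + n) + 2 := by ring
  rw [sr_sum ha hn, TA_card ha hn]
  -- upper tiles
  have h1 : ∀ cC cL : Finset (ℕ × ℕ), (∑ cU ∈ (TU a n N).powerset,
      (if Reg (fin a n N hn cC cL cU) 0 ((2 * n + 2 + 2 * a : ℕ) : ℤ) then (1 : ℂ) else s ^ 4)) / 2 ^ (TU a n N).card =
      ip (a + n) (gi (a + n) (N + 1)) (vs (sp a cL (beta a (pats (tC a cC) (acy n hn) (2 * N))) 0 (2 * N * (2 * a)))) := by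
    intro cC cL
    unfold gi
    have e1 := mean_sp (P := 2 * n + 2 + 2 * a) hm vs (fun α i h3 h4 => ee_vs α h3 (by omega))
      (sp a cL (beta a (pats (tC a cC) (acy n hn) (2 * N))) 0 (2 * N * (2 * a))) N (N + 1)
    rw [UF_up hm] at e1
    rw [← ip_AF_iter, ← e1, ip_mn]
    congr 1
    refine sum_congr rfl fun cU _ => ?_
    rw [ip_vs hm hP]
    have e2 : fin a n N hn cC cL cU = sp (a + n) cU (sp a cL (beta a (pats (tC a cC) (acy n hn) (2 * N))) 0 (2 * N * (2 * a)))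
        (4 * (a + n) * N) (4 * (a + n) * (N + 1)) := by
      unfold fin
      have e3 : 2 * N * (2 * (a + n)) = 4 * (a + n) * N := by ring
      have e4 : (2 * N + 2) * (2 * (a + n)) = 4 * (a + n) * (N + 1) := by ring
      rw [e3, e4]
    rw [e2]
  -- left tiles
  have h2 : ∀ cC : Finset (ℕ × ℕ), ∀ D ∈ sec (a + n), (∑ cL ∈ (TH a N).powerset,
      vs (sp a cL (beta a (pats (tC a cC) (acy n hn) (2 * N))) 0 (2 * N * (2 * a))) D) / 2 ^ (TH a N).card =
      gi a N (dL a D) * PS 1 (pats (tC a cC) (acy n hn) (2 * N)) (dC a D) := by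
    intro cC D hD
    have hD' := (mem_powersetCard.1 hD).1
    have e1 := mean_sp (P := 2 * n + 2 + 2 * a) ha vs (fun α i h3 h4 => ee_vs α h3 (by omega))
      (beta a (pats (tC a cC) (acy n hn) (2 * N))) 0 N
    rw [UF_low ha] at e1
    have e2 : 4 * a * 0 = 0 := by ring
    have e3 : 4 * a * N = 2 * N * (2 * a) := by ring
    rw [e2, e3] at e1
    have e4 := congrFun e1 D
    have e5 : mn (TH a N) (fun c => vs (sp a c (beta a (pats (tC a cC) (acy n hn) (2 * N))) 0 (2 * N * (2 * a)))) D =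
      (∑ cL ∈ (TH a N).powerset, vs (sp a cL (beta a (pats (tC a cC) (acy n hn) (2 * N))) 0 (2 * N * (2 * a))) D) / 2 ^ (TH a N).card := rfl
    rw [← e5, e4]
    have e6 : Agr (a + n) (vs (beta a (pats (tC a cC) (acy n hn) (2 * N)))) (pS a (v0 a) (PS 1 (pats (tC a cC) (acy n hn) (2 * N)))) :=
      fun D hD => vs_beta hn _ hD
    rw [Agr_AF (by omega) e6 N D hD', AF_iter_pS]
    rfl
  -- cylinder
  have h3 : ∀ D : Finset ℕ, (∑ cC ∈ (TC a n N).powerset, PS 1 (pats (tC a cC) (acy n hn) (2 * N)) D) / 2 ^ (TC a n N).card =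
      cv hn (2 * N) D := by
    intro D
    have h2 : (2 : ℂ) ^ (TC a n N).card ≠ 0 := pow_ne_zero _ two_ne_zero
    rw [cyl_law hn (fun b => PS 1 b D), mul_div_cancel_left₀ _ h2]
    rfl
  have h4 : ∀ cC : Finset (ℕ × ℕ), (∑ cL ∈ (TH a N).powerset, ∑ cU ∈ (TU a n N).powerset,
      (if Reg (fin a n N hn cC cL cU) 0 ((2 * n + 2 + 2 * a : ℕ) : ℤ) then (1 : ℂ) else s ^ 4)) / 2 ^ ((TH a N).card + (TU a n N).card) =
      ∑ D ∈ sec (a + n), gi (a + n) (N + 1) D * (gi a N (dL a D) * PS 1 (pats (tC a cC) (acy n hn) (2 * N)) (dC a D)) := by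
    intro cC
    rw [pow_add, mul_comm ((2 : ℂ) ^ (TH a N).card), ← div_div, sum_div, sum_congr rfl fun cL _ => h1 cC cL]
    unfold ip
    rw [sum_comm, sum_div]
    refine sum_congr rfl fun D hD => ?_
    rw [← h2 cC D hD, ← mul_sum, mul_div_assoc]
  have e9 : (TC a n N).card + (TH a N).card + (TU a n N).card = ((TH a N).card + (TU a n N).card) + (TC a n N).card := by ring
  rw [e9, pow_add, ← div_div, sum_div, sum_congr rfl fun cC _ => h4 cC, sum_comm, sum_div]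
  unfold ip
  refine sum_congr rfl fun D hD => ?_
  rw [← mul_sum, ← mul_sum, mul_div_assoc, mul_div_assoc, h3]
  rfl

theorem dC_sub {D : Finset ℕ} (hD : D ∈ sec (a + n)) : dC a D ⊆ range (2 * n) := by
  intro x hx
  rw [mem_dC] at hx
  have := mem_Icc.1 ((mem_powersetCard.1 hD).1 hx)
  rw [mem_range]
  omega

theorem dL_sub' {D : Finset ℕ} (hD : D ∈ sec (a + n)) : dL a D ⊆ Icc 1 (2 * a + 1) := by
  intro x hx
  rw [mem_dL] at hx
  have := mem_Icc.1 ((mem_powersetCard.1 hD).1 hx.1)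
  rw [mem_Icc]
  omega

/-- the limit -/
theorem lim_sr (ha : 1 ≤ a) (hn : 1 ≤ n) {Ψm Ψa Φ : Vc} (hm : GS (a + n) Ψm) (hA : GS a Ψa)
    (hΦ : ∀ D, D ⊆ range (2 * n) → Tendsto (fun M => cv hn M D) atTop (𝓝 (Φ D))) :
    Tendsto (fun N => ip (a + n) (v0 (a + n)) Ψm * ip a (v0 a) Ψa *
      (((sr (2 * a - 1) n (2 * N + 1) : ℝ) : ℂ) + s ^ 4 * (1 - ((sr (2 * a - 1) n (2 * N + 1) : ℝ) : ℂ)))) atTop
      (𝓝 (ip (a + n) Ψm (pS a Ψa Φ))) := by
  have h1 : ∀ N, ip (a + n) (v0 (a + n)) Ψm * ip a (v0 a) Ψa *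
      (((sr (2 * a - 1) n (2 * N + 1) : ℝ) : ℂ) + s ^ 4 * (1 - ((sr (2 * a - 1) n (2 * N + 1) : ℝ) : ℂ))) =
      ∑ D ∈ sec (a + n), (ip (a + n) (v0 (a + n)) Ψm * gi (a + n) (N + 1) D) *
        ((ip a (v0 a) Ψa * gi a N (dL a D)) * cv hn (2 * N) (dC a D)) := by
    intro N
    rw [sr_pair ha hn N]
    have h2 : ip (a + n) (gi (a + n) (N + 1)) (pS a (gi a N) (cv hn (2 * N))) =
      ∑ D ∈ sec (a + n), gi (a + n) (N + 1) D * (gi a N (dL a D) * cv hn (2 * N) (dC a D)) := rfl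
    rw [h2, mul_sum]
    exact sum_congr rfl fun D _ => by ring
  refine Tendsto.congr (fun N => (h1 N).symm) ?_
  show Tendsto _ atTop (𝓝 (∑ D ∈ sec (a + n), Ψm D * (Ψa (dL a D) * Φ (dC a D))))
  refine tendsto_finsetSum _ fun D hD => ?_
  refine Tendsto.mul ?_ (Tendsto.mul ?_ ?_)
  · exact (hm.lim (by omega) (mem_powersetCard.1 hD).1).comp (tendsto_add_atTop_nat 1)
  · exact hA.lim ha (dL_sub' hD)
  · exact (hΦ _ (dC_sub hD)).comp (tendsto_id.const_mul_atTop' (show 0 < 2 by norm_num))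

end

end SCH
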