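import Pool.Agent.Lib.MP_216314_pr.Sc.ScRel

/-!
# One phase of the strip process in the cover
-/

set_option autoImplicit false

noncomputable section

namespace SCH

open Finset FKI FKP FKH QS CD CY

/-! ### Arithmetic -/

theorem jsd {P : ℕ} {j s : ℤ} (h0 : 0 ≤ s) (h1 : s < P) : (j * P + s) / (P : ℤ) = j := by
  have hP : (P : ℤ) ≠ 0 := by omega
  rw [add_comm, Int.add_mul_ediv_right _ _ hP, Int.ediv_eq_zero_of_lt h0 h1, zero_add]

theorem jsm {P : ℕ} {j s : ℤ} (h0 : 0 ≤ s) (h1 : s < P) : (j * P + s) % (P : ℤ) = s := by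
  rw [add_comm, Int.add_mul_emod_self_right]
  exact Int.emod_eq_of_lt h0 h1

theorem mod_even {P : ℕ} (hP : (2 : ℤ) ∣ P) {g : ℤ} (hg : (2 : ℤ) ∣ g) : (2 : ℤ) ∣ g % P := by
  have h1 := Int.emod_add_mul_ediv g P
  have h2 : (2 : ℤ) ∣ P * (g / P) := hP.trans (dvd_mul_right _ _)
  omega

/-- the gaps with the same residue -/
theorem res_iff {P : ℕ} (hP : 0 < P) {g j : ℤ} (h0 : 0 ≤ j) (h1 : j < P) : (P : ℤ) ∣ g - j ↔ g % P = j := by
  constructor
  · intro h
    have h2 := Int.emod_emod_of_dvd g (dvd_refl (P : ℤ))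
    obtain ⟨k, hk⟩ := h
    have h3 : g = k * P + j := by linarith [hk, mul_comm (P : ℤ) k]
    rw [h3, jsm h0 h1]
  · intro h
    have h2 := Int.emod_add_mul_ediv g P
    refine ⟨g / P, ?_⟩
    rw [← h]
    linarith

/-! ### The process -/

theorem sp_congr {P q : ℕ} (hq : 1 ≤ q) {c c' : Finset (ℕ × ℕ)} (α : Pat P) (T0 t : ℕ)
    (h : ∀ t' ∈ UT q T0 t, (t' ∈ c ↔ t' ∈ c')) : sp q c α T0 t = sp q c' α T0 t := by
  induction t with
  | zero => rfl
  | succ t ih =>
    have h1 := ih (fun t' ht => h t' (UT_mono hq T0 (Nat.le_succ t) ht))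
    have h2 := h _ (UT_mem hq T0 (Nat.lt_succ_self t))
    have h3 : ltr c (tile q (T0 + t)) ↔ ltr c' (tile q (T0 + t)) := by
      unfold ltr
      rw [h2]
    show (if ltr c (tile q (T0 + t)) then _ else _) = (if ltr c' (tile q (T0 + t)) then _ else _)
    by_cases h4 : ltr c (tile q (T0 + t))
    · rw [if_pos h4, if_pos (h3.1 h4), h1]
    · rw [if_neg h4, if_neg (fun h5 => h4 (h3.2 h5)), h1]

theorem sp_insert {P q : ℕ} (hq : 1 ≤ q) (α : Pat P) (T0 t : ℕ) (c : Finset (ℕ × ℕ)) :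
    sp q (insert (tile q (T0 + t)) c) α T0 t = sp q c α T0 t := by
  refine sp_congr hq α T0 t fun t' ht => ?_
  rw [mem_insert]
  constructor
  · rintro (h | h)
    · rw [h] at ht
      exact absurd ht (UT_notMem hq T0 t)
    · exact h
  · exact Or.inr

theorem sp_of {P q : ℕ} {c : Finset (ℕ × ℕ)} {α : Pat P} {T0 t : ℕ} (h : ltr c (tile q (T0 + t))) :
    sp q c α T0 (t + 1) = Pat.e ((tile q (T0 + t)).1 : ℤ) (sp q c α T0 t) := by
  show (if ltr c (tile q (T0 + t)) then _ else _) = _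
  rw [if_pos h]

theorem sp_not {P q : ℕ} {c : Finset (ℕ × ℕ)} {α : Pat P} {T0 t : ℕ} (h : ¬ ltr c (tile q (T0 + t))) :
    sp q c α T0 (t + 1) = sp q c α T0 t := by
  show (if ltr c (tile q (T0 + t)) then _ else _) = _
  rw [if_neg h]

/-- the end points of an even tile -/
theorem ends_cu {q h i : ℕ} (hi' : i < 2 * q) (hj : jj q h i % 2 = 0) :
    (lo (tt q h i) = cu q h i (jj q h i - 1) ∧
        hi (tt q h i) = (if jj q h i = 2 * q then (2 * q + 1, h + h % 2) else cu q h i (jj q h i + 1))) ∨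
    (hi (tt q h i) = cu q h i (jj q h i - 1) ∧
        lo (tt q h i) = (if jj q h i = 2 * q then (2 * q + 1, h + h % 2) else cu q h i (jj q h i + 1))) := by
  have h1 := jj_bd (h := h) hi'
  by_cases hp : h % 2 = 0
  · right
    have h8 : jj q h i = i + 1 := by unfold jj; rw [if_pos hp]
    have e1 : lo (tt q h i) = (jj q h i + 1, h) := by
      unfold lo tt
      rw [if_neg (by simp only; omega)]
    have e2 : hi (tt q h i) = (jj q h i, h + 1) := by
      unfold FKH.hi tt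
      rw [if_neg (by simp only; omega)]
    have e3 : cu q h i (jj q h i - 1) = (jj q h i, h + 1) := by
      have : FKH.dn q h i (jj q h i - 1) := by
        unfold FKH.dn
        rw [if_pos hp]
        omega
      unfold cu hh
      rw [if_neg (by omega), if_pos this, if_neg (by omega), Prod.mk.injEq]
      omega
    refine ⟨by rw [e2, e3], ?_⟩
    rw [e1]
    by_cases h2 : jj q h i = 2 * q
    · rw [if_pos h2, h2, hp, add_zero]
    · rw [if_neg h2]
      have : ¬ FKH.dn q h i (jj q h i + 1) := by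
        unfold FKH.dn
        rw [if_pos hp]
        omega
      unfold cu hh
      rw [if_neg (by omega), if_neg this, if_pos hp]
  · left
    have h8 : jj q h i = 2 * q - i := by unfold jj; rw [if_neg hp]
    have e1 : lo (tt q h i) = (jj q h i, h) := by
      unfold lo tt
      rw [if_pos (by simp only; omega)]
    have e2 : hi (tt q h i) = (jj q h i + 1, h + 1) := by
      unfold FKH.hi tt
      rw [if_pos (by simp only; omega)]
    have e3 : cu q h i (jj q h i - 1) = (jj q h i, h) := by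
      have : ¬ FKH.dn q h i (jj q h i - 1) := by
        unfold FKH.dn
        rw [if_neg hp]
        omega
      unfold cu hh
      rw [if_neg (by omega), if_neg this, if_neg (by omega), Prod.mk.injEq]
      omega
    refine ⟨by rw [e1, e3], ?_⟩
    rw [e2]
    by_cases h2 : jj q h i = 2 * q
    · rw [if_pos h2, h2, show h % 2 = 1 by omega]
    · rw [if_neg h2]
      have : FKH.dn q h i (jj q h i + 1) := by
        unfold FKH.dn
        rw [if_neg hp]
        omega
      unfold cu hh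
      rw [if_neg (by omega), if_pos this, if_pos (by omega)]

/-- labels after one more tile -/
theorem ss_time {P q : ℕ} (hq : 1 ≤ q) (hP : (2 : ℤ) ∣ P) (F : ℤ → XS) (T : ℕ) {g : ℤ} (hg : (2 : ℤ) ∣ g) (h1 : 1 ≤ g % P)
    (h2 : g % P ≤ 2 * q) :
    ss P q F (T + 1) g = (cu q (T / (2 * q)) (T % (2 * q) + 1) (g % P - 1).toNat, g / P) := by
  have h3 := mod_even hP hg
  unfold ss
  rw [if_pos ⟨h1, h2⟩, cu_time hq T (by omega) (by omega)]

theorem ss_in {P q : ℕ} (F : ℤ → XS) (T : ℕ) {g : ℤ} (h1 : 1 ≤ g % P) (h2 : g % P ≤ 2 * q) :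
    ss P q F T g = (cu q (T / (2 * q)) (T % (2 * q)) (g % P - 1).toNat, g / P) := by
  unfold ss
  rw [if_pos ⟨h1, h2⟩]

theorem ss_out {P q : ℕ} (F : ℤ → XS) (T : ℕ) {g : ℤ} (h : ¬ (1 ≤ g % P ∧ g % P ≤ 2 * q)) : ss P q F T g = F g := by
  unfold ss
  rw [if_neg h]

/-- labels with another region do not change -/
theorem ss_other {P q : ℕ} (hq : 1 ≤ q) (hP : (2 : ℤ) ∣ P) (F : ℤ → XS) (T : ℕ) {g : ℤ} (hg : (2 : ℤ) ∣ g)
    (hne : g % P ≠ (tile q T).1 + 1) : ss P q F (T + 1) g = ss P q F T g := by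
  by_cases h : 1 ≤ g % P ∧ g % P ≤ 2 * q
  · rw [ss_time hq hP F T hg h.1 h.2, ss_in F T h.1 h.2, cu_succ (mod_lt hq T)]
    intro h2
    apply hne
    show g % P = (jj q (T / (2 * q)) (T % (2 * q)) : ℤ) + 1
    rw [← h2]
    omega
  · rw [ss_out F _ h, ss_out F _ h]

/-! ### The steps -/

section step

variable {P q : ℕ} (hq : 1 ≤ q) (hP : (2 : ℤ) ∣ P) (hqP : 2 * q + 2 ≤ P) {r0 : XS → XS → Prop} {F : ℤ → XS} {α : Pat P}
  {h0 h1 T : ℕ} {c : Finset (ℕ × ℕ)}

include hq hP hqP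

/-- even column, open -/
theorem step_even (hT0 : h0 ≤ T / (2 * q)) (hT1 : T / (2 * q) < h1) (hh0 : h0 % 2 = 0) (hh1 : h1 % 2 = 0)
    (hW : ∀ (j : ℤ) (h : ℕ), h % 2 = 0 → h0 ≤ h → h ≤ h1 → Relation.EqvGen r0 ((2 * q + 1, h), j) (F (j * P + 2 * q + 2)))
    (hj : (tile q T).1 % 2 = 0) (hI : Inv α (ss P q F T) (PR r0 c)) :
    Inv (Pat.e ((tile q T).1 : ℤ) α) (ss P q F (T + 1)) (PR r0 (insert (tile q T) c)) := by
  obtain ⟨h, hh⟩ : ∃ h, h = T / (2 * q) := ⟨_, rfl⟩
  obtain ⟨i, hi⟩ : ∃ i, i = T % (2 * q) := ⟨_, rfl⟩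
  have hi' : i < 2 * q := by rw [hi]; exact mod_lt hq T
  have ht : tile q T = tt q h i := by rw [hh, hi]; rfl
  obtain ⟨j, hjd⟩ : ∃ j, j = jj q h i := ⟨_, rfl⟩
  have htj : (tile q T).1 = j := by rw [ht, hjd]; rfl
  have hb := jj_bd (h := h) hi'
  rw [← hjd] at hb
  rw [htj] at hj ⊢
  -- labels
  have e1 : Inv α (ss P q F (T + 1)) (PR r0 c) := by
    intro g g' hg hg'
    have h3 := mod_even hP hg
    have h4 := mod_even hP hg'
    rw [ss_other hq hP F T hg (by rw [htj]; omega), ss_other hq hP F T hg' (by rw [htj]; omega)]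
    exact hI g g' hg hg'
  have lab1 : ∀ k : ℤ, ss P q F (T + 1) (k * P + j) = (cu q h i (j - 1), k) := by
    intro k
    have h2 := hP.trans (dvd_mul_left (P : ℤ) k)
    rw [ss_other hq hP F T (by omega) (by rw [htj, jsm (by omega) (by omega)]; omega),
      ss_in F T (by rw [jsm (by omega) (by omega)]; omega) (by rw [jsm (by omega) (by omega)]; omega),
      jsm (by omega) (by omega), jsd (by omega) (by omega), ← hh, ← hi]
    congr 2
    omega
  have lab2 : ∀ k : ℤ, Relation.EqvGen r0 ((if j = 2 * q then (2 * q + 1, h + h % 2) else cu q h i (j + 1)), k)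
      (ss P q F (T + 1) (k * P + j + 2)) := by
    intro k
    have h2 := hP.trans (dvd_mul_left (P : ℤ) k)
    have e2 : k * (P : ℤ) + j + 2 = k * P + (j + 2) := by ring
    by_cases c1 : j = 2 * q
    · rw [if_pos c1]
      have h3 := hW k (h + h % 2) (by omega) (by omega) (by omega)
      have e3 : k * (P : ℤ) + j + 2 = k * P + 2 * q + 2 := by rw [c1]; push_cast; ring
      rw [e3, ss_out]
      · exact h3
      · have e4 : k * (P : ℤ) + 2 * q + 2 = k * P + (2 * q + 2) := by ring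
        rw [e4]
        rcases Nat.eq_or_lt_of_le hqP with h4 | h4
        · have e5 : k * (P : ℤ) + (2 * q + 2) = (k + 1) * P + 0 := by
            rw [← h4]
            push_cast
            ring
          rw [e5, jsm le_rfl (by omega)]
          omega
        · rw [jsm (by omega) (by omega)]
          omega
    · rw [if_neg c1, e2, ss_other hq hP F T (by omega) (by rw [htj, jsm (by omega) (by omega)]; omega),
        ss_in F T (by rw [jsm (by omega) (by omega)]; omega) (by rw [jsm (by omega) (by omega)]; omega),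
        jsm (by omega) (by omega), jsd (by omega) (by omega), ← hh, ← hi]
      have e3 : ((j : ℤ) + 2 - 1).toNat = j + 1 := by omega
      rw [e3]
      exact Relation.EqvGen.refl _
  have r0r : ∀ u v, Relation.EqvGen r0 u v → Relation.EqvGen (PR r0 c) u v := fun u v huv =>
    gen_mono (fun _ _ h => Or.inl h) huv
  have mono : ∀ u v, PR r0 c u v → PR r0 (insert (tile q T) c) u v := by
    rintro u v (h2 | ⟨t', ht', h3⟩)
    · exact Or.inl h2
    · exact Or.inr ⟨t', mem_insert_of_mem ht', h3⟩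
  have ends := ends_cu (h := h) hi' (by rw [← hjd]; exact hj)
  rw [← hjd, ← ht] at ends
  refine inv_join hP (by omega) e1 (fun u v huv => ?_) (fun u v huv => Relation.EqvGen.rel _ _ (mono u v huv)) (fun g hg => ?_)
  · rcases huv with huv | ⟨t', ht', k, h2, h3⟩
    · exact Or.inl (Relation.EqvGen.rel _ _ (Or.inl huv))
    · rw [mem_insert] at ht'
      rcases ht' with ht' | ht'
      · rw [ht'] at h2 h3
        right
        have e7 : (P : ℤ) ∣ k * P + j - j := by
          rw [add_sub_cancel_right]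
          exact dvd_mul_left _ _
        refine ⟨k * P + j, e7, ?_⟩
        rcases ends with ⟨e4, e5⟩ | ⟨e4, e5⟩
        · left
          rw [h2, h3, e4, e5, lab1 k]
          exact ⟨Relation.EqvGen.refl _, r0r _ _ (lab2 k)⟩
        · right
          rw [h2, h3, e4, e5, lab1 k]
          exact ⟨r0r _ _ (lab2 k), Relation.EqvGen.refl _⟩
      · exact Or.inl (Relation.EqvGen.rel _ _ (Or.inr ⟨t', ht', k, h2, h3⟩))
  · obtain ⟨k, hk⟩ := hg
    have e6 : g = k * P + j := by linarith [mul_comm (P : ℤ) k]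
    rw [e6, lab1 k]
    have h5 : Relation.EqvGen (PR r0 (insert (tile q T) c)) ((if j = 2 * q then (2 * q + 1, h + h % 2) else cu q h i (j + 1)), k)
        (ss P q F (T + 1) (k * P + j + 2)) := gen_mono (fun _ _ h => Or.inl h) (lab2 k)
    refine Relation.EqvGen.trans _ _ _ ?_ h5
    rcases ends with ⟨e4, e5⟩ | ⟨e4, e5⟩
    · rw [← e4, ← e5]
      exact Relation.EqvGen.rel _ _ (Or.inr ⟨tile q T, mem_insert_self _ _, k, rfl, rfl⟩)
    · rw [← e4, ← e5]
      exact Relation.EqvGen.symm _ _ (Relation.EqvGen.rel _ _ (Or.inr ⟨tile q T, mem_insert_self _ _, k, rfl, rfl⟩))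

/-- labels of the region of an odd tile -/
theorem lab_odd (hj : (tile q T).1 % 2 = 1) {g : ℤ} (hg : (P : ℤ) ∣ g - (tile q T).1 - 1) :
    ss P q F T g = (lo (tile q T), g / P) ∧ ss P q F (T + 1) g = (FKH.hi (tile q T), g / P) := by
  have hi' := mod_lt hq T
  have hb := tile_fst hq T
  have h1 : g % P = (tile q T).1 + 1 := by
    refine (res_iff (by omega) (by omega) (by omega)).1 ?_
    have e1 : g - ((tile q T).1 + 1 : ℤ) = g - (tile q T).1 - 1 := by ring
    rwa [e1]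
  have h2 : (g % P - 1).toNat = (tile q T).1 := by omega
  have h3 : (2 : ℤ) ∣ g := cut_even hP (by omega) hg
  constructor
  · rw [ss_in F T (by omega) (by omega), h2]
    exact Prod.ext (cu_self hi' hj) rfl
  · rw [ss_time hq hP F T h3 (by omega) (by omega), h2]
    exact Prod.ext (cu_self_succ hi' hj) rfl

/-- the new label is new -/
theorem lab_ne (hT0 : h0 ≤ T / (2 * q))
    (hG : ∀ (X h : ℕ) (j g : ℤ), (2 : ℤ) ∣ g → 1 ≤ X → X ≤ 2 * q → h0 < h → ¬ (1 ≤ g % P ∧ g % P ≤ 2 * q) → F g ≠ ((X, h), j))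
    (hj : (tile q T).1 % 2 = 1) {g : ℤ} (hg2 : (2 : ℤ) ∣ g) (hg : g % P ≠ (tile q T).1 + 1) (k : ℤ) :
    ss P q F T g ≠ (FKH.hi (tile q T), k) := by
  have hi' := mod_lt hq T
  have hb := tile_fst hq T
  have h3 := mod_even hP hg2
  by_cases h : 1 ≤ g % P ∧ g % P ≤ 2 * q
  · rw [ss_in F T h.1 h.2]
    intro h1
    rw [Prod.mk.injEq] at h1
    refine cu_new (h := T / (2 * q)) (l := (g % P - 1).toNat) hi' hj (by omega) (by omega) ?_ h1.1
    show (g % P - 1).toNat ≠ (tile q T).1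
    omega
  · rw [ss_out F T h]
    have h4 := hi_col hi' hj
    have h5 := FKH.hi_fst (tile q T)
    have h6 := FKH.hi_snd (tile q T)
    have h7 : (FKH.hi (tile q T)).1 ≠ 2 * q + 1 := h4
    have h8 : (tile q T).2 = T / (2 * q) := rfl
    exact hG (FKH.hi (tile q T)).1 (FKH.hi (tile q T)).2 k g hg2 (by omega) (by omega) (by omega) h

/-- the new label is not in the relation -/
theorem lab_rel (hT0 : h0 ≤ T / (2 * q))
    (hF : ∀ (X h : ℕ) (j : ℤ), 1 ≤ X → X ≤ 2 * q → h0 < h → ∀ u v, r0 u v → u ≠ ((X, h), j) ∧ v ≠ ((X, h), j))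
    (hj : (tile q T).1 % 2 = 1) (hc : c ⊆ PT q T) (k : ℤ) (u v : XS) (h : PR r0 c u v) :
    u ≠ (FKH.hi (tile q T), k) ∧ v ≠ (FKH.hi (tile q T), k) := by
  have hi' := mod_lt hq T
  have hb := tile_fst hq T
  have h4 := hi_col hi' hj
  have h5 := FKH.hi_fst (tile q T)
  have h6 := FKH.hi_snd (tile q T)
  have h7 : (FKH.hi (tile q T)).1 ≠ 2 * q + 1 := h4
  have h8 : (tile q T).2 = T / (2 * q) := rfl
  rcases h with h | ⟨t, ht, j, h1, h2⟩
  · exact hF (FKH.hi (tile q T)).1 (FKH.hi (tile q T)).2 k (by omega) (by omega) (by omega) u v h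
  · have h3 := hi_new hi' hj (hc ht)
    rw [h1, h2]
    constructor
    · intro h9
      rw [Prod.mk.injEq] at h9
      exact h3.1 h9.1
    · intro h9
      rw [Prod.mk.injEq] at h9
      exact h3.2 h9.1

/-- the gaps with the new label -/
theorem lab_inj (hT0 : h0 ≤ T / (2 * q))
    (hG : ∀ (X h : ℕ) (j g : ℤ), (2 : ℤ) ∣ g → 1 ≤ X → X ≤ 2 * q → h0 < h → ¬ (1 ≤ g % P ∧ g % P ≤ 2 * q) → F g ≠ ((X, h), j))
    (hj : (tile q T).1 % 2 = 1) {g g' : ℤ} (hg : (P : ℤ) ∣ g - (tile q T).1 - 1) (hg' : (2 : ℤ) ∣ g')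
    (he : ss P q F (T + 1) g = ss P q F (T + 1) g') : g = g' := by
  have hb := tile_fst hq T
  have h1 : g % P = (tile q T).1 + 1 := by
    refine (res_iff (by omega) (by omega) (by omega)).1 ?_
    have e1 : g - ((tile q T).1 + 1 : ℤ) = g - (tile q T).1 - 1 := by ring
    rwa [e1]
  rw [(lab_odd hq hP hqP hj hg).2] at he
  by_cases h2 : g' % P = (tile q T).1 + 1
  · have h3 : (P : ℤ) ∣ g' - (tile q T).1 - 1 := by
      have h4 := (res_iff (P := P) (g := g') (j := (tile q T).1 + 1) (by omega) (by omega) (by omega)).2 h2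
      have e1 : g' - ((tile q T).1 + 1 : ℤ) = g' - (tile q T).1 - 1 := by ring
      rwa [e1] at h4
    rw [(lab_odd hq hP hqP hj h3).2, Prod.mk.injEq] at he
    have h5 := Int.emod_add_mul_ediv g P
    have h6 := Int.emod_add_mul_ediv g' P
    rw [← h5, ← h6, he.2, h1, h2]
  · rw [ss_other hq hP F T hg' h2] at he
    exact absurd he.symm (lab_ne hq hP hqP hT0 hG hj hg' h2 _)

theorem cut_res {g : ℤ} : (P : ℤ) ∣ g - (tile q T).1 - 1 ↔ g % P = (tile q T).1 + 1 := by
  have hb := tile_fst hq T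
  have e1 : g - (tile q T).1 - 1 = g - ((tile q T).1 + 1 : ℤ) := by ring
  rw [e1]
  exact res_iff (by omega) (by omega) (by omega)

/-- odd column, closed -/
theorem step_cut (hT0 : h0 ≤ T / (2 * q))
    (hF : ∀ (X h : ℕ) (j : ℤ), 1 ≤ X → X ≤ 2 * q → h0 < h → ∀ u v, r0 u v → u ≠ ((X, h), j) ∧ v ≠ ((X, h), j))
    (hG : ∀ (X h : ℕ) (j g : ℤ), (2 : ℤ) ∣ g → 1 ≤ X → X ≤ 2 * q → h0 < h → ¬ (1 ≤ g % P ∧ g % P ≤ 2 * q) → F g ≠ ((X, h), j))
    (hj : (tile q T).1 % 2 = 1) (hc : c ⊆ PT q T) (hI : Inv α (ss P q F T) (PR r0 c)) :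
    Inv (Pat.e ((tile q T).1 : ℤ) α) (ss P q F (T + 1)) (PR r0 c) := by
  refine inv_cut hP (by omega) hI (fun g hg h => ?_) (fun g hg a b hab => ?_) (fun g g' hg hg' he => ?_)
  · exact ss_other hq hP F T hg (fun h1 => h ((cut_res hq hP hqP).2 h1))
  · rw [(lab_odd hq hP hqP hj hg).2]
    exact lab_rel hq hP hqP hT0 hF hj hc _ a b hab
  · exact lab_inj hq hP hqP hT0 hG hj hg hg' he

/-- odd column, open -/
theorem step_up (hT0 : h0 ≤ T / (2 * q))
    (hF : ∀ (X h : ℕ) (j : ℤ), 1 ≤ X → X ≤ 2 * q → h0 < h → ∀ u v, r0 u v → u ≠ ((X, h), j) ∧ v ≠ ((X, h), j))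
    (hG : ∀ (X h : ℕ) (j g : ℤ), (2 : ℤ) ∣ g → 1 ≤ X → X ≤ 2 * q → h0 < h → ¬ (1 ≤ g % P ∧ g % P ≤ 2 * q) → F g ≠ ((X, h), j))
    (hj : (tile q T).1 % 2 = 1) (hc : c ⊆ PT q T) (hI : Inv α (ss P q F T) (PR r0 c)) :
    Inv α (ss P q F (T + 1)) (PR r0 (insert (tile q T) c)) := by
  have hb := tile_fst hq T
  refine inv_up hP (i := (tile q T).1) (by omega) hI (fun g hg h => ?_) (fun g hg a b hab => ?_) (fun g g' hg hg' he => ?_)
    (fun g g' hg hg' => ?_) (fun a b => ?_)
  · exact ss_other hq hP F T hg (fun h1 => h ((cut_res hq hP hqP).2 h1))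
  · rw [(lab_odd hq hP hqP hj hg).2]
    exact lab_rel hq hP hqP hT0 hF hj hc _ a b hab
  · exact lab_inj hq hP hqP hT0 hG hj hg hg' he
  · rw [(lab_odd hq hP hqP hj hg).2]
    by_cases h2 : g' % P = (tile q T).1 + 1
    · rw [(lab_odd hq hP hqP hj ((cut_res hq hP hqP).2 h2)).1]
      intro h3
      rw [Prod.mk.injEq] at h3
      have h4 := FKH.hi_snd (tile q T)
      have h5 := FKH.lo_snd (tile q T)
      rw [h3.1, h5] at h4
      omega
    · exact (lab_ne hq hP hqP hT0 hG hj hg' h2 _).symm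
  · constructor
    · rintro (h | ⟨t, ht, k, h1, h2⟩)
      · exact Or.inl (Or.inl h)
      · rw [mem_insert] at ht
        rcases ht with ht | ht
        · right
          have e1 : (P : ℤ) ∣ k * P + ((tile q T).1 + 1) - (tile q T).1 - 1 := ⟨k, by ring⟩
          have h3 := lab_odd (F := F) hq hP hqP hj e1
          rw [jsd (by omega) (by omega)] at h3
          refine ⟨_, e1, ?_, ?_⟩
          · rw [h3.1, h1, ht]
          · rw [h3.2, h2, ht]
        · exact Or.inl (Or.inr ⟨t, ht, k, h1, h2⟩)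
    · rintro ((h | ⟨t, ht, k, h1, h2⟩) | ⟨g, hg, h1, h2⟩)
      · exact Or.inl h
      · exact Or.inr ⟨t, mem_insert_of_mem ht, k, h1, h2⟩
      · have h3 := lab_odd (F := F) hq hP hqP hj hg
        exact Or.inr ⟨tile q T, mem_insert_self _ _, g / P, by rw [h1, h3.1], by rw [h2, h3.2]⟩

end step

/-- **one phase**: heights `h0, ..., h1`, the columns `1, ..., 2 q` -/
theorem phase {P q : ℕ} (hq : 1 ≤ q) (hP : (2 : ℤ) ∣ P) (hqP : 2 * q + 2 ≤ P) {r0 : XS → XS → Prop} {F : ℤ → XS} {α0 : Pat P}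
    {h0 h1 : ℕ} (hh0 : h0 % 2 = 0) (hh1 : h1 % 2 = 0)
    (hW : ∀ (j : ℤ) (h : ℕ), h % 2 = 0 → h0 ≤ h → h ≤ h1 → Relation.EqvGen r0 ((2 * q + 1, h), j) (F (j * P + 2 * q + 2)))
    (hF : ∀ (X h : ℕ) (j : ℤ), 1 ≤ X → X ≤ 2 * q → h0 < h → ∀ u v, r0 u v → u ≠ ((X, h), j) ∧ v ≠ ((X, h), j))
    (hG : ∀ (X h : ℕ) (j g : ℤ), (2 : ℤ) ∣ g → 1 ≤ X → X ≤ 2 * q → h0 < h → ¬ (1 ≤ g % P ∧ g % P ≤ 2 * q) → F g ≠ ((X, h), j))
    (hI : Inv α0 (ss P q F (h0 * (2 * q))) r0) (t : ℕ) :
    t ≤ (h1 - h0) * (2 * q) → ∀ c : Finset (ℕ × ℕ), c ⊆ UT q (h0 * (2 * q)) t →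
      Inv (sp q c α0 (h0 * (2 * q)) t) (ss P q F (h0 * (2 * q) + t)) (PR r0 c) := by
  induction t with
  | zero =>
    intro _ c hc
    rw [UT_zero, subset_empty] at hc
    rw [hc]
    refine inv_rel hI (fun a b hab => Relation.EqvGen.rel _ _ (Or.inl hab)) (fun a b hab => ?_)
    rcases hab with hab | ⟨t, ht, _⟩
    · exact Relation.EqvGen.rel _ _ hab
    · exact absurd ht (notMem_empty t)
  | succ t ih =>
    intro ht c hc
    have ht' : t ≤ (h1 - h0) * (2 * q) := by omega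
    obtain ⟨T, hT⟩ : ∃ T, T = h0 * (2 * q) + t := ⟨_, rfl⟩
    have e1 : h0 * (2 * q) + (t + 1) = T + 1 := by omega
    have hT0 : h0 ≤ T / (2 * q) := by
      rw [Nat.le_div_iff_mul_le (by omega)]
      omega
    have hT1 : T / (2 * q) < h1 := by
      rw [Nat.div_lt_iff_lt_mul (by omega)]
      have h2 : h0 < h1 := by
        by_contra h3
        have h4 : h1 - h0 = 0 := by omega
        rw [h4, Nat.zero_mul] at ht
        omega
      have h3 : h1 * (2 * q) = h0 * (2 * q) + (h1 - h0) * (2 * q) := by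
        rw [← Nat.add_mul]
        congr 1
        omega
      omega
    rw [e1]
    rcases split_u hq hc with hc0 | ⟨c0, hc0, rfl⟩
    · have h3 := ih ht' c hc0
      rw [← hT] at h3
      have hnt : tile q (h0 * (2 * q) + t) ∉ c := fun h => UT_notMem hq _ t (hc0 h)
      rcases Nat.mod_two_eq_zero_or_one (tile q T).1 with hp | hp
      · have h4 : ¬ ltr c (tile q (h0 * (2 * q) + t)) := by
          rw [← hT] at hnt ⊢
          unfold ltr
          rintro (⟨_, h⟩ | ⟨h, _⟩)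
          · exact hnt h
          · omega
        rw [sp_not h4]
        intro g g' hg hg'
        have h5 := mod_even hP hg
        have h6 := mod_even hP hg'
        rw [ss_other hq hP F T hg (by omega), ss_other hq hP F T hg' (by omega)]
        exact h3 g g' hg hg'
      · have h4 : ltr c (tile q (h0 * (2 * q) + t)) := by
          rw [← hT] at hnt ⊢
          exact Or.inr ⟨hp, hnt⟩
        rw [sp_of h4, ← hT]
        refine step_cut hq hP hqP hT0 hF hG hp ?_ h3
        rw [hT]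
        exact hc0.trans (UT_sub q _ t)
    · have h3 := ih ht' c0 hc0
      rw [← hT] at h3
      rcases Nat.mod_two_eq_zero_or_one (tile q T).1 with hp | hp
      · have h4 : ltr (insert (tile q (h0 * (2 * q) + t)) c0) (tile q (h0 * (2 * q) + t)) := by
          rw [← hT]
          exact Or.inl ⟨hp, mem_insert_self _ _⟩
        rw [sp_of h4, sp_insert hq, ← hT]
        exact step_even hq hP hqP hT0 hT1 hh0 hh1 hW hp h3
      · have h4 : ¬ ltr (insert (tile q (h0 * (2 * q) + t)) c0) (tile q (h0 * (2 * q) + t)) := by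
          rw [← hT]
          unfold ltr
          rintro (⟨h, _⟩ | ⟨_, h⟩)
          · omega
          · exact h (mem_insert_self _ _)
        rw [sp_not h4, sp_insert hq, ← hT]
        refine step_up hq hP hqP hT0 hF hG hp ?_ h3
        rw [hT]
        exact hc0.trans (UT_sub q _ t)

end SCH
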