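import Pool.Agent.Lib.MP_216314_pr.Sc.ScInv
import Pool.Agent.Lib.MP_216314_pr.Sc.ScDef
import Pool.Agent.Lib.MP_216314_pr.Ca.CaProb
import Pool.Agent.Lib.MP_216314_pr.K.KLow

/-!
# Schramm's formula, lattice side: definitions for the tiles, the cover and the states

`c = 2 a - 1`, `m = a + n`, period `P = 2 n + 2 + 2 a = 2 m + 2`, truncation `K = 2 N + 1`. The vertex `(x, y)` is the site
`(x + y + 2, x - y + 1 + 2 N)` (`CD.ph`, `CD.ch`, `CD.pe` as in `Ca`), columns `1, ..., 2 m + 1`, heights `0, ..., 4 N + 2`; the tip is at the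
height `2 N`.
`XS`: sites of the universal cover, the integer is the sheet. In this description only the re-routed edges (column `2 a + 1`, heights below
`2 N`) change the sheet, and the right boundary number `j` consists of the lower part of the column `2 a + 1` of the sheet `j` and the
upper part of the column `2 m + 1` of the sheet `j - 1` (`onR`).
Gaps of the states: the gap `j P + r`, `0 ≤ r < P`, is the region `k = r - 1` of `H` in the sheet `j`; `r = 0` is the right boundary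
number `j`. The even gaps are the sites of the lattice.
-/

set_option autoImplicit false

noncomputable section

namespace SCH

open Finset FKI FKP FKH QS CD CY

/-- sites of the cover -/
abbrev XS := (ℕ × ℕ) × ℤ

/-- all tiles, `m = a + n` -/
def TA (m N : ℕ) : Finset (ℕ × ℕ) := Icc 2 (2 * m) ×ˢ range (4 * N + 2)

/-- the tiles of the cylinder -/
def TC (a n N : ℕ) : Finset (ℕ × ℕ) := Icc (2 * a + 1) (2 * (a + n)) ×ˢ range (2 * N)

/-- the tile `t` joins `u` and `v` in the cover -/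
def ek (a m N : ℕ) (t : ℕ × ℕ) (u v : XS) : Prop := ∃ j : ℤ,
  if t.1 = 2 * a + 1 ∧ t.2 < 2 * N then u = ((2 * m + 1, t.2 + t.2 % 2), j - 1) ∧ v = ((2 * a + 2, t.2 + (t.2 + 1) % 2), j)
  else u = (lo t, j) ∧ v = (hi t, j)

/-- the site `u` belongs to the right boundary number `j` -/
def onR (a m N : ℕ) (j : ℤ) (u : XS) : Prop :=
  u.1.2 % 2 = 0 ∧ ((u.1.1 = 2 * a + 1 ∧ u.1.2 ≤ 2 * N ∧ u.2 = j) ∨ (u.1.1 = 2 * m + 1 ∧ 2 * N ≤ u.1.2 ∧ u.2 = j - 1))

/-- open tiles and wires -/
def RR (a m N : ℕ) (c : Finset (ℕ × ℕ)) (u v : XS) : Prop :=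
  (∃ t ∈ c, ek a m N t u v) ∨ ∃ j, onR a m N j u ∧ onR a m N j v

/-- the representative of the right boundary number `j` -/
def rb (a : ℕ) (j : ℤ) : XS := ((2 * a + 1, 0), j)

/-- labels of the gaps at the height of the cut -/
def F0 (a N P : ℕ) (g : ℤ) : XS :=
  if g % P = 0 ∨ g % P = 2 * a + 2 then rb a (g / P) else (((g % P - 1).toNat, 2 * N), g / P)

/-- labels during a phase of the strip with the tile columns `1, ..., 2 q`, `F` for the other gaps -/
def ss (P q : ℕ) (F : ℤ → XS) (T : ℕ) (g : ℤ) : XS :=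
  if 1 ≤ g % P ∧ g % P ≤ 2 * q then (cu q (T / (2 * q)) (T % (2 * q)) (g % P - 1).toNat, g / P) else F g

/-- the pattern after `t` more tiles of the strip with the tile columns `1, ..., 2 q` -/
def sp {P : ℕ} (q : ℕ) (c : Finset (ℕ × ℕ)) (α : Pat P) (T0 : ℕ) : ℕ → Pat P
  | 0 => α
  | t + 1 => if ltr c (tile q (T0 + t)) then Pat.e ((tile q (T0 + t)).1 : ℤ) (sp q c α T0 t) else sp q c α T0 t

/-- base relation and plain tiles -/
def PR (r0 : XS → XS → Prop) (c : Finset (ℕ × ℕ)) (u v : XS) : Prop :=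
  r0 u v ∨ ∃ t ∈ c, ∃ j : ℤ, u = (lo t, j) ∧ v = (hi t, j)

/-- letters of the cylinder -/
def tC (a : ℕ) (c : Finset (ℕ × ℕ)) (h k : ℕ) : Prop := ¬ ((k + h) % 2 = 0 ↔ (2 * a + 1 + k, h) ∈ c)

/-- first pattern of the cylinder: the arcs `(-1, 0)`, `(1, 2)`, ... -/
def acy (n : ℕ) (hn : 1 ≤ n) : Pat (2 * n) where
  f := fun x => if x % 2 = 0 then x - 1 else x + 1
  pos := by omega
  inv := fun x => by split_ifs <;> omega
  per := fun x => by push_cast; split_ifs <;> omega
  ne := fun x => by split_ifs <;> omega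
  nc := fun x y h1 h2 => by split_ifs at * <;> omega

/-- the site of a gap of the cylinder at the height `h` -/
def cs (a n : ℕ) (g : ℤ) (h : ℕ) : XS := ((2 * a + 2 + ((g - 1) % (2 * n : ℕ)).toNat, h), (g - 1) / (2 * n : ℕ))

/-- the open tiles of the cylinder only -/
def RC (a m N : ℕ) (c : Finset (ℕ × ℕ)) (u v : XS) : Prop := ∃ t ∈ c, ek a m N t u v

/-- `a` small arcs are inserted at the gap `1` -/
def insN {L : ℕ} : (a : ℕ) → Pat L → Pat (L + 2 * a)
  | 0, α => α
  | a + 1, α => Pat.ins 1 (insN a α)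

/-- the first pattern of the left strip is inserted at the seam: arcs `(0, 2 a + 1)`, `(1, 2)`, ..., `(2 a - 1, 2 a)` -/
def beta (a : ℕ) {n : ℕ} (π : Pat (2 * n)) : Pat (2 * n + 2 + 2 * a) := insN a (Pat.ins 0 π)

/-- the last pattern -/
def fin (a n N : ℕ) (hn : 1 ≤ n) (cC cL cU : Finset (ℕ × ℕ)) : Pat (2 * n + 2 + 2 * a) :=
  sp (a + n) cU (sp a cL (beta a (pats (tC a cC) (acy n hn) (2 * N))) 0 (2 * N * (2 * a)))
    (2 * N * (2 * (a + n))) ((2 * N + 2) * (2 * (a + n)))

end SCH
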