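import Pool.Agent.Lib.MP_216314_pr.Sc.ScIns
import Pool.Agent.Lib.MP_216314_pr.Sc.ScPh

/-!
# The three phases
-/

set_option autoImplicit false

noncomputable section

namespace SCH

open Finset FKI FKP FKH QS CD CY

theorem mem_TC {a n N : ℕ} {t : ℕ × ℕ} : t ∈ TC a n N ↔ (2 * a + 1 ≤ t.1 ∧ t.1 ≤ 2 * (a + n)) ∧ t.2 < 2 * N := by
  unfold TC
  rw [mem_product, mem_Icc, mem_range]

theorem mem_TU' {a n N : ℕ} {t : ℕ × ℕ} : t ∈ TU a n N ↔ (2 ≤ t.1 ∧ t.1 ≤ 2 * (a + n)) ∧ 2 * N ≤ t.2 ∧ t.2 < 4 * N + 2 := by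
  unfold TU
  rw [mem_product, mem_Icc, mem_Ico]

/-- a tile which is not re-routed -/
theorem ek_plain {a m N : ℕ} {t : ℕ × ℕ} (ht : ¬ (t.1 = 2 * a + 1 ∧ t.2 < 2 * N)) (u v : XS) :
    ek a m N t u v ↔ ∃ j : ℤ, u = (lo t, j) ∧ v = (FKH.hi t, j) := by
  unfold ek
  simp only [if_neg ht]

/-- one more set of plain tiles -/
theorem RR_union {a m N : ℕ} {c c' : Finset (ℕ × ℕ)} (h : ∀ t ∈ c', ¬ (t.1 = 2 * a + 1 ∧ t.2 < 2 * N)) (u v : XS) :
    PR (RR a m N c) c' u v ↔ RR a m N (c ∪ c') u v := by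
  unfold PR RR
  constructor
  · rintro ((⟨t, ht, h1⟩ | h1) | ⟨t, ht, h1⟩)
    · exact Or.inl ⟨t, mem_union_left _ ht, h1⟩
    · exact Or.inr h1
    · exact Or.inl ⟨t, mem_union_right _ ht, (ek_plain (h t ht) u v).2 h1⟩
  · rintro (⟨t, ht, h1⟩ | h1)
    · rcases mem_union.1 ht with ht | ht
      · exact Or.inl (Or.inl ⟨t, ht, h1⟩)
      · exact Or.inr ⟨t, ht, (ek_plain (h t ht) u v).1 h1⟩
    · exact Or.inl (Or.inr h1)

theorem inv_union {P a m N : ℕ} {α : Pat P} {s : ℤ → XS} {c c' : Finset (ℕ × ℕ)}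
    (h : ∀ t ∈ c', ¬ (t.1 = 2 * a + 1 ∧ t.2 < 2 * N)) (hI : Inv α s (PR (RR a m N c) c')) : Inv α s (RR a m N (c ∪ c')) :=
  inv_rel hI (fun _ _ hab => Relation.EqvGen.rel _ _ ((RR_union h _ _).1 hab))
    (fun _ _ hab => Relation.EqvGen.rel _ _ ((RR_union h _ _).2 hab))

/-- end points of a tile in the cover -/
theorem ek_pos {a m N : ℕ} {t : ℕ × ℕ} {u v : XS} (h : ek a m N t u v) :
    ((u.1.1 = 2 * m + 1 ∧ v.1.1 = 2 * a + 2 ∧ t.2 < 2 * N ∧ t.1 = 2 * a + 1) ∨ (t.1 ≤ u.1.1 ∧ t.1 ≤ v.1.1)) ∧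
      u.1.2 ≤ t.2 + 1 ∧ v.1.2 ≤ t.2 + 1 := by
  unfold ek at h
  obtain ⟨j, h⟩ := h
  by_cases c1 : t.1 = 2 * a + 1 ∧ t.2 < 2 * N
  · rw [if_pos c1] at h
    rw [h.1, h.2]
    refine ⟨Or.inl ⟨rfl, rfl, c1.2, c1.1⟩, ?_, ?_⟩
    · show t.2 + t.2 % 2 ≤ t.2 + 1
      omega
    · show t.2 + (t.2 + 1) % 2 ≤ t.2 + 1
      omega
  · rw [if_neg c1] at h
    rw [h.1, h.2]
    have h1 := FKH.lo_fst t
    have h2 := FKH.hi_fst t
    have h3 := FKH.lo_snd t
    have h4 := FKH.hi_snd t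
    refine ⟨Or.inr ⟨?_, ?_⟩, ?_, ?_⟩
    · show t.1 ≤ (lo t).1
      omega
    · show t.1 ≤ (FKH.hi t).1
      omega
    · show (lo t).2 ≤ t.2 + 1
      omega
    · show (FKH.hi t).2 ≤ t.2 + 1
      omega

theorem pos_of {u : XS} {X h : ℕ} {j : ℤ} (he : u = ((X, h), j)) : u.1.1 = X ∧ u.1.2 = h := by
  rw [he]
  exact ⟨rfl, rfl⟩

/-- the left block is fresh in the first phase -/
theorem fresh1 {a m N : ℕ} {c : Finset (ℕ × ℕ)} (ha : a ≤ m) (hc : ∀ t ∈ c, 2 * a + 1 ≤ t.1) (X h : ℕ) (j : ℤ) (_hX : 1 ≤ X)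
    (hX' : X ≤ 2 * a) (_hh : 0 < h) (u v : XS) (huv : RR a m N c u v) : u ≠ ((X, h), j) ∧ v ≠ ((X, h), j) := by
  rcases huv with ⟨t, ht, h1⟩ | ⟨k, ⟨_, h1⟩, _, h2⟩
  · have h2 := ek_pos h1
    have h3 := hc t ht
    constructor
    · intro he
      have h4 := pos_of he
      omega
    · intro he
      have h4 := pos_of he
      omega
  · constructor
    · intro he
      have h4 := pos_of he
      omega
    · intro he
      have h4 := pos_of he
      omega

/-- the sites above the tip are fresh in the second phase -/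
theorem fresh2 {a m N : ℕ} {c : Finset (ℕ × ℕ)} (ha : a ≤ m) (hc : ∀ t ∈ c, t.2 < 2 * N) (X h : ℕ) (j : ℤ) (_hX : 1 ≤ X)
    (hX' : X ≤ 2 * m) (hh : 2 * N < h) (u v : XS) (huv : RR a m N c u v) : u ≠ ((X, h), j) ∧ v ≠ ((X, h), j) := by
  rcases huv with ⟨t, ht, h1⟩ | ⟨k, ⟨_, h1⟩, _, h2⟩
  · have h2 := ek_pos h1
    have h3 := hc t ht
    constructor
    · intro he
      have h4 := pos_of he
      omega
    · intro he
      have h4 := pos_of he
      omega
  · constructor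
    · intro he
      have h4 := pos_of he
      omega
    · intro he
      have h4 := pos_of he
      omega

theorem F0_zero {a N P : ℕ} {g : ℤ} (h : g % P = 0) : F0 a N P g = rb a (g / P) := by
  unfold F0
  rw [if_pos (Or.inl h)]

/-- labels at the height of the cut -/
theorem ss_cut {P q : ℕ} (hq : 1 ≤ q) (hP : (2 : ℤ) ∣ P) (F : ℤ → XS) (N : ℕ) {g : ℤ} (hg : (2 : ℤ) ∣ g) :
    ss P q F (2 * N * (2 * q)) g =
      if 1 ≤ g % P ∧ g % P ≤ 2 * q then (((g % P - 1).toNat, 2 * N), g / P) else F g := by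
  have h1 := mod_even hP hg
  unfold ss
  by_cases h : 1 ≤ g % P ∧ g % P ≤ 2 * q
  · rw [if_pos h, if_pos h, Nat.mul_div_cancel _ (by omega), Nat.mul_mod_left, cu_start (by omega) (by omega),
      if_neg (by omega)]
  · rw [if_neg h, if_neg h]

/-- the connection of the right boundaries in the cover and the last pattern -/
theorem fin_reg {a n N : ℕ} (ha : 1 ≤ a) (hn : 1 ≤ n) {cC cL cU : Finset (ℕ × ℕ)} (hC : cC ⊆ TC a n N) (hL : cL ⊆ TH a N)
    (hU : cU ⊆ TU a n N) (j : ℤ) :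
    Reg (fin a n N hn cC cL cU) 0 (j * (2 * n + 2 + 2 * a : ℕ)) ↔ Relation.EqvGen (RR a (a + n) N (cC ∪ cL ∪ cU)) (rb a 0) (rb a j) := by
  obtain ⟨P, hPd⟩ : ∃ P, P = 2 * n + 2 + 2 * a := ⟨_, rfl⟩
  have hP : (2 : ℤ) ∣ P := by omega
  have i0 := inv_start ha hn hC
  unfold fin
  revert i0
  generalize beta a (pats (tC a cC) (acy n hn) (2 * N)) = β0
  revert β0
  rw [← hPd]
  intro β0 i0
  -- first phase
  have i1 : Inv β0 (ss P a (F0 a N P) (0 * (2 * a))) (RR a (a + n) N cC) := by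
    rw [Nat.zero_mul]
    exact i0
  have i2 := phase (q := a) ha hP (by omega) (h0 := 0) (h1 := 2 * N) (by omega) (by omega)
    (fun k h h2 _ h3 => by
      have e1 : k * (P : ℤ) + 2 * a + 2 = k * P + (2 * a + 2) := by ring
      have e2 : F0 a N P (k * P + 2 * a + 2) = rb a k := by
        unfold F0
        rw [e1, jsm (by omega) (by omega), jsd (by omega) (by omega), if_pos (Or.inr rfl)]
      rw [e2]
      refine Relation.EqvGen.rel _ _ (Or.inr ⟨k, ⟨h2, Or.inl ⟨rfl, h3, rfl⟩⟩, ⟨Nat.zero_mod 2, Or.inl ⟨rfl, Nat.zero_le _, rfl⟩⟩⟩))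
    (fun X h k h1 h2 h3 u v huv => fresh1 (by omega) (fun t ht => ((mem_TC.1 (hC ht)).1).1) X h k h1 h2 h3 u v huv)
    (fun X h k g hg h1 h2 h3 h4 h5 => by
      have h6 := mod_even hP hg
      unfold F0 at h5
      split_ifs at h5 with c1
      · unfold rb at h5
        have h7 := pos_of h5
        simp only at h7
        omega
      · have h7 := pos_of h5
        simp only at h7
        have h8 := Int.emod_nonneg g (by omega : (P : ℤ) ≠ 0)
        omega) i1 (2 * N * (2 * a)) (le_refl _) cL (fun t ht => by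
      have h1 := mem_TH.1 (hL ht)
      unfold UT
      rw [Nat.zero_mul, Nat.zero_add, PT_zero, sdiff_empty]
      exact TH_sub a N ha (hL ht))
  rw [Nat.zero_mul, Nat.zero_add] at i2
  have i3 := inv_union (fun t ht => by
    have h1 := mem_TH.1 (hL ht)
    omega) i2
  -- change of labels
  have i4 : Inv (sp a cL β0 0 (2 * N * (2 * a))) (ss P (a + n) (F0 a N P) (2 * N * (2 * (a + n)))) (RR a (a + n) N (cC ∪ cL)) := by
    refine inv_congr i3 fun g hg => ?_
    have h1 := mod_even hP hg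
    have h2 := Int.emod_nonneg g (by omega : (P : ℤ) ≠ 0)
    have h3 := Int.emod_lt_of_pos g (by omega : (0 : ℤ) < P)
    rw [ss_cut ha hP _ N hg, ss_cut (by omega) hP _ N hg]
    by_cases c1 : 1 ≤ g % P ∧ g % P ≤ 2 * a
    · rw [if_pos c1, if_pos (by push_cast; omega)]
      exact Relation.EqvGen.refl _
    · rw [if_neg c1]
      by_cases c2 : g % P = 0
      · rw [if_neg (by omega)]
        exact Relation.EqvGen.refl _
      · rw [if_pos (by push_cast; omega)]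
        unfold F0
        by_cases c3 : g % P = 2 * a + 2
        · rw [if_pos (Or.inr c3)]
          have h4 : (g % P - 1).toNat = 2 * a + 1 := by omega
          rw [h4]
          refine Relation.EqvGen.rel _ _ (Or.inr ⟨g / P, ⟨Nat.zero_mod 2, Or.inl ⟨rfl, Nat.zero_le _, rfl⟩⟩,
            ⟨?_, Or.inl ⟨rfl, le_refl _, rfl⟩⟩⟩)
          show 2 * N % 2 = 0
          omega
        · rw [if_neg (by rintro (h | h) <;> omega)]
          exact Relation.EqvGen.refl _
  -- second phase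
  have i5 := phase (q := a + n) (by omega) hP (by omega) (h0 := 2 * N) (h1 := 4 * N + 2) (by omega) (by omega)
    (fun k h h2 h3 _ => by
      have e1 : k * (P : ℤ) + 2 * (a + n : ℕ) + 2 = (k + 1) * P + 0 := by
        rw [hPd]
        push_cast
        ring
      have e2 : F0 a N P (k * P + 2 * (a + n : ℕ) + 2) = rb a (k + 1) := by
        rw [e1, F0_zero (jsm (le_refl 0) (by omega)), jsd (le_refl 0) (by omega)]
      rw [e2]
      refine Relation.EqvGen.rel _ _ (Or.inr ⟨k + 1, ⟨h2, Or.inr ⟨rfl, h3, ?_⟩⟩, ⟨Nat.zero_mod 2, Or.inl ⟨rfl, Nat.zero_le _, rfl⟩⟩⟩)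
      show k = k + 1 - 1
      omega)
    (fun X h k h1 h2 h3 u v huv => fresh2 (by omega) (fun t ht => by
      rcases mem_union.1 ht with ht | ht
      · exact (mem_TC.1 (hC ht)).2
      · exact (mem_TH.1 (hL ht)).2) X h k h1 h2 h3 u v huv)
    (fun X h k g hg h1 h2 h3 h4 h5 => by
      have h6 := mod_even hP hg
      have h8 := Int.emod_nonneg g (by omega : (P : ℤ) ≠ 0)
      have h9 := Int.emod_lt_of_pos g (by omega : (0 : ℤ) < P)
      rw [F0_zero (by push_cast at h4; omega)] at h5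
      have h7 := pos_of h5
      have h10 : (rb a (g / P)).1.2 = 0 := rfl
      omega) i4 ((2 * N + 2) * (2 * (a + n))) (by
      have h1 : 4 * N + 2 - 2 * N = 2 * N + 2 := by omega
      rw [h1]) cU (fun t ht => by
      have h1 := mem_TU'.1 (hU ht)
      unfold UT
      have e1 : 2 * N * (2 * (a + n)) + (2 * N + 2) * (2 * (a + n)) = 2 * (a + n) * (4 * N + 2) := by ring
      have e2 : 2 * N * (2 * (a + n)) = 2 * (a + n) * (2 * N) := by ring
      rw [mem_sdiff, e1, e2, mem_PT_slab (by omega), mem_PT_slab (by omega)]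
      omega)
  have i6 := inv_union (fun t ht => by
    have h1 := mem_TU'.1 (hU ht)
    omega) i5
  have h1 := i6 0 (j * P) (by omega) (hP.trans (dvd_mul_left _ _))
  rw [h1]
  have e1 : ∀ k : ℤ, ss P (a + n) (F0 a N P) (2 * N * (2 * (a + n)) + (2 * N + 2) * (2 * (a + n))) (k * P) = rb a k := by
    intro k
    have e2 : k * (P : ℤ) = k * P + 0 := by ring
    rw [e2, ss_out _ _ (by rw [jsm (le_refl 0) (by omega)]; omega), F0_zero (jsm (le_refl 0) (by omega)),
      jsd (le_refl 0) (by omega)]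
  have e2 := e1 0
  rw [zero_mul] at e2
  rw [e1 j, e2]

end SCH
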